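import Pool.Agent.MP_1acf33_an.Basic
import Pool.Agent.MP_1acf33_an.Amb
import Pool.Agent.MP_1acf33_an.Space
import Pool.Agent.MP_1acf33_an.Act

-- part MP_1acf33_an.RIS
section

/-!
Estimates for rapidly increasing sequences.
-/

set_option linter.style.haveILetI false
set_option linter.unusedSectionVars false

namespace Pool.Agent.MP_1acf33_an

open scoped InnerProductSpace

variable {A : Type*} [CStarAlgebra A] {H : Type*} [NormedAddCommGroup H]
  [InnerProductSpace ℂ H] [CompleteSpace H]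
namespace Pre

variable {P : Pre A H}

/-- A finite rapidly increasing block sequence. -/
structure RIS (P : Pre A H) (C : ℝ) (N : ℕ) (x : ℕ → ℕ → H) (lo hi : ℕ → ℕ) : Prop where
  nonneg : 0 ≤ C
  bd : ∀ k, k < N → P.Bd (x k) C
  low : ∀ k, k < N → P.Low (x k) (lo k)
  upto : ∀ k, k < N → P.Upto (x k) (hi k)
  blk : ∀ k' k, k' < k → k < N → hi k' ≤ lo k
  small : ∀ k' k, k' < k → k < N → ∀ n, (P.h n).w < hi k' →
    ‖P.co n n (x k)‖ ≤ C / mm (P.h n).w

/-- Estimates satisfied by normalised averages of weight `j`. -/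
structure Avg (P : Pre A H) (j : ℕ) (C : ℝ) (y : ℕ → H) : Prop where
  bd : P.Bd y (4 * C)
  raw : ∀ c r, ‖P.raw c r y‖ ≤ 3 * C / mm j
  lt : ∀ n, (P.h n).w < j → ‖P.co n n y‖ ≤ 4 * C / mm (P.h n).w
  gt : ∀ n, j < (P.h n).w → ‖P.co n n y‖ ≤ 4 * C / mm j

variable [hG : P.Good] {C : ℝ} {N : ℕ} {x : ℕ → ℕ → H} {lo hi : ℕ → ℕ}

theorem RIS.card_le_one (h : P.RIS C N x lo hi) {J : Finset ℕ} (hJ : J ⊆ Finset.range N)
    (r : ℕ) : (J.filter fun k => lo k ≤ r ∧ r < hi k).card ≤ 1 := by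
  refine Finset.card_le_one.2 fun a ha b hb => ?_
  obtain ⟨ha1, ha2⟩ := Finset.mem_filter.1 ha
  obtain ⟨hb1, hb2⟩ := Finset.mem_filter.1 hb
  have h1 := Finset.mem_range.1 (hJ ha1)
  have h2 := Finset.mem_range.1 (hJ hb1)
  rcases lt_trichotomy a b with hab | hab | hab
  · have := h.blk a b hab h2; omega
  · exact hab
  · have := h.blk b a hab h1; omega

theorem ris_norm_sum_le {J : Finset ℕ} {f : ℕ → H} {M : ℝ} (h : ∀ k ∈ J, ‖f k‖ ≤ M) :
    ‖∑ k ∈ J, f k‖ ≤ J.card * M := by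
  refine (norm_sum_le _ _).trans ?_
  rw [← nsmul_eq_mul]
  exact Finset.sum_le_card_nsmul _ _ _ h

theorem RIS.raw_eq_zero (h : P.RIS C N x lo hi) {k : ℕ} (hk : k < N) (c : ℕ) {r : ℕ}
    (hr : ¬ (lo k ≤ r ∧ r < hi k)) : P.raw c r (x k) = 0 := by
  by_cases h1 : lo k ≤ r
  · exact (h.upto k hk).raw_eq_zero c (by omega)
  · exact (h.low k hk).raw_eq_zero c (by omega)

theorem RIS.raw_le (h : P.RIS C N x lo hi) {J : Finset ℕ} (hJ : J ⊆ Finset.range N)
    (c r : ℕ) : ‖P.raw c r (∑ k ∈ J, x k)‖ ≤ 3 * C := by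
  have h0 := h.nonneg
  rw [map_sum, ← Finset.sum_filter_of_ne (p := fun k => lo k ≤ r ∧ r < hi k)
    (fun k hk hne => by
      by_contra hr
      exact hne (h.raw_eq_zero (Finset.mem_range.1 (hJ hk)) c hr))]
  refine (ris_norm_sum_le (M := 3 * C) fun k hk =>
    (h.bd k (Finset.mem_range.1 (hJ (Finset.mem_filter.1 hk).1))).raw_le c r).trans ?_
  have h1 : ((J.filter fun k => lo k ≤ r ∧ r < hi k).card : ℝ) ≤ 1 := by
    exact_mod_cast h.card_le_one hJ r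
  nlinarith

theorem RIS.exists_erase (h : P.RIS C N x lo hi) {J : Finset ℕ} (hJ : J ⊆ Finset.range N)
    (j : ℕ) : ∃ J' ⊆ J, (∀ k ∈ J', ∀ n, (P.h n).w = j → ‖P.co n n (x k)‖ ≤ C / mm j) ∧
      P.Bd (∑ k ∈ J, x k - ∑ k ∈ J', x k) C := by
  have h0 := h.nonneg
  have hz : ∀ k ∈ J, hi k ≤ j → ∀ n, (P.h n).w = j → ‖P.co n n (x k)‖ ≤ C / mm j := by
    intro k hk hkj n hn
    have h1 := w_le_st (P := P) n
    rw [co_eq_zero ((h.upto k (Finset.mem_range.1 (hJ hk))).van (by omega) _), norm_zero]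
    exact div_nonneg h0 (mm_pos j).le
  by_cases hS : (J.filter fun k => j < hi k).Nonempty
  · obtain ⟨k0, hk0, hmin⟩ := Finset.exists_min_image _ id hS
    obtain ⟨hk1, hk2⟩ := Finset.mem_filter.1 hk0
    refine ⟨J.erase k0, Finset.erase_subset _ _, fun k hk n hn => ?_, ?_⟩
    · obtain ⟨hk3, hk4⟩ := Finset.mem_erase.1 hk
      by_cases hkj : hi k ≤ j
      · exact hz k hk4 hkj n hn
      · have h1 : k0 ≤ k := hmin k (Finset.mem_filter.2 ⟨hk4, by omega⟩)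
        have := h.small k0 k (by omega) (Finset.mem_range.1 (hJ hk4)) n (by omega)
        rwa [hn] at this
    · rw [← Finset.add_sum_erase _ _ hk1, add_sub_cancel_right]
      exact h.bd k0 (Finset.mem_range.1 (hJ hk1))
  · refine ⟨J, le_rfl, fun k hk n hn => hz k hk ?_ n hn, ?_⟩
    · by_contra hkj
      exact hS ⟨k, Finset.mem_filter.2 ⟨hk, by omega⟩⟩
    · rw [sub_self]; exact bd_zero.mono h0

theorem ris_co_split (n : ℕ) (y y' : ℕ → H) :
    ‖P.co n n y‖ ≤ ‖P.co n n (y - y')‖ + ‖P.co n n y'‖ := by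
  rw [map_sub]; exact norm_le_norm_sub_add _ _

theorem RIS.direct (h : P.RIS C N x lo hi) {J : Finset ℕ} (hJ : J ⊆ Finset.range N) (n : ℕ) :
    ‖P.co n n (∑ k ∈ J, x k)‖ ≤ C + C * J.card / mm (P.h n).w := by
  obtain ⟨J', h1, h2, h3⟩ := h.exists_erase hJ (P.h n).w
  refine (ris_co_split n _ (∑ k ∈ J', x k)).trans (add_le_add (h3 n n) ?_)
  rw [map_sum]
  refine (ris_norm_sum_le fun k hk => h2 k hk n rfl).trans ?_
  have h4 : (J'.card : ℝ) ≤ J.card := by exact_mod_cast Finset.card_le_card h1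
  have h5 := h.nonneg
  have h6 := mm_pos (P.h n).w
  rw [← mul_div_assoc, mul_comm]
  gcongr

theorem RIS.rec_aux (h : P.RIS C N x lo hi) {a α : ℝ} (ha : 0 ≤ a) (hα : 0 ≤ α)
    (hb : ∀ J ⊆ Finset.range N, P.Bd (∑ k ∈ J, x k) (a + α * J.card)) (j n : ℕ) :
    (P.h n).w = j → ∀ J ⊆ Finset.range N,
      (∀ k ∈ J, ∀ n, (P.h n).w = j → ‖P.co n n (x k)‖ ≤ C / mm j) →
      ‖P.co n n (∑ k ∈ J, x k)‖ ≤ (((P.h n).age + 1) * (2 * C + a) + α * J.card) / mm j := by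
  induction n using Nat.strong_induction_on with
  | _ n ih =>
  intro hn J hJ hs
  have h0 := h.nonneg
  have hm := mm_pos j
  have hCm : 0 ≤ C / mm j := div_nonneg h0 hm.le
  rcases hG.cases n with hst | hst
  · rw [map_sum, ← Finset.sum_filter_of_ne (p := fun k => lo k ≤ n ∧ n < hi k)
      (fun k hk hne => by
        by_contra hr
        exact hne (by rw [hst.co_eq, h.raw_eq_zero (Finset.mem_range.1 (hJ hk)) n hr]))]
    refine (ris_norm_sum_le (M := C / mm j) fun k hk =>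
      hs k (Finset.mem_filter.1 hk).1 n hn).trans ?_
    have h1 : ((J.filter fun k => lo k ≤ n ∧ n < hi k).card : ℝ) ≤ 1 := by
      exact_mod_cast h.card_le_one hJ n
    refine (mul_le_of_le_one_left hCm h1).trans ?_
    refine div_le_div_of_nonneg_right ?_ hm.le
    have h2 : 0 ≤ α * J.card := by positivity
    have h3 : 0 ≤ ((P.h n).age : ℝ) * (2 * C + a) := by positivity
    nlinarith
  · set ξ := (P.h n).ξ with hξ
    let p : ℕ → Prop := fun k => (lo k ≤ n ∧ n < hi k) ∨ (lo k ≤ ξ ∧ ξ < hi k)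
    set J' := J.filter (fun k => ¬ p k) with hJ'
    set J1 := J'.filter (fun k => hi k ≤ ξ + 1) with hJ1
    set J2 := J'.filter (fun k => ¬ hi k ≤ ξ + 1) with hJ2
    have s' : J' ⊆ J := Finset.filter_subset _ _
    have s1 : J1 ⊆ J := (Finset.filter_subset _ _).trans s'
    have s2 : J2 ⊆ J := (Finset.filter_subset _ _).trans s'
    have hcard : (J1.card : ℝ) + J2.card ≤ J.card := by
      have h1 : J1.card + J2.card = J'.card := Finset.card_filter_add_card_filter_not _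
      have h2 := Finset.card_le_card s'
      exact_mod_cast h1.le.trans h2
    have e1 : ∑ k ∈ J, x k = ∑ k ∈ J.filter p, x k + ∑ k ∈ J', x k :=
      (Finset.sum_filter_add_sum_filter_not _ _ _).symm
    have e2 : ∑ k ∈ J', x k = ∑ k ∈ J1, x k + ∑ k ∈ J2, x k :=
      (Finset.sum_filter_add_sum_filter_not _ _ _).symm
    have b1 : ‖P.co n n (∑ k ∈ J.filter p, x k)‖ ≤ 2 * (C / mm j) := by
      rw [map_sum]
      refine (ris_norm_sum_le (M := C / mm j) fun k hk =>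
        hs k (Finset.mem_filter.1 hk).1 n hn).trans ?_
      have h1 : (J.filter p).card ≤ 2 := by
        rw [Finset.filter_or]
        refine (Finset.card_union_le _ _).trans ?_
        have := h.card_le_one hJ n
        have := h.card_le_one hJ ξ
        omega
      have h2 : ((J.filter p).card : ℝ) ≤ 2 := by exact_mod_cast h1
      gcongr
    have r0 : P.raw n n (∑ k ∈ J', x k) = 0 := by
      rw [map_sum]
      refine Finset.sum_eq_zero fun k hk => ?_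
      obtain ⟨hk1, hk2⟩ := Finset.mem_filter.1 hk
      exact h.raw_eq_zero (Finset.mem_range.1 (hJ hk1)) n fun hh => hk2 (Or.inl hh)
    have f0 : P.fE ξ (∑ k ∈ J2, x k) = 0 := by
      rw [map_sum]
      refine Finset.sum_eq_zero fun k hk => ?_
      obtain ⟨hk1, hk2⟩ := Finset.mem_filter.1 hk
      obtain ⟨hk3, hk4⟩ := Finset.mem_filter.1 hk1
      refine fE_eq_zero ((h.low k (Finset.mem_range.1 (hJ hk3))).van _ ?_)
      by_contra hh
      exact hk4 (Or.inr ⟨by omega, by omega⟩)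
    have b0 : (P.h n).b (∑ k ∈ J1, x k) = 0 := by
      rw [map_sum]
      refine Finset.sum_eq_zero fun k hk => ?_
      obtain ⟨hk1, hk2⟩ := Finset.mem_filter.1 hk
      exact hst.vB.dep _ ((h.upto k (Finset.mem_range.1 (hJ (s' hk1)))).van hk2 _)
    have b2 : ‖P.fE ξ (∑ k ∈ J', x k)‖
        ≤ (((P.h ξ).age + 1) * (2 * C + a) + α * J1.card) / mm j := by
      rw [e2, map_add, f0, add_zero]
      exact (P.norm_fE_le _ _).trans (ih ξ hst.ξ_lt (hst.w.symm.trans hn) J1 (s1.trans hJ)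
        fun k hk => hs k (s1 hk))
    have b3 : ‖(P.h n).b (∑ k ∈ J', x k)‖ ≤ a + α * J2.card := by
      rw [e2, map_add, b0, zero_add]
      exact hst.vB.bd _ _ ((hb J2 (s2.trans hJ)).nb _)
    have b4 := hst.norm_cm_le (∑ k ∈ J', x k)
    rw [hn] at b4
    have b5 : (mm j)⁻¹ * ‖(P.h n).b (∑ k ∈ J', x k)‖ ≤ (a + α * J2.card) / mm j := by
      rw [inv_mul_eq_div]
      exact div_le_div_of_nonneg_right b3 hm.le
    have hage : ((P.h n).age : ℝ) = (P.h ξ).age + 1 := by exact_mod_cast hst.age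
    rw [e1, map_add, co_self n (∑ k ∈ J', x k), r0, zero_add, hage]
    refine (norm_add_le _ _).trans ?_
    refine (add_le_add b1 (b4.trans (add_le_add b2 b5))).trans ?_
    rw [← mul_div_assoc, ← add_div, ← add_div]
    refine div_le_div_of_nonneg_right ?_ hm.le
    have := mul_le_mul_of_nonneg_left hcard hα
    nlinarith

theorem RIS.recurrence (h : P.RIS C N x lo hi) {a α : ℝ} (ha : 0 ≤ a) (hα : 0 ≤ α)
    (hb : ∀ J ⊆ Finset.range N, P.Bd (∑ k ∈ J, x k) (a + α * J.card))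
    {J : Finset ℕ} (hJ : J ⊆ Finset.range N) (n : ℕ) :
    ‖P.co n n (∑ k ∈ J, x k)‖ ≤
      C + ((nn (P.h n).w + 1) * (2 * C + a) + α * J.card) / mm (P.h n).w := by
  obtain ⟨J', h1, h2, h3⟩ := h.exists_erase hJ (P.h n).w
  refine (ris_co_split n _ (∑ k ∈ J', x k)).trans (add_le_add (h3 n n) ?_)
  refine (h.rec_aux ha hα hb _ n rfl J' (h1.trans hJ) h2).trans ?_
  have h4 : (J'.card : ℝ) ≤ J.card := by exact_mod_cast Finset.card_le_card h1
  have h5 := h.nonneg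
  have h6 := mm_pos (P.h n).w
  have h7 : ((P.h n).age : ℝ) ≤ nn (P.h n).w := by exact_mod_cast age_le n
  gcongr

theorem RIS.iter (h : P.RIS C N x lo hi) (j : ℕ) {C₂ α : ℝ} (hC₂ : 3 * C ≤ C₂) (hα : 0 ≤ α)
    (hb : ∀ J ⊆ Finset.range N, ∀ n, j ≤ (P.h n).w →
      ‖P.co n n (∑ k ∈ J, x k)‖ ≤ C₂ + α * J.card) (t : ℕ) :
    ∀ J ⊆ Finset.range N,
      P.Bd (∑ k ∈ J, x k) (C₂ * ((np j : ℝ) + 4) ^ t + (C / 2 ^ t + α) * J.card) := by
  have h0 := h.nonneg
  have hC : 0 ≤ C₂ := by linarith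
  have hp : (0 : ℝ) ≤ np j := Nat.cast_nonneg _
  have hE : ∀ t : ℕ, C₂ ≤ C₂ * ((np j : ℝ) + 4) ^ t := fun t =>
    le_mul_of_one_le_right hC (one_le_pow₀ (by linarith))
  induction t with
  | zero =>
    intro J hJ
    refine (bd_sum (B := fun _ => C) fun k hk => h.bd k (Finset.mem_range.1 (hJ hk))).mono ?_
    have h2 : 0 ≤ α * J.card := by positivity
    simp only [Finset.sum_const, nsmul_eq_mul, pow_zero, mul_one, div_one]
    nlinarith
  | succ t ih =>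
    intro J hJ c r
    have hJ0 : (0 : ℝ) ≤ J.card := Nat.cast_nonneg _
    have h1 := hE (t + 1)
    have h2 : 0 ≤ α * J.card := by positivity
    have h3 : 0 ≤ C / 2 ^ (t + 1) * J.card := by positivity
    by_cases hcr : c = r
    · subst hcr
      by_cases hw : j ≤ (P.h c).w
      · refine (hb J hJ c hw).trans ?_
        nlinarith
      · have hrec := h.recurrence (hC.trans (hE t)) (by positivity) ih hJ c
        refine hrec.trans ?_
        have h4 : (nn (P.h c).w : ℝ) ≤ np j := by exact_mod_cast nn_le_np (not_le.1 hw)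
        have h5 := eight_le_mm (P.h c).w
        have h6 := hE t
        have h7 : ((nn (P.h c).w + 1) * (2 * C + C₂ * ((np j : ℝ) + 4) ^ t)
            + (C / 2 ^ t + α) * J.card) / mm (P.h c).w
            ≤ (((np j : ℝ) + 1) * (2 * C + C₂ * ((np j : ℝ) + 4) ^ t)
            + (C / 2 ^ t + α) * J.card) / 8 := by
          gcongr
        have h8 : C / 2 ^ t = 2 * (C / 2 ^ (t + 1)) := by rw [pow_succ]; field_simp
        rw [h8] at h7 ⊢
        rw [pow_succ ((np j : ℝ) + 4), ← mul_assoc]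
        generalize C₂ * ((np j : ℝ) + 4) ^ t = E at *
        have h9 : (np j : ℝ) * C ≤ np j * E := by gcongr; linarith
        have h10 : 0 ≤ (np j : ℝ) * E := mul_nonneg hp (by linarith)
        nlinarith
    · rw [co_eq_raw hcr]
      refine (h.raw_le hJ c r).trans ?_
      nlinarith

theorem RIS.bd_aux (h : P.RIS C N x lo hi) (j : ℕ) : ∀ J ⊆ Finset.range N,
    P.Bd (∑ k ∈ J, x k) (3 * C * ((np j : ℝ) + 4) ^ ee j + 2 * C / mm j * J.card) := by
  intro J hJ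
  have h0 := h.nonneg
  have hm := mm_pos j
  have := h.iter j (C₂ := 3 * C) (α := C / mm j) le_rfl (by positivity) (fun J hJ n hn => by
    refine (h.direct hJ n).trans ?_
    have h1 : C * J.card / mm (P.h n).w ≤ C * J.card / mm j := by
      gcongr
      exact mm_mono hn
    rw [div_mul_eq_mul_div]
    linarith) (ee j) J hJ
  rw [← mm_def] at this
  exact this.mono (le_of_eq (by ring))

theorem ris_nn_eq (j : ℕ) : (nn j : ℝ) =
    mm j ^ 2 * (((np j : ℝ) + 4) ^ ee j) ^ 2 * ((np j : ℝ) + 4) := by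
  rw [nn_cast]; ring

theorem RIS.bd_sum {j : ℕ} (h : P.RIS C (nn j) x lo hi) :
    P.Bd (∑ k ∈ Finset.range (nn j), x k) (4 * C * nn j / mm j) := by
  refine (h.bd_aux j _ le_rfl).mono ?_
  have h0 := h.nonneg
  have hm := eight_le_mm j
  have hp : (0 : ℝ) ≤ np j := Nat.cast_nonneg _
  have hE : 1 ≤ ((np j : ℝ) + 4) ^ ee j := one_le_pow₀ (by linarith)
  rw [Finset.card_range, ris_nn_eq]
  generalize ((np j : ℝ) + 4) ^ ee j = E at *
  generalize mm j = M at *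
  have hM : M ≠ 0 := by positivity
  have e1 : 2 * C / M * (M ^ 2 * E ^ 2 * (np j + 4)) = 2 * (C * E * (M * E * (np j + 4))) := by
    field_simp
  have e2 : 4 * C * (M ^ 2 * E ^ 2 * (np j + 4)) / M = 4 * (C * E * (M * E * (np j + 4))) := by
    field_simp
  rw [e1, e2]
  have h1 : 8 * 1 * 4 ≤ M * E * (np j + 4) := by gcongr; linarith
  have h2 : 0 ≤ C * E := by positivity
  nlinarith

theorem RIS.avg {j : ℕ} (h : P.RIS C (nn j) x lo hi) :
    P.Avg j C (((mm j / nn j : ℝ) : ℂ) • ∑ k ∈ Finset.range (nn j), x k) := by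
  have h0 := h.nonneg
  have hm := eight_le_mm j
  have hm0 := mm_pos j
  have hn0 : (0 : ℝ) < nn j := by exact_mod_cast nn_pos j
  have hnorm : ‖((mm j / nn j : ℝ) : ℂ)‖ = mm j / nn j := by
    rw [Complex.norm_real, Real.norm_of_nonneg (by positivity)]
  have hq : mm j / nn j ≤ 1 / mm j := by
    rw [div_le_div_iff₀ hn0 hm0]
    have := mm_sq_le_nn j
    nlinarith
  have hq' : mm j / nn j * C ≤ C / mm j := by
    refine (mul_le_mul_of_nonneg_right hq h0).trans (le_of_eq (by ring))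
  refine ⟨?_, fun c r => ?_, fun n hn => ?_, fun n hn => ?_⟩
  · refine (h.bd_sum.smul _).mono (le_of_eq ?_)
    rw [hnorm]; field_simp
  · rw [map_smul, norm_smul, hnorm]
    refine (mul_le_mul_of_nonneg_left (h.raw_le le_rfl c r) (by positivity)).trans ?_
    rw [mul_div_assoc]
    linarith
  · rw [map_smul, norm_smul, hnorm]
    have hp : (0 : ℝ) ≤ np j := Nat.cast_nonneg _
    have hE : 1 ≤ ((np j : ℝ) + 4) ^ ee j := one_le_pow₀ (by linarith)
    have hrec := h.recurrence (by positivity) (by positivity) (h.bd_aux j) le_rfl n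
    refine (mul_le_mul_of_nonneg_left hrec (by positivity)).trans ?_
    have h4 : (nn (P.h n).w : ℝ) ≤ np j := by exact_mod_cast nn_le_np hn
    have hw0 := mm_pos (P.h n).w
    have h5 : C / mm j ≤ C / mm (P.h n).w := by
      gcongr
      exact mm_mono hn.le
    have h6 : mm j / nn j * ((nn (P.h n).w + 1) * (2 * C + 3 * C * ((np j : ℝ) + 4) ^ ee j)) ≤ C := by
      rw [div_mul_eq_mul_div, div_le_iff₀ hn0, ris_nn_eq j]
      generalize ((np j : ℝ) + 4) ^ ee j = E at *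
      have h7 : 2 * C + 3 * C * E ≤ C * (mm j * E ^ 2) := by
        have h8 : 8 * 1 * E ≤ mm j * E * E := by gcongr
        have h9 : C * 1 ≤ C * E := by gcongr
        have h10 : C * (8 * 1 * E) ≤ C * (mm j * E * E) := by gcongr
        nlinarith
      calc _ ≤ mm j * ((np j + 4) * (C * (mm j * E ^ 2))) := by gcongr; linarith
        _ = _ := by ring
    have h7 : mm j / nn j * (2 * C / mm j * (Finset.range (nn j)).card) = 2 * C := by
      rw [Finset.card_range]; field_simp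
    rw [mul_add, ← mul_div_assoc, mul_add (mm j / nn j), h7, add_div]
    have h8 := div_le_div_of_nonneg_right h6 hw0.le
    have h9 : 4 * C / mm (P.h n).w = 4 * (C / mm (P.h n).w) := mul_div_assoc _ _ _
    have h10 : 2 * C / mm (P.h n).w = 2 * (C / mm (P.h n).w) := mul_div_assoc _ _ _
    linarith
  · rw [map_smul, norm_smul, hnorm]
    refine (mul_le_mul_of_nonneg_left (h.direct le_rfl n) (by positivity)).trans ?_
    have hw0 := mm_pos (P.h n).w
    have h5 : C * nn j / mm (P.h n).w ≤ C * nn j / mm j ^ 2 := by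
      gcongr
      exact mm_sq_le hn
    have h6 : mm j / nn j * (C * nn j / mm j ^ 2) = C / mm j := by field_simp
    have h7 := mul_le_mul_of_nonneg_left h5 (by positivity : 0 ≤ mm j / nn j)
    have h8 : 0 ≤ C / mm j := by positivity
    rw [Finset.card_range, mul_add, mul_div_assoc 4]
    linarith

theorem RIS.bd_sum_sq {j : ℕ} (h : P.RIS C (nn j) x lo hi) {C₂ : ℝ} (hC₂ : 3 * C ≤ C₂)
    (hb : ∀ J ⊆ Finset.range (nn j), ∀ n, (P.h n).w = j → ‖P.co n n (∑ k ∈ J, x k)‖ ≤ C₂) :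
    P.Bd (∑ k ∈ Finset.range (nn j), x k) (2 * C₂ * nn j / mm j ^ 2) := by
  have h0 := h.nonneg
  have hm0 := mm_pos j
  have := h.iter j (α := C / mm j ^ 2) hC₂ (by positivity) (fun J hJ n hn => by
    have h2 : 0 ≤ C / mm j ^ 2 * J.card := by positivity
    rcases hn.eq_or_lt with hn | hn
    · exact (hb J hJ n hn.symm).trans (by linarith)
    · refine (h.direct hJ n).trans ?_
      have h1 : C * J.card / mm (P.h n).w ≤ C * J.card / mm j ^ 2 := by
        gcongr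
        exact mm_sq_le hn
      rw [div_mul_eq_mul_div]
      linarith) (2 * ee j) _ le_rfl
  refine this.mono ?_
  have e0 : (2 : ℝ) ^ (2 * ee j) = mm j ^ 2 := by rw [mm_def, ← pow_mul, mul_comm]
  have hp : (0 : ℝ) ≤ np j := Nat.cast_nonneg _
  have hE : 1 ≤ ((np j : ℝ) + 4) ^ (2 * ee j) := one_le_pow₀ (by linarith)
  rw [e0, Finset.card_range, nn_cast, pow_succ _ (2 * ee j)]
  generalize ((np j : ℝ) + 4) ^ (2 * ee j) = E at *
  generalize mm j = M at *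
  have e1 : (C / M ^ 2 + C / M ^ 2) * (M ^ 2 * (E * (np j + 4))) = 2 * C * (E * (np j + 4)) := by
    field_simp; ring
  have e2 : 2 * C₂ * (M ^ 2 * (E * (np j + 4))) / M ^ 2 = 2 * C₂ * (E * (np j + 4)) := by
    field_simp
  rw [e1, e2]
  have h1 : 3 * C * (E * (np j + 4)) ≤ C₂ * (E * (np j + 4)) := by gcongr
  have h2 : C₂ * (E * 4) ≤ C₂ * (E * (np j + 4)) := by gcongr <;> linarith
  have h3 : 0 ≤ C₂ * E := mul_nonneg (by linarith) (by linarith)
  nlinarith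

end Pre

end Pool.Agent.MP_1acf33_an

end

-- part MP_1acf33_an.Hilb
section

set_option linter.style.haveILetI false
set_option linter.unusedSectionVars false

namespace Pool.Agent.MP_1acf33_an

open scoped InnerProductSpace

variable {A : Type*} [CStarAlgebra A] {H : Type*} [NormedAddCommGroup H]
  [InnerProductSpace ℂ H] [CompleteSpace H]

/-- Hahn-Banach separation in a finite sup-sum of copies of `H`. -/
theorem exists_separating {ι : Type*} [Fintype ι] (S : Submodule ℂ (ι → H))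
    [FiniteDimensional ℂ S] (z : ι → H) (d : ℝ) (hd : ∀ s ∈ S, d ≤ ‖z - s‖) :
    ∃ ζ : ι → H, ∑ i, ‖ζ i‖ ≤ 1 ∧ (∀ s ∈ S, ∑ i, ⟪ζ i, s i⟫_ℂ = 0) ∧
      d ≤ (∑ i, ⟪ζ i, z i⟫_ℂ).re := by
  classical
  obtain ⟨g, hg1, hg2⟩ := exists_dual_vector'' ℂ (Submodule.Quotient.mk z : (ι → H) ⧸ S)
  have hz : d ≤ ‖(Submodule.Quotient.mk z : (ι → H) ⧸ S)‖ := by
    apply le_of_forall_pos_lt_add
    intro ε hε
    obtain ⟨m, hm, hlt⟩ :=
      Submodule.Quotient.norm_mk_lt (Submodule.Quotient.mk z : (ι → H) ⧸ S) hε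
    have h1 : z - m ∈ S := (Submodule.Quotient.eq S).1 hm.symm
    have h2 := hd _ h1
    rw [sub_sub_cancel] at h2
    exact h2.trans_lt hlt
  let f : (ι → H) →ₗ[ℂ] ℂ := (g : ((ι → H) ⧸ S) →ₗ[ℂ] ℂ) ∘ₗ S.mkQ
  have hf : ∀ y, ‖f y‖ ≤ ‖y‖ := fun y => by
    calc ‖f y‖ = ‖g (Submodule.Quotient.mk y)‖ := rfl
      _ ≤ ‖g‖ * ‖(Submodule.Quotient.mk y : (ι → H) ⧸ S)‖ := g.le_opNorm _
      _ ≤ 1 * ‖y‖ := by
          gcongr
          exact Submodule.Quotient.norm_mk_le S y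
      _ = ‖y‖ := one_mul _
  let fi : ι → (H →L[ℂ] ℂ) := fun i =>
    (f ∘ₗ LinearMap.single ℂ (fun _ : ι => H) i).mkContinuous 1 fun x => by
      refine (hf _).trans ?_
      simp [Pi.norm_single]
  let ζ : ι → H := fun i => (InnerProductSpace.toDual ℂ H).symm (fi i)
  have hζ : ∀ i x, ⟪ζ i, x⟫_ℂ = f (Pi.single i x) := fun i x => by
    simp only [ζ, InnerProductSpace.toDual_symm_apply]
    rfl
  have hsum : ∀ y : ι → H, ∑ i, ⟪ζ i, y i⟫_ℂ = f y := fun y => by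
    simp only [hζ]
    rw [← map_sum, Finset.univ_sum_single]
  refine ⟨ζ, ?_, fun s hs => ?_, ?_⟩
  · let y : ι → H := fun i => ((‖ζ i‖ : ℂ)⁻¹) • ζ i
    have hy : ‖y‖ ≤ 1 := by
      refine (pi_norm_le_iff_of_nonneg zero_le_one).2 fun i => ?_
      simp only [y, norm_smul, norm_inv, Complex.norm_real, norm_norm]
      exact inv_mul_le_one
    have h1 : ∀ i, ⟪ζ i, y i⟫_ℂ = (‖ζ i‖ : ℂ) := fun i => by
      simp only [y, inner_smul_right, inner_self_eq_norm_sq_to_K]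
      by_cases h : (‖ζ i‖ : ℂ) = 0
      · rw [h]; simp
      · have : (RCLike.ofReal ‖ζ i‖ : ℂ) = (‖ζ i‖ : ℂ) := rfl
        rw [this]
        field_simp
    have h2 := hsum y
    simp only [h1] at h2
    have h3 := (hf y).trans hy
    rw [← h2, ← Complex.ofReal_sum, Complex.norm_real] at h3
    exact (le_abs_self _).trans h3
  · rw [hsum]
    change g (Submodule.Quotient.mk s) = 0
    rw [(Submodule.Quotient.mk_eq_zero S).2 hs, map_zero]
  · rw [hsum]
    change d ≤ (g (Submodule.Quotient.mk z)).re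
    rw [hg2]
    simpa using hz

theorem ultra_cauchy {E : Type*} [NormedAddCommGroup E] [NormedSpace ℂ E] [FiniteDimensional ℂ E]
    (𝒰 : Ultrafilter ℕ) (φ : ℕ → E) (C : ℝ) (hφ : ∀ k, ‖φ k‖ ≤ C) (τ : ℝ) (hτ : 0 < τ) :
    ∃ G ∈ 𝒰, ∀ k ∈ G, ∀ k' ∈ G, ‖φ k - φ k'‖ ≤ τ := by
  haveI : ProperSpace E := FiniteDimensional.proper ℂ _
  obtain ⟨ψ, _, hψ⟩ := (isCompact_closedBall (0 : E) C).ultrafilter_le_nhds
    (𝒰.map φ) (by
      rw [Filter.le_principal_iff]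
      exact Filter.mem_map.2 (Filter.univ_mem' fun k => mem_closedBall_zero_iff.2 (hφ k)))
  refine ⟨φ ⁻¹' Metric.ball ψ (τ / 2), hψ (Metric.ball_mem_nhds ψ (half_pos hτ)),
    fun k hk k' hk' => ?_⟩
  have a1 : dist (φ k) ψ < τ / 2 := hk
  have a2 : dist (φ k') ψ < τ / 2 := hk'
  rw [← dist_eq_norm]
  linarith [dist_triangle_right (φ k) (φ k') ψ]

theorem norm_le_of_inner {y : H} {B : ℝ} (hB : 0 ≤ B) (h : ∀ w, ‖⟪w, y⟫_ℂ‖ ≤ B * ‖w‖) :
    ‖y‖ ≤ B := by
  have h1 := h y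
  rw [inner_self_eq_norm_sq_to_K, norm_pow, RCLike.norm_ofReal, abs_norm, sq] at h1
  rcases (norm_nonneg y).eq_or_lt with h0 | h0
  · rw [← h0]; exact hB
  · exact le_of_mul_le_mul_right h1 h0

namespace Amb

variable (R : Amb A H)

theorem inner_sum_W {ι : Type*} [Fintype ι] (k : ι → ℕ) (hk : Function.Injective k)
    (u v : ι → H) : ⟪∑ i, R.W (k i) (u i), ∑ i, R.W (k i) (v i)⟫_ℂ = ∑ i, ⟪u i, v i⟫_ℂ := by
  classical
  rw [sum_inner]
  refine Finset.sum_congr rfl fun i _ => ?_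
  rw [inner_sum, Finset.sum_eq_single i]
  · rw [R.W_inner, if_pos rfl]
  · intro j _ hj
    rw [R.W_inner, if_neg fun h => hj (hk h).symm]
  · intro h
    exact absurd (Finset.mem_univ i) h

theorem norm_sq_sum_W {ι : Type*} [Fintype ι] (k : ι → ℕ) (hk : Function.Injective k)
    (u : ι → H) : ‖∑ i, R.W (k i) (u i)‖ ^ 2 = ∑ i, ‖u i‖ ^ 2 := by
  have h := congrArg Complex.re (R.inner_sum_W k hk u u)
  rw [Complex.re_sum] at h
  simp only [← RCLike.re_to_complex, inner_self_eq_norm_sq] at h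
  exact h

theorem π_sum_W {ι : Type*} [Fintype ι] (k : ι → ℕ) (a : A) (u : ι → H) :
    R.π a (∑ i, R.W (k i) (u i)) = ∑ i, R.W (k i) (R.π a (u i)) := by
  rw [map_sum]
  exact Finset.sum_congr rfl fun i _ => R.W_comm _ _ _

/-- Turning an `ℓ¹`-family of vector functionals into one vector functional. -/
theorem hilbertize {ι Y : Type*} [Fintype ι] [AddCommGroup Y] [Module ℂ Y]
    (α : ι → Y →ₗ[ℂ] H) (ζ : ι → H) (hζ : ∑ i, ‖ζ i‖ ≤ 1) :
    ∃ (β : Y →ₗ[ℂ] H) (Ω' : H), R.Sep Ω' ∧ ‖Ω'‖ ≤ 2 ∧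
      (∀ y, ⟪Ω', β y⟫_ℂ = ∑ i, ⟪ζ i, α i y⟫_ℂ) ∧
      (∀ (y : Y) (B : ℝ), 0 ≤ B → (∀ i, ‖α i y‖ ≤ B) → ‖β y‖ ≤ B) ∧
      (∀ (a : A) (y y' : Y) (B : ℝ), 0 ≤ B → (∀ i, ‖α i y' - R.π a (α i y)‖ ≤ B) →
        ‖β y' - R.π a (β y)‖ ≤ B) := by
  obtain ⟨k, hk⟩ := Countable.exists_injective_nat (Option ι)
  have hk' : Function.Injective fun i => k (some i) := fun i j h => Option.some_injective _ (hk h)
  let t : ι → ℝ := fun i => √‖ζ i‖
  have ht : ∀ i, t i ^ 2 = ‖ζ i‖ := fun i => Real.sq_sqrt (norm_nonneg _)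
  have ht0 : ∀ i, 0 ≤ t i := fun i => Real.sqrt_nonneg _
  let u : Option ι → H := fun o => o.elim R.Ω fun i => ((t i : ℂ)⁻¹) • ζ i
  let β : Y →ₗ[ℂ] H := ∑ i, (R.W (k (some i)) : H →ₗ[ℂ] H) ∘ₗ ((t i : ℂ) • α i)
  have hβ : ∀ y, β y = ∑ i, R.W (k (some i)) ((t i : ℂ) • α i y) := fun y => by
    simp [β]
  have hT : ∀ (x : ι → H) (B : ℝ), 0 ≤ B → (∀ i, ‖x i‖ ≤ B) →
      ‖∑ i, R.W (k (some i)) ((t i : ℂ) • x i)‖ ≤ B := fun x B hB hx => by
    apply le_of_sq_le_sq _ hB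
    rw [R.norm_sq_sum_W _ hk']
    calc _ ≤ ∑ i, ‖ζ i‖ * B ^ 2 := by
          refine Finset.sum_le_sum fun i _ => ?_
          rw [norm_smul, Complex.norm_real, Real.norm_of_nonneg (ht0 i), mul_pow, ht]
          gcongr
          exact hx i
      _ ≤ 1 * B ^ 2 := by
          rw [← Finset.sum_mul]
          gcongr
      _ = _ := one_mul _
  refine ⟨β, ∑ o, R.W (k o) (u o), fun a => ?_, ?_, fun y => ?_, fun y B hB h => ?_,
    fun a y y' B hB h => ?_⟩
  · apply le_of_sq_le_sq _ (norm_nonneg _)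
    rw [R.π_sum_W, R.norm_sq_sum_W _ hk, Fintype.sum_option]
    exact le_add_of_nonneg_right (Finset.sum_nonneg fun i _ => sq_nonneg _)
  · apply le_of_sq_le_sq _ (by norm_num)
    rw [R.norm_sq_sum_W _ hk, Fintype.sum_option]
    have h1 : ‖u none‖ ^ 2 ≤ 1 := pow_le_one₀ (norm_nonneg _) R.Ω_norm
    have h2 : ∀ i, ‖u (some i)‖ ^ 2 = ‖ζ i‖ := fun i => by
      change ‖((t i : ℂ)⁻¹) • ζ i‖ ^ 2 = _
      rw [norm_smul, norm_inv, Complex.norm_real, Real.norm_of_nonneg (ht0 i), mul_pow, inv_pow, ht]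
      by_cases h : ‖ζ i‖ = 0
      · simp [h]
      · field_simp
    simp only [h2]
    linarith
  · let w : Option ι → H := fun o => o.elim 0 fun i => (t i : ℂ) • α i y
    have h1 : β y = ∑ o, R.W (k o) (w o) := by
      rw [hβ, Fintype.sum_option]
      simp [w]
    rw [h1, R.inner_sum_W _ hk, Fintype.sum_option]
    have h2 : ⟪u none, w none⟫_ℂ = 0 := inner_zero_right _
    rw [h2, zero_add]
    refine Finset.sum_congr rfl fun i _ => ?_
    change ⟪((t i : ℂ)⁻¹) • ζ i, (t i : ℂ) • α i y⟫_ℂ = _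
    rw [inner_smul_left, inner_smul_right, map_inv₀, Complex.conj_ofReal]
    by_cases h : t i = 0
    · have h3 : ζ i = 0 := by
        rw [← norm_eq_zero, ← ht, h]; simp
      simp [h3]
    · have h3 : (t i : ℂ) ≠ 0 := by exact_mod_cast h
      field_simp
  · rw [hβ]
    exact hT _ B hB h
  · have h1 : β y' - R.π a (β y) =
        ∑ i, R.W (k (some i)) ((t i : ℂ) • (α i y' - R.π a (α i y))) := by
      rw [hβ, hβ, R.π_sum_W (fun i => k (some i)), ← Finset.sum_sub_distrib]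
      refine Finset.sum_congr rfl fun i _ => ?_
      rw [← map_sub, map_smul, smul_sub]
    rw [h1]
    exact hT _ B hB h

/-- The orbit map `a ↦ π a x`. -/
noncomputable def orb (x : H) : A →ₗ[ℂ] H where
  toFun a := R.π a x
  map_add' a b := by simp
  map_smul' c a := by simp

theorem orb_apply (x : H) (a : A) : R.orb x a = R.π a x := rfl

theorem exists_orb_bound (M : ℕ) : ∃ c : ℝ, 0 ≤ c ∧ ∀ v ∈ R.V M, ‖v‖ ≤ c * ‖R.π v R.Ω‖ := by
  haveI := R.V_fd M
  obtain ⟨c, _, hc⟩ := (R.orb R.Ω ∘ₗ (R.V M).subtype).exists_antilipschitzWith (by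
    rw [LinearMap.ker_eq_bot']
    intro v hv
    exact Subtype.ext (R.Ω_sep _ hv))
  exact ⟨c, c.2, fun v hv => hc.le_mul_norm (map_zero _) ⟨v, hv⟩⟩

theorem norm_sq_π (v : A) (x : H) : ‖R.π v x‖ ^ 2 = (⟪x, R.π (star v * v) x⟫_ℂ).re := by
  rw [R.π_mul_apply, ← R.inner_π_star, star_star, ← RCLike.re_to_complex, inner_self_eq_norm_sq]

/-- Almost central finite-rank operators transporting one vector state to a close one. -/
theorem transport (l : ℕ) (κ : ℝ) (hκ : 0 < κ) :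
    ∃ (L : ℕ) (τ C : ℝ), 0 < τ ∧ 0 ≤ C ∧ ∀ Ω₁ Ω₂ : H, R.Sep Ω₁ → R.Sep Ω₂ →
      (∀ v ∈ R.V L, ‖⟪Ω₁, R.π v Ω₁⟫_ℂ - ⟪Ω₂, R.π v Ω₂⟫_ℂ‖ ≤ τ * ‖v‖) →
      ∃ U : H →L[ℂ] H, FiniteDimensional ℂ (LinearMap.range (U : H →ₗ[ℂ] H)) ∧ ‖U‖ ≤ 1 + κ ∧
        (∀ a ∈ R.V l, ∀ x, ‖U (R.π a x) - R.π a (U x)‖ ≤ κ * ‖a‖ * ‖x‖) ∧
        (∀ w, ⟪Ω₂, U w⟫_ℂ = ⟪Ω₁, w⟫_ℂ) ∧
        (∀ (w : H) (θ : ℝ), 0 ≤ θ → (∀ v ∈ R.V L, ‖⟪R.π v Ω₁, w⟫_ℂ‖ ≤ θ * ‖v‖) →
          ‖U w‖ ≤ C * θ) := by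
  obtain ⟨K, hK⟩ := exists_nat_gt ((4 / κ) ^ 2)
  have hK0 : 0 < K := by
    have : (0 : ℝ) < K := lt_of_le_of_lt (sq_nonneg _) hK
    exact_mod_cast this
  have hKs : 0 < √(K : ℝ) := Real.sqrt_pos.2 (by exact_mod_cast hK0)
  have hKκ : 2 * (2 / √(K : ℝ)) ≤ κ := by
    have h1 : 4 / κ ≤ √(K : ℝ) := Real.le_sqrt_of_sq_le hK.le
    rw [div_le_iff₀ hκ] at h1
    rw [← mul_div_assoc, div_le_iff₀ hKs]
    linarith
  obtain ⟨c, hc0, hc⟩ := R.exists_orb_bound (l + (K + 1))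
  set μ := min κ 1 with hμ
  have hμ0 : 0 < μ := lt_min hκ one_pos
  refine ⟨l + (K + 1) + 1, μ / (c ^ 2 + 1), c, by positivity, hc0, fun Ω₁ Ω₂ _ h₂ hτ => ?_⟩
  have hc2 : ∀ v ∈ R.V (l + (K + 1)), ‖v‖ ≤ c * ‖R.π v Ω₂‖ := fun v hv =>
    (hc v hv).trans (mul_le_mul_of_nonneg_left (h₂ v) hc0)
  have hcmp : ∀ v ∈ R.V (l + (K + 1)), ‖R.π v Ω₁‖ ≤ (1 + μ) * ‖R.π v Ω₂‖ := fun v hv => by
    have h1 := (Complex.re_le_norm _).trans (hτ _ (R.V_mul _ _ _ (R.V_star _ _ hv) hv))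
    rw [Complex.sub_re, ← R.norm_sq_π, ← R.norm_sq_π, CStarRing.norm_star_mul_self] at h1
    have h2 : ‖v‖ * ‖v‖ ≤ (c ^ 2 + 1) * ‖R.π v Ω₂‖ ^ 2 := by
      have h3 := mul_self_le_mul_self (norm_nonneg v) (hc2 v hv)
      nlinarith [sq_nonneg ‖R.π v Ω₂‖]
    have h4 : μ / (c ^ 2 + 1) * (‖v‖ * ‖v‖) ≤ μ * ‖R.π v Ω₂‖ ^ 2 := by
      calc _ ≤ μ / (c ^ 2 + 1) * ((c ^ 2 + 1) * ‖R.π v Ω₂‖ ^ 2) := by gcongr
        _ = _ := by field_simp
    apply le_of_sq_le_sq _ (by positivity)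
    have h5 : 0 ≤ (μ + μ ^ 2) * ‖R.π v Ω₂‖ ^ 2 := by positivity
    nlinarith
  obtain ⟨s, hs⟩ := (R.orb Ω₂).exists_leftInverse_of_injective (by
    rw [LinearMap.ker_eq_bot']
    intro v hv
    apply R.Ω_sep
    have h1 := h₂ v
    rw [← R.orb_apply Ω₂, hv, norm_zero] at h1
    exact norm_le_zero_iff.1 h1)
  let T : H →ₗ[ℂ] H := R.orb Ω₁ ∘ₗ s
  have hT : ∀ v, T (R.π v Ω₂) = R.π v Ω₁ := fun v => by
    have h1 : s (R.π v Ω₂) = v := LinearMap.congr_fun hs v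
    change R.π (s (R.π v Ω₂)) Ω₁ = _
    rw [h1]
  let J : ℕ → Submodule ℂ H := fun k => (R.V (l + k)).map (R.orb Ω₂)
  have hm : Monotone J := fun i j hij => Submodule.map_mono (R.V_mono (by omega))
  have hf : ∀ t, FiniteDimensional ℂ (J t) := fun t => by
    haveI := R.V_fd (l + t)
    exact Module.Finite.map _ _
  have hJπ : ∀ a ∈ R.V l, ∀ t, ∀ x ∈ J t, R.π a x ∈ J (t + 1) := by
    rintro a ha t _ ⟨v, hv, rfl⟩
    exact ⟨a * v, R.V_mul _ _ _ (R.V_mono (Nat.le_add_right l t) ha) hv, R.π_mul_apply _ _ _⟩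
  have hTJ : ∀ x ∈ J (K + 1), ‖T x‖ ≤ (1 + μ) * ‖x‖ := by
    rintro _ ⟨v, hv, rfl⟩
    rw [R.orb_apply, hT]
    exact hcmp v hv
  have hTπ : ∀ a t, ∀ x ∈ J t, T (R.π a x) = R.π a (T x) := by
    rintro a t _ ⟨v, hv, rfl⟩
    rw [R.orb_apply, ← R.π_mul_apply, hT, hT, R.π_mul_apply]
  have hg : ∀ x, avg J 0 K x ∈ J K := fun x => by simpa using avg_mem hm hf 0 K x
  have hbd : ∀ x, ‖T (avg J 0 K x)‖ ≤ (1 + κ) * ‖x‖ := fun x => by
    refine (hTJ _ (hm (Nat.le_succ K) (hg x))).trans ?_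
    have := min_le_left κ 1
    gcongr
    exact norm_avg_le _ _ _ _
  let U' : H →L[ℂ] H := (T ∘ₗ (avg J 0 K : H →ₗ[ℂ] H)).mkContinuous (1 + κ) hbd
  have hU' : ∀ x, U' x = T (avg J 0 K x) := fun x => rfl
  have hadj : ∀ x w, ⟪x, ContinuousLinearMap.adjoint U' w⟫_ℂ = ⟪T (avg J 0 K x), w⟫_ℂ :=
    fun x w => by rw [ContinuousLinearMap.adjoint_inner_right, hU']
  have hcomm : ∀ a ∈ R.V l, ∀ x,
      ‖T (avg J 0 K (R.π a x)) - R.π a (T (avg J 0 K x))‖ ≤ κ * ‖a‖ * ‖x‖ := fun a ha x => by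
    rw [← hTπ a K _ (hg x), ← map_sub]
    refine (hTJ _ ((J (K + 1)).sub_mem (hm (Nat.le_succ K) (hg _)) (hJπ a ha K _ (hg x)))).trans ?_
    have h1 := norm_comm_avg hm hf (s := 0) hK0 (R.π a) (R.π (star a)) (R.inner_π_star a)
      (fun t _ => hJπ a ha t) (fun t _ => hJπ _ (R.V_star _ _ ha) t) x
    haveI := hf (0 + K + 1)
    have h2 := norm_pj_sub_le (hm (Nat.zero_le (0 + K + 1))) x
    rw [R.norm_π] at h1
    have h3 : 1 + μ ≤ 2 := by linarith [min_le_right κ 1]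
    calc _ ≤ 2 * (2 / √(K : ℝ) * ‖a‖ * ‖x‖) := by
          gcongr
          refine h1.trans ?_
          gcongr
      _ = 2 * (2 / √(K : ℝ)) * ‖a‖ * ‖x‖ := by ring
      _ ≤ _ := by gcongr
  refine ⟨ContinuousLinearMap.adjoint U', ?_, ?_, fun a ha x => ?_, fun w => ?_,
    fun w θ hθ hw => ?_⟩
  · haveI := hf K
    refine Submodule.finiteDimensional_of_le (S₂ := J K) ?_
    rintro _ ⟨w, rfl⟩
    have h1 : ContinuousLinearMap.adjoint U' w = pj (J K) (ContinuousLinearMap.adjoint U' w) := by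
      apply ext_inner_left ℂ
      intro x
      rw [← inner_pj, hadj, hadj, avg_pj_of_ge hm hf (by omega)]
    change ContinuousLinearMap.adjoint U' w ∈ J K
    rw [h1]
    exact pj_mem _ _
  · rw [LinearIsometryEquiv.norm_map]
    exact LinearMap.mkContinuous_norm_le _ (by positivity) _
  · refine norm_le_of_inner (by positivity) fun w => ?_
    rw [inner_sub_right, ← R.inner_π_star, hadj, hadj, ← R.inner_π_star, ← inner_sub_left]
    refine (norm_inner_le_norm _ _).trans ?_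
    have h1 := hcomm _ (R.V_star _ _ ha) w
    rw [norm_sub_rev, norm_star] at h1
    calc _ ≤ κ * ‖a‖ * ‖w‖ * ‖x‖ := by gcongr
      _ = _ := by ring
  · have h1 : R.π 1 Ω₂ = Ω₂ := by simp
    have h2 : Ω₂ ∈ J (0 + 1) := ⟨1, R.V_one _, h1⟩
    have h3 := hT 1
    rw [h1, map_one, one_apply_eq_self] at h3
    rw [hadj, avg_of_mem hm hf hK0 h2, h3]
  · refine norm_le_of_inner (by positivity) fun x => ?_
    obtain ⟨v, hv, hx⟩ := hg x
    rw [R.orb_apply] at hx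
    have h1 := hc2 v (R.V_mono (by omega) hv)
    have h2 := norm_avg_le J 0 K x
    rw [hadj, ← hx, hT]
    rw [← hx] at h2
    calc _ ≤ θ * ‖v‖ := hw v (R.V_mono (by omega) hv)
      _ ≤ θ * (c * ‖x‖) := by
          gcongr
          exact h1.trans (mul_le_mul_of_nonneg_left h2 hc0)
      _ = _ := by ring

/-- A finite set of vectors of the dense sequence norms a finite-dimensional piece. -/
theorem exists_norming (l : ℕ) :
    ∃ I : Finset ℕ, (∀ i ∈ I, ‖R.D i‖ ≤ 1) ∧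
      ∀ a ∈ R.V l, a ≠ 0 → ∃ i ∈ I, ‖a‖ ≤ 2 * ‖R.π a (R.D i)‖ := by
  classical
  haveI := R.V_fd l
  haveI : ProperSpace (R.V l) := FiniteDimensional.proper ℂ _
  have hc : IsCompact (Metric.sphere (0 : R.V l) 1) := isCompact_sphere _ _
  have hcont : ∀ x : H, Continuous fun a : R.V l => ‖R.π (a : A) x‖ := fun x => by
    refine Continuous.norm ?_
    refine (LipschitzWith.of_dist_le_mul (K := ‖x‖₊) fun a b => ?_).continuous
    rw [dist_eq_norm, dist_eq_norm, ← sub_apply, ← map_sub, mul_comm]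
    exact R.norm_π_apply_le _ _
  let U : {i : ℕ // ‖R.D i‖ ≤ 1} → Set (R.V l) := fun i => {a | 1 / 2 < ‖R.π (a : A) (R.D i)‖}
  have hU : ∀ i, IsOpen (U i) := fun i => isOpen_lt continuous_const (hcont _)
  have hcov : Metric.sphere (0 : R.V l) 1 ⊆ ⋃ i, U i := by
    intro a ha
    have h1 : ‖R.π (a : A)‖ = 1 := by
      rw [R.norm_π]
      simpa using ha
    obtain ⟨x, hx1, hx2⟩ := (R.π (a : A)).exists_lt_apply_of_lt_opNorm (r := 1 / 2)
      (by rw [h1]; norm_num)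
    have ho : IsOpen {x : H | ‖x‖ < 1 ∧ 1 / 2 < ‖R.π (a : A) x‖} :=
      (isOpen_lt continuous_norm continuous_const).inter
        (isOpen_lt continuous_const (R.π (a : A)).continuous.norm)
    obtain ⟨i, hi⟩ := R.D_dense.exists_mem_open ho ⟨x, hx1, hx2⟩
    exact Set.mem_iUnion.2 ⟨⟨i, hi.1.le⟩, hi.2⟩
  obtain ⟨t, ht⟩ := hc.elim_finite_subcover U hU hcov
  refine ⟨t.image Subtype.val, fun i hi => ?_, fun a ha ha0 => ?_⟩
  · obtain ⟨j, _, rfl⟩ := Finset.mem_image.1 hi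
    exact j.2
  · have hn : 0 < ‖a‖ := norm_pos_iff.2 ha0
    let b : R.V l := ⟨((‖a‖ : ℂ)⁻¹) • a, Submodule.smul_mem _ _ ha⟩
    have hb : b ∈ Metric.sphere (0 : R.V l) 1 := by
      rw [mem_sphere_zero_iff_norm]
      change ‖((‖a‖ : ℂ)⁻¹) • a‖ = 1
      rw [norm_smul, norm_inv, Complex.norm_real, norm_norm, inv_mul_cancel₀ hn.ne']
    obtain ⟨j, hj, hbj⟩ := Set.mem_iUnion₂.1 (ht hb)
    refine ⟨j, Finset.mem_image_of_mem _ hj, ?_⟩
    have h1 : 1 / 2 < ‖R.π (((‖a‖ : ℂ)⁻¹) • a) (R.D j)‖ := hbj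
    rw [map_smul, smul_apply, norm_smul, norm_inv, Complex.norm_real,
      norm_norm, lt_inv_mul_iff₀ hn] at h1
    linarith

/-- Along an ultrafilter, vector states of a bounded sequence are uniformly Cauchy on `V L`. -/
theorem ultra_close (𝒰 : Ultrafilter ℕ) (Ωs : ℕ → H) (hΩ : ∀ k, ‖Ωs k‖ ≤ 2) (L : ℕ) (τ : ℝ)
    (hτ : 0 < τ) : ∃ G ∈ 𝒰, ∀ k ∈ G, ∀ k' ∈ G, ∀ v ∈ R.V L,
      ‖⟪Ωs k, R.π v (Ωs k)⟫_ℂ - ⟪Ωs k', R.π v (Ωs k')⟫_ℂ‖ ≤ τ * ‖v‖ := by
  haveI := R.V_fd L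
  have hb : ∀ (k : ℕ) (v : A), ‖⟪Ωs k, R.π v (Ωs k)⟫_ℂ‖ ≤ 4 * ‖v‖ := fun k v => by
    calc _ ≤ ‖Ωs k‖ * ‖R.π v (Ωs k)‖ := norm_inner_le_norm _ _
      _ ≤ ‖Ωs k‖ * (‖v‖ * ‖Ωs k‖) := by gcongr; exact R.norm_π_apply_le _ _
      _ ≤ 2 * (‖v‖ * 2) := by gcongr <;> exact hΩ k
      _ = _ := by ring
  let φ : ℕ → (R.V L →L[ℂ] ℂ) := fun k =>
    LinearMap.mkContinuous
      { toFun := fun v => ⟪Ωs k, R.π (v : A) (Ωs k)⟫_ℂ
        map_add' := fun a b => by simp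
        map_smul' := fun c a => by simp } 4 fun v => hb k v
  obtain ⟨G, hG, hG'⟩ := ultra_cauchy (E := R.V L →L[ℂ] ℂ) 𝒰 φ 4
    (fun k => LinearMap.mkContinuous_norm_le _ (by norm_num) _) τ hτ
  refine ⟨G, hG, fun k hk k' hk' v hv => ?_⟩
  have h1 : ‖φ k - φ k'‖ ≤ τ := hG' k hk k' hk'
  calc _ = ‖(φ k - φ k') ⟨v, hv⟩‖ := rfl
    _ ≤ ‖φ k - φ k'‖ * ‖(⟨v, hv⟩ : R.V L)‖ := ContinuousLinearMap.le_opNorm _ _
    _ ≤ τ * ‖v‖ := by
        change _ * ‖v‖ ≤ _
        gcongr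

end Amb

end Pool.Agent.MP_1acf33_an

end

-- part MP_1acf33_an.Tame
section

/-!
Tame sequences: they detect compactness.
-/

set_option linter.style.haveILetI false
set_option linter.unusedSectionVars false

namespace Pool.Agent.MP_1acf33_an

open scoped InnerProductSpace

variable {A : Type*} [CStarAlgebra A] {H : Type*} [NormedAddCommGroup H]
  [InnerProductSpace ℂ H] [CompleteSpace H]

open Filter Topology

namespace Pre

variable {P : Pre A H} [hG : P.Good]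

/-- Bounded sequences moving out to infinity and eventually small on each weight. -/
structure Tame (P : Pre A H) [P.Good] (C : ℝ) (x : ℕ → P.X0) : Prop where
  bd : ∀ k, ‖x k‖ ≤ C
  ev : ∀ s, ∀ᶠ k in atTop, P.Low (P.val (x k)) s ∧ P.Small s C (P.val (x k))

theorem Tame.smul {C : ℝ} {x : ℕ → P.X0} (h : P.Tame C x) (t : ℂ) :
    P.Tame (‖t‖ * C) fun k => t • x k := by
  refine ⟨fun k => ?_, fun s => ?_⟩
  · rw [norm_smul]
    exact mul_le_mul_of_nonneg_left (h.bd k) (norm_nonneg t)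
  · filter_upwards [h.ev s] with k hk
    rw [map_smul]
    exact ⟨hk.1.smul t, hk.2.smul t⟩

theorem Tame.mono {C C' : ℝ} {x : ℕ → P.X0} (h : P.Tame C x) (hC : C ≤ C') : P.Tame C' x := by
  refine ⟨fun k => (h.bd k).trans hC, fun s => ?_⟩
  filter_upwards [h.ev s] with k hk
  exact ⟨hk.1, hk.2.mono le_rfl hC⟩

theorem Tame.exists_sum_le {C : ℝ} {x : ℕ → P.X0} (h : P.Tame C x) {S : Set ℕ}
    (hS : ∃ᶠ k in atTop, k ∈ S) (j : ℕ) :
    ∃ κ : ℕ → ℕ, (∀ i, κ i ∈ S) ∧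
      ‖∑ i ∈ Finset.range (nn j), x (κ i)‖ ≤ 4 * C * nn j / mm j := by
  choose hi hhi using fun k => P.exists_upto (x k)
  choose f hf using fun s => (hS.and_eventually (h.ev s)).exists
  let s : ℕ → ℕ := fun i => Nat.rec 0 (fun _ t => max t (hi (f t))) i
  have hs : ∀ i, s (i + 1) = max (s i) (hi (f (s i))) := fun i => rfl
  have hm : Monotone s := monotone_nat_of_le_succ fun i => by rw [hs]; exact le_max_left _ _
  have hR : P.RIS C (nn j) (fun i => P.val (x (f (s i)))) s (fun i => s (i + 1)) :=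
    { nonneg := (norm_nonneg _).trans (h.bd 0)
      bd := fun k _ => norm_le_iff.mp (h.bd _)
      low := fun k _ => (hf _).2.1
      upto := fun k _ => (hhi _).mono (by rw [hs]; exact le_max_right _ _)
      blk := fun k' k hk _ => hm hk
      small := fun k' k hk _ n hn => (hf _).2.2 n (hn.le.trans (hm hk)) }
  refine ⟨fun i => f (s i), fun i => (hf _).1, norm_le_iff.mpr ?_⟩
  rw [map_sum]
  exact hR.bd_sum

theorem Tame.tendsto_compact {C : ℝ} {x : ℕ → P.X0} (h : P.Tame C x) {K : P.X →L[ℂ] P.X}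
    (hK : IsCompactOperator K) : Tendsto (fun k => K (x k)) atTop (𝓝 0) := by
  by_contra hne
  rw [Metric.tendsto_nhds] at hne
  push Not at hne
  obtain ⟨δ, hδ, hfr⟩ := hne
  have hC : 0 ≤ C := (norm_nonneg _).trans (h.bd 0)
  obtain ⟨T, hT, hKT⟩ := IsCompactOperator.image_closedBall_subset_compact
    (f := (K : P.X →ₗ[ℂ] P.X)) hK C
  obtain ⟨t, -, ht, hcov⟩ := finite_cover_balls_of_compact hT (e := δ / 4) (by positivity)
  have h1 : ∃ᶠ k in atTop, ∃ v ∈ t, δ ≤ ‖K (x k)‖ ∧ ‖K (x k) - v‖ < δ / 4 := by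
    refine hfr.mono fun k hk => ?_
    have hx : K (x k) ∈ T := hKT ⟨x k, by
      rw [mem_closedBall_zero_iff, UniformSpace.Completion.norm_coe]; exact h.bd k, rfl⟩
    obtain ⟨v, hv, hxv⟩ := Set.mem_iUnion₂.mp (hcov hx)
    exact ⟨v, hv, by simpa using hk, by rwa [Metric.mem_ball, dist_eq_norm] at hxv⟩
  obtain ⟨v, -, hv⟩ := (frequently_exists_finite ht).mp h1
  have hv1 : 3 * δ / 4 ≤ ‖v‖ := by
    obtain ⟨k, hk1, hk2⟩ := hv.exists
    have := norm_sub_norm_le (K (x k)) v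
    linarith
  obtain ⟨j, hj⟩ := exists_nat_gt (8 * ‖K‖ * C / δ)
  obtain ⟨κ, hκ, hsum⟩ := h.exists_sum_le
    (S := {k | δ ≤ ‖K (x k)‖ ∧ ‖K (x k) - v‖ < δ / 4}) hv j
  have e1 : ((∑ i ∈ Finset.range (nn j), x (κ i) : P.X0) : P.X)
      = ∑ i ∈ Finset.range (nn j), (x (κ i) : P.X) :=
    map_sum (UniformSpace.Completion.toComplL (𝕜 := ℂ) (E := P.X0)) _ _
  have h2 : ‖∑ i ∈ Finset.range (nn j), K (x (κ i))‖ ≤ ‖K‖ * (4 * C * nn j / mm j) := by
    rw [← map_sum, ← e1]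
    refine (K.le_opNorm _).trans (mul_le_mul_of_nonneg_left ?_ (norm_nonneg _))
    rwa [UniformSpace.Completion.norm_coe]
  have h3 : ‖∑ i ∈ Finset.range (nn j), (K (x (κ i)) - v)‖ ≤ nn j * (δ / 4) := by
    refine (norm_sum_le _ _).trans ?_
    have := Finset.sum_le_card_nsmul (Finset.range (nn j)) (fun i => ‖K (x (κ i)) - v‖) (δ / 4)
      fun i _ => (hκ i).2.le
    rwa [Finset.card_range, nsmul_eq_mul] at this
  have h4 : (nn j : ℝ) * ‖v‖ ≤ ‖∑ i ∈ Finset.range (nn j), K (x (κ i))‖ + nn j * (δ / 4) := by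
    have e2 : (nn j : ℝ) * ‖v‖ = ‖∑ i ∈ Finset.range (nn j), K (x (κ i))
        - ∑ i ∈ Finset.range (nn j), (K (x (κ i)) - v)‖ := by
      rw [← Finset.sum_sub_distrib]
      simp only [sub_sub_cancel, Finset.sum_const, Finset.card_range]
      rw [← Nat.cast_smul_eq_nsmul ℂ, norm_smul, Complex.norm_natCast]
    rw [e2]
    exact (norm_sub_le _ _).trans (by linarith)
  have hn : (0 : ℝ) < nn j := by exact_mod_cast nn_pos j
  have hm := mm_pos j
  have h5 : δ / 2 ≤ ‖K‖ * (4 * C) / mm j := by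
    refine le_of_mul_le_mul_left ?_ hn
    have e3 : (nn j : ℝ) * (‖K‖ * (4 * C) / mm j) = ‖K‖ * (4 * C * nn j / mm j) := by ring
    rw [e3]
    nlinarith
  rw [le_div_iff₀ hm] at h5
  rw [div_lt_iff₀ hδ] at hj
  have := le_mm j
  nlinarith

theorem exists_faithful_vec (k : ℕ) : ∃ y : P.X0, ‖y‖ ≤ 2 ∧ P.Low (P.val y) k ∧
    P.Small k 2 (P.val y) ∧ ∀ a ∈ P.R.V k, ∀ B, P.Bd (P.R.T a (P.val y)) B → ‖a‖ ≤ 2 * B := by
  obtain ⟨I, hI1, hI2⟩ := P.R.exists_norming k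
  choose g hg using fun N => hG.exists_start (k + 1) N
  let c : ℕ → ℕ := fun i => Nat.rec (g k) (fun _ t => g (t + 1)) i
  have hc : StrictMono c := strictMono_nat_of_lt_succ fun i => (hg (c i + 1)).1
  have hck : ∀ i, k ≤ c i := fun i => (hg k).1.trans (hc.monotone (Nat.zero_le i))
  have hcs : ∀ i, P.IsStart (c i) ∧ (P.h (c i)).w = k + 1 := fun i => by
    cases i with
    | zero => exact (hg k).2
    | succ i => exact (hg _).2
  classical
  let u : ℕ → H := Function.extend c (fun i => if i ∈ I then P.R.D i else 0) 0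
  have hu1 : ∀ i ∈ I, u (c i) = P.R.D i := fun i hi => by
    simp only [u, hc.injective.extend_apply, if_pos hi]
  have hu2 : ∀ n, u n = 0 ∨ ∃ i ∈ I, c i = n := fun n => by
    by_cases hn : ∃ i, c i = n
    · obtain ⟨i, rfl⟩ := hn
      by_cases hi : i ∈ I
      · exact Or.inr ⟨i, hi, rfl⟩
      · left; simp only [u, hc.injective.extend_apply, if_neg hi]
    · left; simp only [u, Function.extend_apply' _ _ _ hn, Pi.zero_apply]
  have hD : ∀ i, P.R.D i ∈ P.Hs (c i) (tau (c i) + 1) := fun i =>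
    P.F_le _ (hG.D_mem _ _ hc.le_apply)
  obtain ⟨q, hq⟩ : ∃ q, ∀ i ∈ I, c i < q :=
    ⟨I.sup c + 1, fun i hi => Nat.lt_succ_of_le (Finset.le_sup hi)⟩
  have hlow : P.Low u k := fun n => by
    rcases hu2 n with h0 | ⟨i, hi, rfl⟩
    · rw [h0, map_zero]
    · exact P.p_eq_zero (hck i) _
  have hup : P.Upto u q := fun n => by
    rcases hu2 n with h0 | ⟨i, hi, rfl⟩
    · rw [h0, map_zero]
    · rw [hu1 i hi]
      refine P.p_of_mem (P.Hs_mono _ ?_ (hD i))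
      have := tau_add_two_le (c i)
      have := tau_mono (Nat.succ_le_of_lt (hq i hi))
      simp only [Nat.succ_eq_add_one] at this
      omega
  have hun : ∀ n, ‖u n‖ ≤ 1 := fun n => by
    rcases hu2 n with h0 | ⟨i, hi, rfl⟩
    · rw [h0, norm_zero]; exact zero_le_one
    · rw [hu1 i hi]; exact hI1 i hi
  obtain ⟨y, hy1, hy2, hy3⟩ := exists_extension hlow hup
  have hbd : P.Bd y 2 := by
    have : P.NB q y 1 := ⟨zero_le_one, fun n r hn hr => by
      rw [co_apply, hy3 n (by omega)]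
      exact (P.norm_win_le (Nat.le_succ r) _).trans (hun n)⟩
    simpa using hy2.bd this
  refine ⟨P.mk0 y ⟨q, hy2⟩, norm_le_iff.mpr hbd, hy1, fun n hn => ?_, fun a ha B hB => ?_⟩
  · refine local_weight hy2 hbd (fun n' hn' hw => ?_) n rfl
    rw [co_apply, hy3 n' hn']
    rcases hu2 n' with h0 | ⟨i, hi, rfl⟩
    · rw [h0, map_zero]
    · have := (hcs i).2
      omega
  · by_cases ha0 : a = 0
    · rw [ha0, norm_zero]
      have := hB.nonneg
      linarith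
    obtain ⟨i, hi, hai⟩ := hI2 a ha ha0
    have hyi : y (c i) = P.R.D i := by
      have := hy3 (c i) (hq i hi)
      rwa [(hcs i).1.cm, LinearMap.zero_apply, add_zero, hu1 i hi] at this
    have h1 := hB (c i) (c i)
    rw [(hcs i).1.co_eq, raw_apply, ← p_eq_win_self, Amb.T_apply, val_mk0, hyi,
      P.p_of_mem (P.Hs_mono _ (tau_add_two_le (c i))
        (P.Hs_act (((hck i).trans (le_tau _)).trans (Nat.le_succ _)) ha (hD i)))] at h1
    linarith

theorem exists_faithful : ∃ u : ℕ → P.X0, P.Tame 2 u ∧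
    ∀ k, ∀ a ∈ P.R.V k, ∀ B, P.Bd (P.R.T a (P.val (u k))) B → ‖a‖ ≤ 2 * B := by
  choose u h1 h2 h3 h4 using fun k => exists_faithful_vec (P := P) k
  refine ⟨u, ⟨h1, fun s => ?_⟩, h4⟩
  filter_upwards [eventually_ge_atTop s] with k hk
  exact ⟨(h2 k).mono hk, (h3 k).mono hk le_rfl⟩

theorem exists_split (y : P.X0) {lo : ℕ} (hy : P.Low (P.val y) lo) (N : ℕ) :
    ∃ y' : P.X0, P.Low (P.val y') lo ∧ ‖y'‖ ≤ 2 * ‖y‖ ∧
      (∀ s, P.Small s (2 * ‖y‖ * mm N) (P.val y')) ∧ P.Small N (3 * ‖y‖) (P.val (y - y')) := by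
  obtain ⟨q, hq⟩ := P.exists_upto y
  have hB := bd_norm y
  let u : ℕ → H := fun c =>
    if (P.h c).w ≤ N ∧ c < q then P.val y c + (P.h c).cm (P.val y) else 0
  have hlow : P.Low u lo := fun c => by
    simp only [u]
    split_ifs with hc
    · rcases lt_or_ge c lo with h | h
      · rw [cm_eq_zero (hy.van _ h.le), add_zero]
        exact hy c
      · exact P.p_eq_zero h _
    · exact map_zero _
  have hup : P.Upto u q := fun c => by
    simp only [u]
    split_ifs with hc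
    · rw [map_add, hq c]
      congr 1
      refine P.p_of_mem (P.Hs_mono _ ?_ (P.F_le c (hG.cm_mem c _)))
      have := tau_add_two_le c
      have := tau_mono (Nat.succ_le_of_lt hc.2)
      simp only [Nat.succ_eq_add_one] at this
      omega
    · exact map_zero _
  obtain ⟨z, hz1, hz2, hz3⟩ := exists_extension hlow hup
  have e1 : ∀ c r, c < q → (P.h c).w ≤ N → P.co c r z = P.co c r (P.val y) := by
    intro c r hc hw
    rw [co_apply, co_apply, hz3 c hc]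
    simp only [u, if_pos (And.intro hw hc)]
  have e2 : ∀ c r, c < q → ¬ (P.h c).w ≤ N → P.co c r z = 0 := by
    intro c r hc hw
    rw [co_apply, hz3 c hc]
    simp only [u, if_neg (fun h : (P.h c).w ≤ N ∧ c < q => hw h.1), map_zero]
  have hbd : P.Bd z (2 * ‖y‖) := by
    refine hz2.bd ⟨norm_nonneg _, fun c r hc hr => ?_⟩
    by_cases hw : (P.h c).w ≤ N
    · rw [e1 c r (by omega) hw]; exact hB c r
    · rw [e2 c r (by omega) hw, norm_zero]; exact norm_nonneg _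
  have hy0 := norm_nonneg y
  refine ⟨P.mk0 z ⟨q, hz2⟩, hz1, norm_le_iff.mpr hbd, fun s n _ => ?_, fun n hn => ?_⟩
  · have hm := mm_pos (P.h n).w
    rw [val_mk0]
    by_cases hw : (P.h n).w ≤ N
    · refine (hbd n n).trans ?_
      rw [le_div_iff₀ hm]
      exact mul_le_mul_of_nonneg_left (mm_mono hw) (by positivity)
    · refine (local_weight hz2 hbd (fun n' hn' hw' => e2 n' n' hn' (by rwa [hw'])) n rfl).trans ?_
      refine div_le_div_of_nonneg_right ?_ hm.le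
      have := eight_le_mm N
      nlinarith
  · rw [map_sub, val_mk0]
    have hb3 : P.Bd (P.val y - z) (3 * ‖y‖) := (hB.sub hbd).mono (le_of_eq (by ring))
    refine local_weight (hq.sub hz2) hb3 (fun n' hn' hw' => ?_) n rfl
    rw [map_sub, e1 n' n' hn' (by rwa [hw']), sub_self]

theorem compact_of_tame {S : P.X →L[ℂ] P.X}
    (h : ∀ x : ℕ → P.X0, P.Tame 2 x → Tendsto (fun k => S (x k)) atTop (𝓝 0)) :
    IsCompactOperator S := by
  have key : ∀ (C : ℝ) (x : ℕ → P.X0), P.Tame C x → Tendsto (fun k => S (x k)) atTop (𝓝 0) := by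
    intro C x hx
    have hC : 0 ≤ C := (norm_nonneg _).trans (hx.bd 0)
    have hC1 : (0 : ℝ) < C + 1 := by linarith
    have ht : ((C + 1 : ℝ) : ℂ) ≠ 0 := by exact_mod_cast hC1.ne'
    have h1 := h _ ((hx.smul ((C + 1 : ℝ) : ℂ)⁻¹).mono (C' := 2) (by
      rw [norm_inv, Complex.norm_real, Real.norm_of_nonneg hC1.le, inv_mul_le_iff₀ hC1]
      linarith))
    have h2 := h1.const_smul ((C + 1 : ℝ) : ℂ)
    rw [smul_zero] at h2
    refine h2.congr fun k => ?_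
    rw [UniformSpace.Completion.coe_smul, map_smul, smul_smul, mul_inv_cancel₀ ht, one_smul]
  by_contra hS
  have hcl : IsClosed {f : P.X →L[ℂ] P.X | IsCompactOperator f} :=
    isClosed_setOfPred_isCompactOperator
  obtain ⟨ε, hε, hball⟩ := Metric.isOpen_iff.mp hcl.isOpen_compl S hS
  have hv : ∀ k, ∃ z : P.X0, ‖z‖ ≤ 3 ∧ P.Low (P.val z) k ∧ ε / 2 < ‖S z‖ := by
    intro k
    have h1 : ¬ ‖S - S ∘L P.PP k‖ ≤ ε / 2 := by
      intro h1
      refine hball (a := S ∘L P.PP k) ?_ ((P.compact_PP k).clm_comp S)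
      rw [Metric.mem_ball, dist_comm, dist_eq_norm]
      linarith
    have h2 : ∃ y : P.X0, ε / 2 * ‖y‖ < ‖(S - S ∘L P.PP k) y‖ := by
      by_contra h2
      push Not at h2
      exact h1 (P.norm_le_X (by positivity) h2)
    obtain ⟨y, hy⟩ := h2
    rw [sub_apply, ContinuousLinearMap.comp_apply, PP_coe, ← map_sub,
      ← UniformSpace.Completion.coe_sub] at hy
    have hy0 : 0 < ‖y‖ := by
      refine norm_pos_iff.mpr fun h0 => ?_
      rw [h0] at hy
      simp [UniformSpace.Completion.coe_zero] at hy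
    have hn : ‖((‖y‖⁻¹ : ℝ) : ℂ)‖ = ‖y‖⁻¹ := by
      rw [Complex.norm_real, Real.norm_of_nonneg (by positivity)]
    refine ⟨((‖y‖⁻¹ : ℝ) : ℂ) • (y - P.Pq0 k y), ?_, ?_, ?_⟩
    · rw [norm_smul, hn, inv_mul_le_iff₀ hy0]
      have := norm_sub_le y (P.Pq0 k y)
      have := P.norm_Pq0_le k y
      linarith
    · rw [map_smul, map_sub, val_Pq0]
      exact (low_sub_Pq k _).smul _
    · rw [UniformSpace.Completion.coe_smul, map_smul, norm_smul, hn, lt_inv_mul_iff₀ hy0]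
      linarith
  choose z hz1 hz2 hz3 using hv
  choose z' h1 h2 h3 h4 using fun k N => exists_split (z k) (hz2 k) N
  have hN : ∀ N, ∃ k, N ≤ k ∧ ‖S (z' k N)‖ < ε / 4 := by
    intro N
    have hm := eight_le_mm N
    have ht : P.Tame (6 * mm N) fun k => z' k N := by
      refine ⟨fun k => ?_, fun s => ?_⟩
      · have := h2 k N
        have := hz1 k
        linarith
      · filter_upwards [eventually_ge_atTop s] with k hk
        refine ⟨(h1 k N).mono hk, (h3 k N s).mono le_rfl ?_⟩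
        have := hz1 k
        nlinarith
    have := (Metric.tendsto_nhds.mp (key _ _ ht)) (ε / 4) (by positivity)
    obtain ⟨k, hk1, hk2⟩ := ((eventually_ge_atTop N).and this).exists
    exact ⟨k, hk1, by simpa using hk2⟩
  choose κ hκ1 hκ2 using hN
  have ht : P.Tame 9 fun N => z (κ N) - z' (κ N) N := by
    refine ⟨fun N => ?_, fun s => ?_⟩
    · have := norm_sub_le (z (κ N)) (z' (κ N) N)
      have := h2 (κ N) N
      have := hz1 (κ N)
      linarith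
    · filter_upwards [eventually_ge_atTop s] with N hs
      refine ⟨?_, (h4 (κ N) N).mono hs ?_⟩
      · rw [map_sub]
        exact ((hz2 _).sub (h1 _ N)).mono (hs.trans (hκ1 N))
      · have := hz1 (κ N)
        linarith
  obtain ⟨N, hN⟩ := ((Metric.tendsto_nhds.mp (key _ _ ht)) (ε / 4) (by positivity)).exists
  rw [dist_zero_right, UniformSpace.Completion.coe_sub, map_sub] at hN
  have := norm_sub_norm_le (S (z (κ N))) (S (z' (κ N) N))
  have := hz3 (κ N)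
  have := hκ2 N
  linarith

end Pre

end Pool.Agent.MP_1acf33_an

end

-- part MP_1acf33_an.Sep
section

/-!
Separating a vector from the orbit of another one by an almost equivariant map.
-/

set_option linter.style.haveILetI false
set_option linter.unusedSectionVars false

namespace Pool.Agent.MP_1acf33_an

open scoped InnerProductSpace

variable {A : Type*} [CStarAlgebra A] {H : Type*} [NormedAddCommGroup H]
  [InnerProductSpace ℂ H] [CompleteSpace H]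

namespace Pre

variable {P : Pre A H}

/-- The output of the separation argument. -/
structure SepOut (P : Pre A H) (s hi : ℕ) (C d : ℝ) (x z : ℕ → H) (β : (ℕ → H) →ₗ[ℂ] H)
    (Ω' : H) : Prop where
  sep : P.R.Sep Ω'
  norm : ‖Ω'‖ ≤ 2
  dep : P.Dep β s (hi + 2)
  bd : ∀ y B, P.NB (hi + 2) y B → ‖β y‖ ≤ 18 * B
  defect : ∀ y B, P.NB (hi + 2) y B → ∀ a ∈ P.R.V s,
    ‖β (P.R.T a y) - P.R.π a (β y)‖ ≤ 30 * eps s * ‖a‖ * B
  orth : ∀ v ∈ P.R.V s, ‖⟪P.R.π v Ω', β x⟫_ℂ‖ ≤ 60 * eps s * C * ‖v‖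
  low : d / 8 ≤ (⟪Ω', β z⟫_ℂ).re

/-- The smoothed window operator. -/
noncomputable def sepF (P : Pre A H) (c r : ℕ) : H →L[ℂ] H := P.g c (r + 2) - P.g c r

theorem sepF_apply (c r : ℕ) (x : H) : P.sepF c r x = P.g c (r + 2) x - P.g c r x := rfl

theorem sepF_win (c r : ℕ) (x : H) : P.sepF c r (P.win c r (r + 3) x) = P.sepF c r x := by
  simp only [sepF_apply, win_apply, map_sub]
  rw [P.g_p_of_lt (by omega : r + 2 < r + 3), P.g_p_of_le (by omega : r ≤ r + 2),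
    P.g_p_of_lt (by omega : r < r + 3), P.g_p_of_le le_rfl]
  abel

theorem norm_sepF_le (c r : ℕ) (x : H) : ‖P.sepF c r x‖ ≤ 2 * ‖P.win c r (r + 3) x‖ := by
  rw [← sepF_win, sepF_apply]
  have h1 := P.norm_g_le c (r + 2) (P.win c r (r + 3) x)
  have h2 := P.norm_g_le c r (P.win c r (r + 3) x)
  exact (norm_sub_le _ _).trans (by linarith)

theorem win_sepF (c r : ℕ) (x : H) :
    P.win c (r + 1) (r + 1 + 1) (P.sepF c r x) = P.win c (r + 1) (r + 1 + 1) x := by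
  simp only [sepF_apply, win_apply, map_sub]
  rw [P.p_g_of_le (by omega : r + 1 + 1 ≤ r + 2), P.p_g_of_lt (by omega : r < r + 1 + 1),
    P.p_g_of_le (by omega : r + 1 ≤ r + 2), P.p_g_of_lt (by omega : r < r + 1)]
  abel

/-- The family of test maps. -/
noncomputable def sepA (P : Pre A H) (s hi : ℕ) (cg : ℕ → (ℕ → H) →ₗ[ℂ] H) :
    (Fin (hi + 1) × Fin hi) ⊕ Fin (hi + 1) → (ℕ → H) →ₗ[ℂ] H
  | Sum.inl i => if s ≤ (i.2 : ℕ) then
      (P.sepF i.1 i.2 : H →ₗ[ℂ] H) ∘ₗ LinearMap.proj (i.1 : ℕ) else 0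
  | Sum.inr n => cg n

theorem sepA_inl {s hi : ℕ} (cg : ℕ → (ℕ → H) →ₗ[ℂ] H) (c : Fin (hi + 1)) (r : Fin hi)
    (h : s ≤ (r : ℕ)) (y : ℕ → H) : P.sepA s hi cg (Sum.inl (c, r)) y = P.sepF c r (y c) := by
  simp only [sepA, if_pos h]
  rfl

theorem sepA_inl' {s hi : ℕ} (cg : ℕ → (ℕ → H) →ₗ[ℂ] H) (c : Fin (hi + 1)) (r : Fin hi)
    (h : ¬ s ≤ (r : ℕ)) (y : ℕ → H) : P.sepA s hi cg (Sum.inl (c, r)) y = 0 := by
  simp only [sepA, if_neg h]
  rfl

theorem sepA_inr {s hi : ℕ} (cg : ℕ → (ℕ → H) →ₗ[ℂ] H) (n : Fin (hi + 1)) (y : ℕ → H) :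
    P.sepA s hi cg (Sum.inr n) y = cg n y := rfl

theorem sepA_dep {s hi : ℕ} {cg : ℕ → (ℕ → H) →ₗ[ℂ] H} (hcg : P.IsCg s cg) {y : ℕ → H}
    (hy : P.Van y s (hi + 2)) (i) : P.sepA s hi cg i y = 0 := by
  rcases i with ⟨c, r⟩ | n
  · by_cases h : s ≤ (r : ℕ)
    · have hr := r.2
      rw [sepA_inl cg c r h, ← sepF_win,
        (hy.mono h (by omega : (r : ℕ) + 3 ≤ hi + 2)).win_eq_zero (by omega), map_zero]
    · exact sepA_inl' cg c r h y
  · have hn := n.2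
    exact hcg.dep n y (hy.mono le_rfl (by omega))

theorem sep_exists_clm (K : Submodule ℂ H) [FiniteDimensional ℂ K] (L : H →ₗ[ℂ] H)
    (pr : H →L[ℂ] H) (hp : ∀ x, pr x ∈ K) : ∃ B : H →L[ℂ] H,
      FiniteDimensional ℂ (LinearMap.range (B : H →ₗ[ℂ] H)) ∧ ∀ x, B x = L (pr x) := by
  let e : K →L[ℂ] H := LinearMap.toContinuousLinearMap (L ∘ₗ K.subtype)
  refine ⟨e ∘L pr.codRestrict K hp, ?_, fun x => rfl⟩
  refine Submodule.finiteDimensional_of_le (S₂ := LinearMap.range (L ∘ₗ K.subtype)) ?_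
  rintro _ ⟨x, rfl⟩
  exact ⟨⟨pr x, hp x⟩, rfl⟩

theorem sep_win_win {c lo hi r : ℕ} (h1 : lo ≤ r) (h2 : r < hi) (x : H) :
    P.win c r (r + 1) (P.win c lo hi x) = P.win c r (r + 1) x := by
  simp only [win_apply, map_sub]
  rw [P.p_p_of_le (by omega : r + 1 ≤ hi), P.p_p_of_ge (by omega : lo ≤ r + 1),
    P.p_p_of_le (by omega : r ≤ hi), P.p_p_of_ge h1]
  abel

theorem sep_dep_eq {ξ q : ℕ} (hq : ξ ≤ q) {b : (ℕ → H) →ₗ[ℂ] H} (hb : P.Dep b (ξ + 1) (q + 1))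
    (y : ℕ → H) : b y = ∑ c ∈ Finset.range (q + 1),
      b (Pi.single c (P.p c (q + 1) (P.win c (ξ + 1) (q + 1) (y c)))) := by
  rw [← map_sum, ← sub_eq_zero, ← map_sub]
  refine hb _ fun c r h1 h2 h3 => ?_
  rw [raw_apply, Pi.sub_apply, Finset.sum_apply, Finset.sum_eq_single c, Pi.single_eq_same,
    map_sub, win_apply P c (ξ + 1), map_sub, P.p_p_of_ge le_rfl, P.p_p_of_ge (by omega),
    ← win_apply, sep_win_win h2 h3, sub_self]
  · intro c' _ hc'
    exact Pi.single_eq_of_ne' hc' _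
  · intro hc
    exact absurd (Finset.mem_range.2 (by omega)) hc

variable [hG : P.Good]

theorem sepA_bd {s hi : ℕ} {cg : ℕ → (ℕ → H) →ₗ[ℂ] H} (hcg : P.IsCg s cg) {y : ℕ → H} {B : ℝ}
    (hy : P.NB (hi + 2) y B) (i) : ‖P.sepA s hi cg i y‖ ≤ 18 * B := by
  have hB := hy.1
  rcases i with ⟨c, r⟩ | n
  · by_cases h : s ≤ (r : ℕ)
    · have hr := r.2
      rw [sepA_inl cg c r h]
      have h1 := hy.win_le c (by omega : (r : ℕ) ≤ r + 3) (by omega)
      rw [show (r : ℕ) + 3 - r = 3 by omega] at h1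
      have h2 := norm_sepF_le (P := P) c r (y c)
      push_cast at h1
      linarith
    · rw [sepA_inl' cg c r h, norm_zero]
      positivity
  · have hn := n.2
    have := hcg.bd n y B (hy.mono (by omega) le_rfl)
    rw [sepA_inr]
    linarith

theorem sepA_defect {s hi : ℕ} {cg : ℕ → (ℕ → H) →ₗ[ℂ] H} (hcg : P.IsCg s cg) {y : ℕ → H}
    {B : ℝ} (hy : P.NB (hi + 2) y B) {a : A} (ha : a ∈ P.R.V s) (i) :
    ‖P.sepA s hi cg i (P.R.T a y) - P.R.π a (P.sepA s hi cg i y)‖ ≤ 30 * eps s * ‖a‖ * B := by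
  have hB := hy.1
  have he := eps_pos s
  rcases i with ⟨c, r⟩ | n
  · by_cases h : s ≤ (r : ℕ)
    · have hr := r.2
      have key : ∀ n, s ≤ n → n < hi + 2 →
          ‖P.g c n (P.R.π a (y c)) - P.R.π a (P.g c n (y c))‖ ≤ eps s * ‖a‖ * (3 * B) := by
        intro n h1 h2
        refine (P.norm_comm_g h1 ha _).trans ?_
        have h3 : ‖P.win c n (n + 1) (y c)‖ ≤ 3 * B := hy.raw_le c h2
        have h4 := eps_anti h1
        have h5 := (eps_pos n).le
        gcongr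
      have h1 := key (r + 2) (by omega) (by omega)
      have h2 := key r h (by omega)
      rw [sepA_inl cg c r h, sepA_inl cg c r h, Amb.T_apply, sepF_apply, sepF_apply, map_sub,
        sub_sub_sub_comm]
      have h3 : 0 ≤ eps s * ‖a‖ * B := by positivity
      exact (norm_sub_le _ _).trans (by linarith)
    · rw [sepA_inl' cg c r h, sepA_inl' cg c r h, map_zero, sub_zero, norm_zero]
      positivity
  · have hn := n.2
    exact hcg.defect n y B (hy.mono (by omega) le_rfl) a ha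

theorem sepA_low {s hi : ℕ} {cg : ℕ → (ℕ → H) →ₗ[ℂ] H} (hcg : P.IsCg s cg) {y : ℕ → H} {M : ℝ}
    (hM : 0 ≤ M) (h1 : P.Low y (s + 1)) (h2 : P.Upto y (hi + 1))
    (h : ∀ i, ‖P.sepA s hi cg i y‖ ≤ M) : P.Bd y (8 * M) := by
  refine hcg.bd_of_raw hM (h1.mono (Nat.le_succ s)) h2 (fun c r => ?_) fun n hn =>
    h (Sum.inr ⟨n, hn⟩)
  by_cases a1 : r < s + 1
  · rw [h1.raw_eq_zero c a1, norm_zero]; exact hM
  by_cases a2 : hi + 1 ≤ r
  · rw [h2.raw_eq_zero c a2, norm_zero]; exact hM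
  by_cases a3 : r < c
  · rw [P.raw_eq_zero_of_lt a3, norm_zero]; exact hM
  obtain ⟨r, rfl⟩ : ∃ r', r = r' + 1 := ⟨r - 1, by omega⟩
  have h3 := h (Sum.inl (⟨c, by omega⟩, ⟨r, by omega⟩))
  rw [sepA_inl cg _ _ (by change s ≤ r; omega)] at h3
  rw [raw_apply, ← win_sepF]
  exact (P.norm_win_le (Nat.le_succ _) _).trans h3

theorem exists_sepOut {s hi : ℕ} (hs : s ≤ hi) {C d : ℝ} {x z : ℕ → H}
    (hx1 : P.Low x (s + 2)) (hx2 : P.Upto x hi) (hz1 : P.Low z (s + 2)) (hz2 : P.Upto z hi)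
    (hx : P.Bd x C) (hd : ∀ v ∈ P.R.V s, ¬ P.Bd (z - P.R.T v x) d) :
    ∃ β Ω', P.SepOut s hi C d x z β Ω' := by
  obtain ⟨cg, hcg⟩ := exists_cg (P := P) s
  let α := P.sepA s hi cg
  let Φ : P.R.V s →ₗ[ℂ] (_ → H) :=
    { toFun := fun v i => α i (P.R.T v x)
      map_add' := fun v w => by
        ext i
        simp [Amb.T_add]
      map_smul' := fun k v => by
        ext i
        simp [Amb.T_smul] }
  haveI := P.R.V_fd s
  obtain ⟨ζ, hζ1, hζ2, hζ3⟩ := exists_separating (LinearMap.range Φ) (fun i => α i z) (d / 8) (by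
    rintro _ ⟨v, rfl⟩
    by_contra hlt
    refine hd v v.2 (Bd.mono (sepA_low hcg (norm_nonneg ((fun i => α i z) - Φ v))
      ((hz1.mono (by omega)).sub (hx1.T (Nat.le_succ s) v.2))
      ((hz2.mono (Nat.le_succ hi)).sub (hx2.T hs v.2)) fun i => ?_) (by linarith [not_le.1 hlt]))
    rw [map_sub]
    exact norm_le_pi_norm ((fun i => α i z) - Φ v) i)
  obtain ⟨β, Ω', h1, h2, h3, h4, h5⟩ := P.R.hilbertize α ζ hζ1
  have hdef : ∀ y B, P.NB (hi + 2) y B → ∀ a ∈ P.R.V s,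
      ‖β (P.R.T a y) - P.R.π a (β y)‖ ≤ 30 * eps s * ‖a‖ * B := fun y B hy a ha =>
    h5 a y _ _ (by have := hy.1; have := eps_pos s; positivity) (sepA_defect hcg hy ha)
  refine ⟨β, Ω', h1, h2, fun y hy => ?_, fun y B hy => ?_, hdef, fun v hv => ?_, ?_⟩
  · exact norm_le_zero_iff.1 (h4 y 0 le_rfl fun i => by rw [sepA_dep hcg hy i, norm_zero])
  · exact h4 y _ (by have := hy.1; positivity) (sepA_bd hcg hy)
  · have hv' := P.R.V_star s v hv
    have e1 : ⟪Ω', β (P.R.T (star v) x)⟫_ℂ = 0 := by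
      rw [h3]
      exact hζ2 _ ⟨⟨star v, hv'⟩, rfl⟩
    have e2 : ⟪P.R.π v Ω', β x⟫_ℂ =
        -⟪Ω', β (P.R.T (star v) x) - P.R.π (star v) (β x)⟫_ℂ := by
      rw [inner_sub_right, e1, zero_sub, neg_neg, ← P.R.inner_π_star, star_star]
    have e3 := hdef x C (hx.nb _) _ hv'
    rw [norm_star] at e3
    rw [e2, norm_neg]
    refine (norm_inner_le_norm _ _).trans ?_
    refine (mul_le_mul h2 e3 (norm_nonneg _) (by norm_num)).trans (le_of_eq (by ring))
  · rw [h3]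
    exact hζ3

theorem exists_gen_approx {ξ q : ℕ} (hq : ξ ≤ q) {b : (ℕ → H) →ₗ[ℂ] H}
    (hb : P.Dep b (ξ + 1) (q + 1)) {δ : ℝ} (hδ : 0 < δ) :
    ∃ bl, P.Dep (P.gen ξ q bl) (ξ + 1) (q + 1) ∧ ∀ y B, P.NB (q + 2) y B →
      ‖P.gen ξ q bl y - b y‖ ≤ δ * B ∧
      ∀ a ∈ P.R.V ξ, ‖P.gen ξ q bl (P.R.T a y) - b (P.R.T a y)‖ ≤ δ * ‖a‖ * B := by
  have hδ' : 0 < δ / (3 * ((q : ℝ) + 2) ^ 2) := by positivity
  have hB : ∀ c : ℕ, ∃ i, ∀ w, ‖P.R.O i w - b (Pi.single c (P.p c (q + 1) w))‖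
      ≤ δ / (3 * ((q : ℝ) + 2) ^ 2) * ‖w‖ := by
    intro c
    obtain ⟨B, h1, h2⟩ := sep_exists_clm (P.Hs c (tau (q + 1)))
      (b ∘ₗ LinearMap.single ℂ (fun _ : ℕ => H) c) (P.p c (q + 1)) (P.p_mem c (q + 1))
    obtain ⟨i, hi⟩ := P.R.O_dense B h1 _ hδ'
    refine ⟨i, fun w => ?_⟩
    have h3 : b (Pi.single c (P.p c (q + 1) w)) = B w := (h2 w).symm
    rw [h3, norm_sub_rev]
    exact ((B - P.R.O i).le_opNorm w).trans (mul_le_mul_of_nonneg_right hi.le (norm_nonneg _))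
  choose i hi using hB
  have key : ∀ (y : ℕ → H) (W : ℝ), 0 ≤ W →
      (∀ c, ‖P.win c (ξ + 1) (q + 1) (y c)‖ ≤ ((q : ℝ) + 2) * (3 * W)) →
      ‖P.gen ξ q ((List.range (q + 1)).map i) y - b y‖ ≤ δ * W := by
    intro y W hW h
    rw [gen_apply, sep_dep_eq hq hb y, ← Finset.sum_sub_distrib]
    refine (norm_sum_le _ _).trans ?_
    refine (Finset.sum_le_card_nsmul _ _
      (δ / (3 * ((q : ℝ) + 2) ^ 2) * (((q : ℝ) + 2) * (3 * W))) fun c hc => ?_).trans ?_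
    · have e : ((List.range (q + 1)).map i).getD c 0 = i c := by
        simp [List.getD_eq_getElem?_getD, Finset.mem_range.1 hc]
      rw [e]
      exact (hi c _).trans (mul_le_mul_of_nonneg_left (h c) hδ'.le)
    · rw [Finset.card_range, nsmul_eq_mul]
      calc _ ≤ ((q : ℝ) + 2) * (δ / (3 * ((q : ℝ) + 2) ^ 2) * (((q : ℝ) + 2) * (3 * W))) := by
            refine mul_le_mul_of_nonneg_right ?_ (by positivity)
            push_cast
            linarith
        _ = δ * W := by field_simp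
  refine ⟨(List.range (q + 1)).map i, fun y hy => ?_, fun y B hy => ⟨?_, fun a ha => ?_⟩⟩
  · rw [gen_apply]
    exact Finset.sum_eq_zero fun c _ => by rw [hy.win_eq_zero (by omega), map_zero]
  · refine key y B hy.1 fun c => (hy.win_le c (by omega) (by omega)).trans ?_
    refine mul_le_mul_of_nonneg_right ?_ (by have := hy.1; positivity)
    exact_mod_cast (by omega : q + 1 - (ξ + 1) ≤ q + 2)
  · rw [mul_assoc]
    refine key _ _ (by have := hy.1; positivity) fun c => ?_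
    rw [Amb.T_apply]
    refine (P.norm_win_act le_rfl (by omega) ha _).trans ?_
    have h1 := hy.win_le c (by omega : ξ ≤ q + 1 + 1) le_rfl
    have h2 : ((q + 1 + 1 - ξ : ℕ) : ℝ) ≤ (q : ℝ) + 2 := by
      exact_mod_cast (by omega : q + 1 + 1 - ξ ≤ q + 2)
    have h3 := hy.1
    calc _ ≤ ‖a‖ * (((q : ℝ) + 2) * (3 * B)) :=
          mul_le_mul_of_nonneg_left (h1.trans (by gcongr)) (norm_nonneg _)
      _ = _ := by ring

theorem offer_even (n : ℕ) (hn : Even (P.h n).w) {C d M μ : ℝ} (hC : 0 ≤ C) (hd : 0 < d)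
    (hM : 0 ≤ M) (hμ : 0 < μ) :
    ∃ s₀, ∀ s, s₀ ≤ s → ∀ hi x z β Ω', s ≤ hi → P.SepOut s hi C d x z β Ω' → P.Bd x C → P.Bd z M →
      ∃ bl, P.ValidB n (hi + 1) 0 (P.cand n (hi + 1) 0 bl) ∧
        d / 3200 ≤ (⟪Ω', P.cand n (hi + 1) 0 bl z⟫_ℂ).re ∧ ‖P.cand n (hi + 1) 0 bl x‖ ≤ μ := by
  have hl : (P.h n).l ≤ n := l_le n
  set l := (P.h n).l with hldef
  have hel := eps_pos l
  have hel1 := eps_le_one l
  obtain ⟨L, τ, C0, hτ, hC0, hT⟩ := P.R.transport l (eps l) hel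
  obtain ⟨s₁, hs₁⟩ := exists_eps_lt (δ := μ / (C0 * C + 1)) (by positivity)
  refine ⟨max (max L (n + 1)) s₁, fun s hs hi x z β Ω' hhi hS hx hz => ?_⟩
  have hsL : L ≤ s := (le_max_left _ _).trans ((le_max_left _ _).trans hs)
  have hsn : n + 1 ≤ s := (le_max_right _ _).trans ((le_max_left _ _).trans hs)
  have hes := eps_pos s
  have hesl : eps s ≤ eps l := eps_anti (by omega)
  have hes1 : eps s * (C0 * C + 1) ≤ μ := by
    rw [← le_div_iff₀ (by positivity)]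
    exact (eps_anti ((le_max_right _ _).trans hs)).trans hs₁.le
  obtain ⟨Q, -, hQ1, hQ2, hQ3, hQ4⟩ := hT Ω' Ω' hS.sep hS.sep fun v _ => by
    rw [sub_self, norm_zero]
    positivity
  have hQ : ∀ w, ‖Q w‖ ≤ 2 * ‖w‖ := fun w =>
    (Q.le_opNorm w).trans (mul_le_mul_of_nonneg_right (by linarith) (norm_nonneg _))
  let b0 : (ℕ → H) →ₗ[ℂ] H := (200 : ℂ)⁻¹ • ((Q : H →ₗ[ℂ] H) ∘ₗ β)
  have hb0 : ∀ y, b0 y = (200 : ℂ)⁻¹ • Q (β y) := fun _ => rfl
  have hnorm : ∀ w : H, ‖(200 : ℂ)⁻¹ • w‖ = ‖w‖ / 200 := fun w => by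
    rw [norm_smul, norm_inv, div_eq_inv_mul]
    norm_num
  have hdep : P.Dep b0 (n + 1) (hi + 1 + 1) := fun y hy => by
    rw [hb0, hS.dep y (hy.mono hsn le_rfl), map_zero, smul_zero]
  have hδ : 0 < min (eps l / 4) (min (d / (6400 * (M + 1))) (μ / (2 * (C + 1)))) := by
    positivity
  obtain ⟨bl, g1, g2⟩ := exists_gen_approx (by omega : n ≤ hi + 1) hdep hδ
  set δ := min (eps l / 4) (min (d / (6400 * (M + 1))) (μ / (2 * (C + 1)))) with hδdef
  have d1 : δ ≤ eps l / 4 := min_le_left _ _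
  have d2 : δ * (6400 * (M + 1)) ≤ d := by
    rw [← le_div_iff₀ (by positivity)]
    exact (min_le_right _ _).trans (min_le_left _ _)
  have d3 : δ * (2 * (C + 1)) ≤ μ := by
    rw [← le_div_iff₀ (by positivity)]
    exact (min_le_right _ _).trans (min_le_right _ _)
  have hc : P.cand n (hi + 1) 0 bl = P.gen n (hi + 1) bl :=
    if_neg (Nat.not_odd_iff_even.2 hn)
  refine ⟨bl, ?_⟩
  rw [hc]
  set G := P.gen n (hi + 1) bl
  refine ⟨⟨by omega, g1, fun y B hy => ?_, fun y B hy a ha => ?_,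
    fun ho => absurd ho (Nat.not_odd_iff_even.2 hn)⟩, ?_, ?_⟩
  · have h0 := hy.1
    have h1 := (g2 y B hy).1
    have h2 := hS.bd y B (hy.mono (by omega) le_rfl)
    have h3 := hQ (β y)
    have h4 := hnorm (Q (β y))
    have h5 : δ * B ≤ 1 / 4 * B := mul_le_mul_of_nonneg_right (by linarith) h0
    have h6 := norm_le_norm_add_norm_sub' (G y) (b0 y)
    rw [← hb0] at h4
    linarith
  · have h0 := hy.1
    have hy' : P.NB (hi + 2) y B := hy.mono (by omega) le_rfl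
    have h1 := (g2 y B hy).1
    have h2 := (g2 y B hy).2 a (P.R.V_mono hl ha)
    have h3 := hS.defect y B hy' a (P.R.V_mono (by omega : l ≤ s) ha)
    have h4 := hQ2 a ha (β y)
    have h5 := hS.bd y B hy'
    have h6 := hQ (β (P.R.T a y) - P.R.π a (β y))
    have h7 := P.R.norm_π_apply_le a (G y - b0 y)
    have e : G (P.R.T a y) - P.R.π a (G y) = (G (P.R.T a y) - b0 (P.R.T a y))
        + (200 : ℂ)⁻¹ • (Q (β (P.R.T a y) - P.R.π a (β y))
          + (Q (P.R.π a (β y)) - P.R.π a (Q (β y)))) - P.R.π a (G y - b0 y) := by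
      simp only [hb0, map_sub, map_smul, smul_add, smul_sub]
      abel
    have hab : 0 ≤ ‖a‖ * B := by positivity
    have i1 : δ * (‖a‖ * B) ≤ eps l / 4 * (‖a‖ * B) := mul_le_mul_of_nonneg_right d1 hab
    have i2 : eps s * (‖a‖ * B) ≤ eps l * (‖a‖ * B) := mul_le_mul_of_nonneg_right hesl hab
    have i3 : eps l * ‖a‖ * ‖β y‖ ≤ eps l * ‖a‖ * (18 * B) :=
      mul_le_mul_of_nonneg_left h5 (by positivity)
    have i4 : ‖a‖ * ‖G y - b0 y‖ ≤ ‖a‖ * (δ * B) := mul_le_mul_of_nonneg_left h1 (norm_nonneg _)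
    have i5 := norm_add_le (Q (β (P.R.T a y) - P.R.π a (β y)))
      (Q (P.R.π a (β y)) - P.R.π a (Q (β y)))
    have i6 : 0 ≤ eps l * (‖a‖ * B) := by positivity
    rw [e]
    refine (norm_sub_le _ _).trans ((add_le_add_left (norm_add_le _ _) _).trans ?_)
    rw [hnorm]
    linarith
  · have h1 := (g2 z M (hz.nb _)).1
    have h2 : (⟪Ω', b0 z⟫_ℂ).re = (⟪Ω', β z⟫_ℂ).re / 200 := by
      rw [hb0, inner_smul_right, hQ3, show (200 : ℂ)⁻¹ = ((200⁻¹ : ℝ) : ℂ) by push_cast; rfl,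
        Complex.re_ofReal_mul]
      ring
    have h3 : ‖⟪Ω', G z - b0 z⟫_ℂ‖ ≤ 2 * (δ * M) :=
      (norm_inner_le_norm _ _).trans (mul_le_mul hS.norm h1 (norm_nonneg _) (by norm_num))
    have h4 := (abs_le.1 ((Complex.abs_re_le_norm _).trans h3)).1
    rw [inner_sub_right, Complex.sub_re, h2] at h4
    have h5 := hS.low
    have h6 := hδ.le
    linarith
  · have h1 := (g2 x C (hx.nb _)).1
    have h2 := hQ4 (β x) (60 * eps s * C) (by positivity) fun v hv =>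
      hS.orth v (P.R.V_mono hsL hv)
    have h4 := hnorm (Q (β x))
    have h6 := norm_le_norm_add_norm_sub' (G x) (b0 x)
    rw [← hb0] at h4
    have h7 := hδ.le
    linarith

end Pre

end Pool.Agent.MP_1acf33_an

end

-- part MP_1acf33_an.Chain
section

/-!
Chains of nodes, evaluation along chains and the estimate for dependent sequences.
-/

set_option linter.style.haveILetI false
set_option linter.unusedSectionVars false

namespace Pool.Agent.MP_1acf33_an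

open scoped InnerProductSpace

variable {A : Type*} [CStarAlgebra A] {H : Type*} [NormedAddCommGroup H]
  [InnerProductSpace ℂ H] [CompleteSpace H]

namespace Pre

variable {P : Pre A H}

/-- `ξ 0, …, ξ N` is a chain of nodes. -/
structure Chain (P : Pre A H) (N : ℕ) (ξ : ℕ → ℕ) : Prop where
  start : P.IsStart (ξ 0)
  step : ∀ i, i < N → P.IsStep (ξ (i + 1))
  pred : ∀ i, i < N → (P.h (ξ (i + 1))).ξ = ξ i

/-- The vectors `v i` live in the gaps of the chain. -/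
structure Blocks (P : Pre A H) (N : ℕ) (ξ : ℕ → ℕ) (v : ℕ → ℕ → H) : Prop where
  low : ∀ i, i < N → P.Low (v i) (ξ i + 1)
  upto : ∀ i, i < N → P.Upto (v i) ((P.h (ξ (i + 1))).q + 1)

variable {N : ℕ} {ξ : ℕ → ℕ} {v : ℕ → ℕ → H}

theorem Chain.lt (h : P.Chain N ξ) {i k : ℕ} (hik : i < k) (hk : k ≤ N) : ξ i < ξ k := by
  induction k, hik using Nat.le_induction with
  | base =>
    have h1 := (h.step i (by omega)).ξ_lt
    rwa [h.pred i (by omega)] at h1
  | succ k hik ih =>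
    have h1 := (h.step k (by omega)).ξ_lt
    rw [h.pred k (by omega)] at h1
    exact (ih (by omega)).trans h1

theorem Chain.le (h : P.Chain N ξ) {i k : ℕ} (hik : i ≤ k) (hk : k ≤ N) : ξ i ≤ ξ k := by
  rcases hik.eq_or_lt with rfl | hlt
  · exact le_rfl
  · exact (h.lt hlt hk).le

theorem Chain.w_eq (h : P.Chain N ξ) {i : ℕ} (hi : i ≤ N) : (P.h (ξ i)).w = (P.h (ξ 0)).w := by
  induction i with
  | zero => rfl
  | succ i ih =>
    have h1 := (h.step i (by omega)).w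
    rw [h.pred i (by omega)] at h1
    rw [h1, ih (by omega)]

theorem Chain.st_eq (h : P.Chain N ξ) {i : ℕ} (hi : i ≤ N) : (P.h (ξ i)).st = ξ 0 := by
  induction i with
  | zero => exact h.start.st
  | succ i ih =>
    have h1 := (h.step i (by omega)).st
    rw [h.pred i (by omega)] at h1
    rw [h1, ih (by omega)]

theorem Blocks.upto' (h : P.Chain N ξ) (hv : P.Blocks N ξ v) {i : ℕ} (hi : i < N) :
    P.Upto (v i) (ξ (i + 1)) := by
  have h1 := (h.step i hi).q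
  exact (hv.upto i hi).mono (by omega)

theorem Blocks.low_sum (h : P.Chain N ξ) (hv : P.Blocks N ξ v) :
    P.Low (∑ k ∈ Finset.range N, v k) (ξ 0 + 1) := by
  refine Pre.low_sum fun k hk => ?_
  have hk' := Finset.mem_range.mp hk
  have h1 := h.le (Nat.zero_le k) hk'.le
  exact (hv.low k hk').mono (by omega)

theorem Blocks.upto_sum (h : P.Chain N ξ) (hv : P.Blocks N ξ v) :
    P.Upto (∑ k ∈ Finset.range N, v k) (ξ N) := by
  refine Pre.upto_sum fun k hk => ?_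
  have hk' := Finset.mem_range.mp hk
  exact (Blocks.upto' h hv hk').mono (h.le (Nat.succ_le_of_lt hk') le_rfl)

theorem Chain.inj (h : P.Chain N ξ) {i k : ℕ} (hi : i ≤ N) (hk : k ≤ N) (e : ξ i = ξ k) :
    i = k := by
  rcases lt_trichotomy i k with hlt | heq | hlt
  · have := h.lt hlt hk; omega
  · exact heq
  · have := h.lt hlt hi; omega

theorem Blocks.raw_eq_zero (h : P.Chain N ξ) (hv : P.Blocks N ξ v) {i k : ℕ} (hi : i ≤ N)
    (hk : k < N) (c : ℕ) : P.raw c (ξ i) (v k) = 0 := by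
  rcases Nat.lt_or_ge k i with hlt | hge
  · exact (Blocks.upto' h hv hk).raw_eq_zero c (h.le (Nat.succ_le_of_lt hlt) hi)
  · have := h.le hge hk.le
    exact (hv.low k hk).raw_eq_zero c (by omega)

theorem Blocks.raw_sum_eq_zero (h : P.Chain N ξ) (hv : P.Blocks N ξ v) {i : ℕ} (hi : i ≤ N)
    (c : ℕ) : P.raw c (ξ i) (∑ k ∈ Finset.range N, v k) = 0 := by
  rw [map_sum]
  exact Finset.sum_eq_zero fun k hk => Blocks.raw_eq_zero h hv hi (Finset.mem_range.mp hk) c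

theorem chain_norm_sum_le {J : Finset ℕ} {f : ℕ → H} {M : ℝ} (hM : 0 ≤ M)
    (h : ∀ k ∈ J, ‖f k‖ ≤ M) (h1 : ∀ k ∈ J, ∀ k' ∈ J, f k ≠ 0 → f k' ≠ 0 → k = k') :
    ‖∑ k ∈ J, f k‖ ≤ M := by
  by_cases h0 : ∀ k ∈ J, f k = 0
  · rw [Finset.sum_eq_zero h0, norm_zero]; exact hM
  · push Not at h0
    obtain ⟨k, hk, hk0⟩ := h0
    rw [Finset.sum_eq_single_of_mem k hk]
    · exact h k hk
    · intro k' hk' hne
      by_contra hz
      exact hne (h1 k' hk' k hk hz hk0)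

variable [hG : P.Good]

theorem Chain.fE_zero (h : P.Chain N ξ) (hv : P.Blocks N ξ v) :
    P.fE (ξ 0) (∑ k ∈ Finset.range N, v k) = 0 := by
  rw [fE_eq_add, Blocks.raw_sum_eq_zero h hv (Nat.zero_le N), map_zero, h.start.cm]
  simp

theorem Chain.fE_succ (h : P.Chain N ξ) (hv : P.Blocks N ξ v) {i : ℕ} (hi : i < N) :
    P.fE (ξ (i + 1)) (∑ k ∈ Finset.range N, v k) =
      (P.h (ξ (i + 1))).U (P.fE (ξ i) (∑ k ∈ Finset.range N, v k)) +
        ((mm (P.h (ξ 0)).w : ℂ)⁻¹) • (P.h (ξ (i + 1))).b (v i) := by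
  have hs := h.step i hi
  have hb : (P.h (ξ (i + 1))).b (∑ k ∈ Finset.range N, v k) = (P.h (ξ (i + 1))).b (v i) := by
    rw [map_sum]
    refine Finset.sum_eq_single_of_mem i (Finset.mem_range.mpr hi) fun k hk hne => ?_
    have hk' := Finset.mem_range.mp hk
    refine hs.vB.dep _ ?_
    rw [h.pred i hi]
    rcases lt_or_gt_of_ne hne with hlt | hlt
    · have := h.le (Nat.succ_le_of_lt hlt) hi.le
      exact (Blocks.upto' h hv hk').van (this.trans (Nat.le_succ _)) _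
    · have h1 := h.le (Nat.succ_le_of_lt hlt) hk'.le
      have h2 := hs.q
      exact (hv.low k hk').van _ (by simp only [Nat.succ_eq_add_one] at h1; omega)
  rw [fE_eq_add, Blocks.raw_sum_eq_zero h hv (Nat.succ_le_of_lt hi), map_zero, zero_add, hs.cm,
    h.pred i hi, h.w_eq (Nat.succ_le_of_lt hi), hb]

theorem Chain.norm_fE_le (h : P.Chain N ξ) (hv : P.Blocks N ξ v) {μ : ℝ}
    (hμ : ∀ i, i < N → ‖(P.h (ξ (i + 1))).b (v i)‖ ≤ μ) {i : ℕ} (hi : i ≤ N) :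
    ‖P.fE (ξ i) (∑ k ∈ Finset.range N, v k)‖ ≤ i * μ / mm (P.h (ξ 0)).w := by
  induction i with
  | zero => rw [h.fE_zero hv]; simp
  | succ i ih =>
    have hi' : i < N := hi
    rw [h.fE_succ hv hi']
    refine (norm_add_le _ _).trans ?_
    rw [norm_smul, norm_inv_mm]
    have h1 := (h.step i hi').norm_U_le (P.fE (ξ i) (∑ k ∈ Finset.range N, v k))
    have h2 := ih hi'.le
    have h3 := mul_le_mul_of_nonneg_left (hμ i hi') (inv_pos.mpr (mm_pos (P.h (ξ 0)).w)).le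
    have h4 : ((i + 1 : ℕ) : ℝ) * μ / mm (P.h (ξ 0)).w =
        i * μ / mm (P.h (ξ 0)).w + (mm (P.h (ξ 0)).w)⁻¹ * μ := by
      push_cast; ring
    rw [h4]
    linarith

/-- Blocks that are small on earlier weights form a rapidly increasing sequence. -/
theorem Chain.ris (h : P.Chain N ξ) (hv : P.Blocks N ξ v) {C : ℝ} (hC : 0 ≤ C)
    (hb : ∀ i, i < N → P.Bd (v i) C) (hs : ∀ i, i < N → P.Small (ξ i) C (v i)) :
    P.RIS C N v (fun i => ξ i + 1) (fun i => ξ (i + 1)) := by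
  refine ⟨hC, hb, hv.low, fun k hk => Blocks.upto' h hv hk, fun k' k h1 h2 => ?_,
    fun k' k h1 h2 n hn => ?_⟩
  · have := h.le (Nat.succ_le_of_lt h1) h2.le
    exact this.trans (Nat.le_succ _)
  · have := h.le (Nat.succ_le_of_lt h1) h2.le
    exact hs k h2 n (hn.le.trans this)

theorem Chain.dependent {j : ℕ} (h : P.Chain (nn j) ξ) (hv : P.Blocks (nn j) ξ v)
    (hw : (P.h (ξ 0)).w = j) (hodd : Odd j) {C : ℝ} (hC : 0 ≤ C)
    (ha : ∀ i, i < nn j → P.Avg (2 * ξ i + 2) C (v i))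
    (hμ : ∀ i, i < nn j → ‖P.fE (P.h (ξ (i + 1))).η (v i)‖ ≤ 4 * C / (nn j : ℝ) ^ 2)
    {J : Finset ℕ} (hJ : J ⊆ Finset.range (nn j)) (n : ℕ) (hn : (P.h n).w = j) :
    ‖P.co n n (∑ k ∈ J, v k)‖ ≤ 3 * C := by
  have hN := nn_ge j
  have hm := eight_le_mm j
  have hN0 : (0 : ℝ) < nn j := by linarith
  have hm0 : 0 < mm j := mm_pos j
  have hJ' : ∀ k ∈ J, k < nn j := fun k hk => Finset.mem_range.mp (hJ hk)
  have hcard : (J.card : ℝ) ≤ nn j := by
    have := Finset.card_le_card hJ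
    rw [Finset.card_range] at this
    exact_mod_cast this
  have hjξ : ∀ i, i ≤ nn j → j ≤ ξ i := fun i hi => by
    have h1 := w_le (P := P) (ξ i)
    rwa [h.w_eq hi, hw] at h1
  have hdiv : ∀ (D : ℝ) (t : ℕ), 0 ≤ D → j < t → D / mm t ≤ D / (nn j : ℝ) ^ 2 :=
    fun D t hD ht => div_le_div_of_nonneg_left hD (by positivity) (nn_sq_le ht)
  have hraw : ∀ n, ‖P.raw n n (∑ k ∈ J, v k)‖ ≤ 3 * C / (nn j : ℝ) ^ 2 := by
    intro n
    rw [map_sum]
    have key : ∀ k ∈ J, P.raw n n (v k) ≠ 0 → ξ k < n ∧ n < ξ (k + 1) := by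
      intro k hk h0
      constructor
      · by_contra hc
        exact h0 ((hv.low k (hJ' k hk)).raw_eq_zero n (by omega))
      · by_contra hc
        exact h0 ((Blocks.upto' h hv (hJ' k hk)).raw_eq_zero n (by omega))
    refine chain_norm_sum_le (by positivity) (fun k hk => ?_) (fun k hk k' hk' h1 h2 => ?_)
    · have h1 := hjξ k (hJ' k hk).le
      exact ((ha k (hJ' k hk)).raw n n).trans (hdiv _ _ (by positivity) (by omega))
    · obtain ⟨a1, a2⟩ := key k hk h1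
      obtain ⟨b1, b2⟩ := key k' hk' h2
      rcases lt_trichotomy k k' with hlt | heq | hlt
      · have := h.le (Nat.succ_le_of_lt hlt) (hJ' k' hk').le
        simp only [Nat.succ_eq_add_one] at this
        omega
      · exact heq
      · have := h.le (Nat.succ_le_of_lt hlt) (hJ' k hk).le
        simp only [Nat.succ_eq_add_one] at this
        omega
  have hfE : ∀ (x η k : ℕ), j ≤ x → (P.h η).w = 2 * x + 2 → k < nn j → x ≠ ξ k →
      ‖P.fE η (v k)‖ ≤ 4 * C / (nn j : ℝ) ^ 2 := by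
    intro x η k hx hη hk hne
    refine (P.norm_fE_le η _).trans ?_
    have h1 := hjξ k hk.le
    rcases lt_or_gt_of_ne hne with hlt | hlt
    · exact ((ha k hk).lt η (by omega)).trans (hdiv _ _ (by positivity) (by omega))
    · exact ((ha k hk).gt η (by omega)).trans (hdiv _ _ (by positivity) (by omega))
  have hsumb : ∀ f : ℕ → H, (∀ k ∈ J, ‖f k‖ ≤ 4 * C / (nn j : ℝ) ^ 2) →
      ‖∑ k ∈ J, f k‖ ≤ 4 * C / nn j := by
    intro f hf
    refine (norm_sum_le _ _).trans ((Finset.sum_le_card_nsmul _ _ _ hf).trans ?_)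
    rw [nsmul_eq_mul]
    have h1 := mul_le_mul_of_nonneg_right hcard (show 0 ≤ 4 * C / (nn j : ℝ) ^ 2 by positivity)
    have h2 : (nn j : ℝ) * (4 * C / (nn j : ℝ) ^ 2) = 4 * C / nn j := by field_simp
    linarith
  have hCN : 0 ≤ C / nn j := by positivity
  have hc1 : 3 * C / (nn j : ℝ) ^ 2 ≤ C / nn j / 2 := by
    have h1 : 3 * C / (nn j : ℝ) ^ 2 = C / nn j * (3 / nn j) := by field_simp
    have h2 : 3 / (nn j : ℝ) ≤ 1 / 2 := by
      rw [div_le_iff₀ hN0]; linarith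
    rw [h1]
    nlinarith
  have hmi : (mm j)⁻¹ ≤ 1 / 8 := by
    rw [inv_eq_one_div]
    exact div_le_div_of_nonneg_left (by norm_num) (by norm_num) hm
  have hmi0 : 0 ≤ (mm j)⁻¹ := by positivity
  have hc2 : (mm j)⁻¹ * (4 * C / nn j) ≤ C / nn j / 2 := by
    have h1 : 4 * C / (nn j : ℝ) = 4 * (C / nn j) := by ring
    rw [h1]
    nlinarith
  have hc3 : (mm j)⁻¹ * (4 * C / nn j + 4 * C) ≤ C / nn j / 2 + C := by
    rw [mul_add]
    nlinarith
  have main : ∀ n, (P.h n).w = j →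
      ((∃ i, i ≤ nn j ∧ n = ξ i) →
        ‖P.co n n (∑ k ∈ J, v k)‖ ≤ ((P.h n).age + 1) * (C / nn j)) ∧
      ‖P.co n n (∑ k ∈ J, v k)‖ ≤ ((P.h n).age + 1) * (C / nn j) + C := by
    intro n
    induction n using Nat.strong_induction_on with
    | _ n ih =>
    intro hn
    rcases hG.cases n with hs | hs
    · have h1 : ‖P.co n n (∑ k ∈ J, v k)‖ ≤ ((P.h n).age + 1) * (C / nn j) := by
        rw [hs.co_eq, hs.age]
        have := hraw n
        simp only [Nat.cast_zero, zero_add, one_mul]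
        linarith
      exact ⟨fun _ => h1, by linarith⟩
    · have hwx : (P.h (P.h n).ξ).w = j := by rw [← hs.w, hn]
      have hx : j ≤ (P.h n).ξ := by
        have h1 := w_le (P := P) (P.h n).ξ
        rwa [hwx] at h1
      obtain ⟨-, hη, hb⟩ := hs.vB.odd (by rw [hwx]; exact hodd)
      obtain ⟨ih1, ih2⟩ := ih _ hs.ξ_lt hwx
      have hage : ((P.h n).age : ℝ) = (P.h (P.h n).ξ).age + 1 := by
        rw [hs.age]; push_cast; ring
      have hstep : ‖P.co n n (∑ k ∈ J, v k)‖ ≤ 3 * C / (nn j : ℝ) ^ 2 +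
          ‖P.co (P.h n).ξ (P.h n).ξ (∑ k ∈ J, v k)‖ +
          (mm j)⁻¹ * ‖∑ k ∈ J, P.fE (P.h n).η (v k)‖ := by
        rw [co_self]
        refine (norm_add_le _ _).trans ?_
        have h1 := hs.norm_cm_le (∑ k ∈ J, v k)
        rw [hn, hb, map_sum (P.fE (P.h n).η)] at h1
        have h2 := P.norm_fE_le (P.h n).ξ (∑ k ∈ J, v k)
        have h3 := hraw n
        linarith
      have hA : (∃ i, i ≤ nn j ∧ n = ξ i) →
          ‖P.co n n (∑ k ∈ J, v k)‖ ≤ ((P.h n).age + 1) * (C / nn j) := by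
        rintro ⟨i, hi, hni⟩
        obtain ⟨i, rfl⟩ : ∃ i', i = i' + 1 := by
          refine ⟨i - 1, ?_⟩
          have : i ≠ 0 := by
            rintro rfl
            exact hs.not_start (hni ▸ h.start)
          omega
        have hp : (P.h n).ξ = ξ i := by rw [hni]; exact h.pred i hi
        have h1 := ih1 ⟨i, by omega, hp⟩
        have h2 := hsumb (fun k => P.fE (P.h n).η (v k)) (fun k hk => by
          by_cases he : (P.h n).ξ = ξ k
          · have h3 : i = k := h.inj (by omega) (hJ' k hk).le (hp.symm.trans he)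
            have h4 := hμ k (hJ' k hk)
            rwa [← h3, ← hni, h3] at h4
          · exact hfE _ _ k hx hη (hJ' k hk) he)
        have h3 := mul_le_mul_of_nonneg_left h2 hmi0
        rw [hage]
        linarith
      refine ⟨hA, ?_⟩
      by_cases hon : ∃ i, i ≤ nn j ∧ (P.h n).ξ = ξ i
      · have h1 := ih1 hon
        have h2 := hsumb (fun k => if (P.h n).ξ = ξ k then 0 else P.fE (P.h n).η (v k))
          (fun k hk => by
            by_cases he : (P.h n).ξ = ξ k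
            · simp only [if_pos he, norm_zero]; positivity
            · simp only [if_neg he]; exact hfE _ _ k hx hη (hJ' k hk) he)
        have h3 : ‖∑ k ∈ J, (if (P.h n).ξ = ξ k then P.fE (P.h n).η (v k) else 0)‖ ≤ 4 * C := by
          refine chain_norm_sum_le (by positivity) (fun k hk => ?_) (fun k hk k' hk' h4 h5 => ?_)
          · by_cases he : (P.h n).ξ = ξ k
            · simp only [if_pos he]
              exact (P.norm_fE_le _ _).trans ((ha k (hJ' k hk)).bd _ _)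
            · simp only [if_neg he, norm_zero]; positivity
          · have e1 : (P.h n).ξ = ξ k := by
              by_contra he; exact h4 (if_neg he)
            have e2 : (P.h n).ξ = ξ k' := by
              by_contra he; exact h5 (if_neg he)
            exact h.inj (hJ' k hk).le (hJ' k' hk').le (e1.symm.trans e2)
        have h4 : ∑ k ∈ J, P.fE (P.h n).η (v k) =
            ∑ k ∈ J, (if (P.h n).ξ = ξ k then 0 else P.fE (P.h n).η (v k)) +
            ∑ k ∈ J, (if (P.h n).ξ = ξ k then P.fE (P.h n).η (v k) else 0) := by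
          rw [← Finset.sum_add_distrib]
          refine Finset.sum_congr rfl fun k _ => ?_
          split_ifs <;> simp
        have h5 : ‖∑ k ∈ J, P.fE (P.h n).η (v k)‖ ≤ 4 * C / nn j + 4 * C := by
          rw [h4]
          exact (norm_add_le _ _).trans (add_le_add h2 h3)
        have h6 := mul_le_mul_of_nonneg_left h5 hmi0
        rw [hage]
        linarith
      · have h2 := hsumb (fun k => P.fE (P.h n).η (v k)) (fun k hk =>
          hfE _ _ k hx hη (hJ' k hk) fun he => hon ⟨k, (hJ' k hk).le, he⟩)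
        have h3 := mul_le_mul_of_nonneg_left h2 hmi0
        rw [hage]
        linarith
  have h1 := (main n hn).2
  have h2 : ((P.h n).age : ℝ) ≤ nn j := by
    have := age_le (P := P) n
    rw [hn] at this
    exact_mod_cast this
  have h3 : (nn j : ℝ) * (C / nn j) = C := by field_simp
  have h4 := mul_le_mul_of_nonneg_right h2 hCN
  have h5 : C / nn j ≤ C := div_le_self hC (by linarith)
  linarith

theorem Chain.bd_dependent {j : ℕ} (h : P.Chain (nn j) ξ) (hv : P.Blocks (nn j) ξ v)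
    (hw : (P.h (ξ 0)).w = j) (hodd : Odd j) {C : ℝ} (hC : 0 ≤ C)
    (ha : ∀ i, i < nn j → P.Avg (2 * ξ i + 2) C (v i))
    (hμ : ∀ i, i < nn j → ‖P.fE (P.h (ξ (i + 1))).η (v i)‖ ≤ 4 * C / (nn j : ℝ) ^ 2) :
    P.Bd (∑ k ∈ Finset.range (nn j), v k) (24 * C * nn j / mm j ^ 2) := by
  have hr := h.ris hv (C := 4 * C) (by positivity) (fun i hi => (ha i hi).bd)
    (fun i hi n hn => (ha i hi).lt n (by omega))
  have h1 := hr.bd_sum_sq (C₂ := 12 * C) (by linarith) (fun J hJ n hn =>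
    (h.dependent hv hw hodd hC ha hμ hJ n hn).trans (by linarith))
  refine h1.mono (le_of_eq ?_)
  ring

end Pre

end Pool.Agent.MP_1acf33_an

end

-- part MP_1acf33_an.Build
section

/-!
Building chains along which vector functionals add up.
-/

set_option linter.style.haveILetI false
set_option linter.unusedSectionVars false

namespace Pool.Agent.MP_1acf33_an

open scoped InnerProductSpace

variable {A : Type*} [CStarAlgebra A] {H : Type*} [NormedAddCommGroup H]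
  [InnerProductSpace ℂ H] [CompleteSpace H]

namespace Amb

variable (R : Amb A H)

theorem transportO (l : ℕ) {δ κ : ℝ} (hδ : 0 < δ) (hκ : 0 < κ) :
    ∃ (L : ℕ) (τ : ℝ), 0 < τ ∧ ∀ Ω₁ Ω₂ : H, R.Sep Ω₁ → R.Sep Ω₂ → ‖Ω₁‖ ≤ 2 → ‖Ω₂‖ ≤ 2 →
      (∀ v ∈ R.V L, ‖⟪Ω₁, R.π v Ω₁⟫_ℂ - ⟪Ω₂, R.π v Ω₂⟫_ℂ‖ ≤ τ * ‖v‖) →
      ∃ u, ‖R.O u‖ ≤ 1 ∧
        (∀ a ∈ R.V l, ∀ x, ‖R.O u (R.π a x) - R.π a (R.O u x)‖ ≤ δ * ‖a‖ * ‖x‖) ∧
        ∀ w, ‖⟪Ω₂, R.O u w⟫_ℂ - ⟪Ω₁, w⟫_ℂ‖ ≤ κ * ‖w‖ := by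
  obtain ⟨k, hk0, hk1, hk2, hk3⟩ : ∃ k : ℝ, 0 < k ∧ k ≤ κ / 6 ∧ k ≤ δ / 3 ∧ k ≤ 1 / 2 :=
    ⟨min (κ / 6) (min (δ / 3) (1 / 2)), by positivity, min_le_left _ _,
      (min_le_right _ _).trans (min_le_left _ _), (min_le_right _ _).trans (min_le_right _ _)⟩
  obtain ⟨L, τ, C, hτ, -, h⟩ := R.transport l k hk0
  refine ⟨L, τ, hτ, fun Ω₁ Ω₂ s1 s2 n1 n2 hc => ?_⟩
  obtain ⟨U, hfd, hU, hcomm, hinner, -⟩ := h Ω₁ Ω₂ s1 s2 hc
  set c : ℂ := ((1 - 2 * k : ℝ) : ℂ) with hc_def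
  have hcn : ‖c‖ = 1 - 2 * k := by
    rw [hc_def, Complex.norm_real, Real.norm_eq_abs, abs_of_nonneg (by linarith)]
  have hfd1 : FiniteDimensional ℂ (LinearMap.range ((c • U : H →L[ℂ] H) : H →ₗ[ℂ] H)) := by
    refine Submodule.finiteDimensional_of_le (S₂ := LinearMap.range (U : H →ₗ[ℂ] H)) ?_
    rintro _ ⟨x, rfl⟩
    exact ⟨c • x, by simp⟩
  obtain ⟨u, hu⟩ := R.O_dense (c • U) hfd1 k hk0
  have hE : ∀ x, ‖c • U x - R.O u x‖ ≤ k * ‖x‖ := fun x =>
    ((c • U - R.O u).le_opNorm x).trans (mul_le_mul_of_nonneg_right hu.le (norm_nonneg x))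
  refine ⟨u, ?_, fun a ha x => ?_, fun w => ?_⟩
  · have h1 : ‖c • U‖ ≤ (1 - 2 * k) * (1 + k) := by
      rw [norm_smul, hcn]
      exact mul_le_mul_of_nonneg_left hU (by linarith)
    have h2 : ‖R.O u‖ ≤ ‖c • U‖ + ‖c • U - R.O u‖ := by
      have := norm_sub_le (c • U) (c • U - R.O u)
      rwa [sub_sub_cancel] at this
    nlinarith
  · have e : R.O u (R.π a x) - R.π a (R.O u x) = c • (U (R.π a x) - R.π a (U x))
        - (c • U (R.π a x) - R.O u (R.π a x)) + R.π a (c • U x - R.O u x) := by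
      simp only [smul_sub, map_sub, map_smul]
      abel
    have hax : 0 ≤ ‖a‖ * ‖x‖ := by positivity
    have h1 : ‖c • (U (R.π a x) - R.π a (U x))‖ ≤ k * (‖a‖ * ‖x‖) := by
      rw [norm_smul, hcn]
      have := hcomm a ha x
      have h0 := norm_nonneg (U (R.π a x) - R.π a (U x))
      nlinarith
    have h2 : ‖c • U (R.π a x) - R.O u (R.π a x)‖ ≤ k * (‖a‖ * ‖x‖) :=
      (hE _).trans (mul_le_mul_of_nonneg_left (R.norm_π_apply_le a x) hk0.le)
    have h3 : ‖R.π a (c • U x - R.O u x)‖ ≤ k * (‖a‖ * ‖x‖) := by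
      refine (R.norm_π_apply_le a _).trans ?_
      have := mul_le_mul_of_nonneg_left (hE x) (norm_nonneg a)
      linarith
    rw [e]
    refine (norm_add_le _ _).trans ?_
    have h4 := norm_sub_le (c • (U (R.π a x) - R.π a (U x))) (c • U (R.π a x) - R.O u (R.π a x))
    nlinarith
  · have e : ⟪Ω₂, R.O u w⟫_ℂ - ⟪Ω₁, w⟫_ℂ =
        -⟪Ω₂, c • U w - R.O u w⟫_ℂ - ((2 * k : ℝ) : ℂ) * ⟪Ω₁, w⟫_ℂ := by
      rw [inner_sub_right, inner_smul_right, hinner, hc_def]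
      push_cast
      ring
    have hw := norm_nonneg w
    have h1 : ‖⟪Ω₂, c • U w - R.O u w⟫_ℂ‖ ≤ 2 * (k * ‖w‖) :=
      (norm_inner_le_norm _ _).trans (mul_le_mul n2 (hE w) (norm_nonneg _) (by norm_num))
    have h2 : ‖((2 * k : ℝ) : ℂ) * ⟪Ω₁, w⟫_ℂ‖ ≤ 2 * k * (2 * ‖w‖) := by
      rw [norm_mul, Complex.norm_real, Real.norm_eq_abs, abs_of_nonneg (by linarith)]
      exact mul_le_mul_of_nonneg_left
        ((norm_inner_le_norm _ _).trans (mul_le_mul_of_nonneg_right n1 hw)) (by linarith)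
    rw [e]
    refine (norm_sub_le _ _).trans ?_
    rw [norm_neg]
    nlinarith

theorem exists_transport_sets (𝒰 : Ultrafilter ℕ) (Ωs : ℕ → H) (hs : ∀ s, R.Sep (Ωs s))
    (hn : ∀ s, ‖Ωs s‖ ≤ 2) {κ : ℝ} (hκ : 0 < κ) :
    ∃ G : ℕ → Set ℕ, ∀ l, G l ∈ 𝒰 ∧ ∀ s ∈ G l, ∀ s' ∈ G l, ∃ u, ‖R.O u‖ ≤ 1 ∧
      (∀ a ∈ R.V l, ∀ x, ‖R.O u (R.π a x) - R.π a (R.O u x)‖ ≤ eps l * ‖a‖ * ‖x‖) ∧
      ∀ w, ‖⟪Ωs s', R.O u w⟫_ℂ - ⟪Ωs s, w⟫_ℂ‖ ≤ κ * ‖w‖ := by
  have key : ∀ l, ∃ G : Set ℕ, G ∈ 𝒰 ∧ ∀ s ∈ G, ∀ s' ∈ G, ∃ u, ‖R.O u‖ ≤ 1 ∧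
      (∀ a ∈ R.V l, ∀ x, ‖R.O u (R.π a x) - R.π a (R.O u x)‖ ≤ eps l * ‖a‖ * ‖x‖) ∧
      ∀ w, ‖⟪Ωs s', R.O u w⟫_ℂ - ⟪Ωs s, w⟫_ℂ‖ ≤ κ * ‖w‖ := by
    intro l
    obtain ⟨L, τ, hτ, h⟩ := R.transportO l (eps_pos l) hκ
    obtain ⟨G, hG, hc⟩ := R.ultra_close 𝒰 Ωs hn L τ hτ
    exact ⟨G, hG, fun s h1 s' h2 => h _ _ (hs s) (hs s') (hn s) (hn s') (hc s h1 s' h2)⟩
  choose G hG using key
  exact ⟨G, hG⟩

end Amb

/-- Dependent choice. -/
theorem exists_seq_of_step {α : Type*} (Inv : ℕ → α → Prop) (Rel : α → α → Prop) (N : ℕ) (a₀ : α)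
    (h0 : Inv 0 a₀) (hs : ∀ i a, i < N → Inv i a → ∃ b, Inv (i + 1) b ∧ Rel a b) :
    ∃ f : ℕ → α, f 0 = a₀ ∧ (∀ i, i ≤ N → Inv i (f i)) ∧ ∀ i, i < N → Rel (f i) (f (i + 1)) := by
  induction N with
  | zero => exact ⟨fun _ => a₀, rfl, fun i hi => by rwa [Nat.le_zero.mp hi], fun i hi => by omega⟩
  | succ N ih =>
    obtain ⟨f, f0, f1, f2⟩ := ih fun i a hi => hs i a (Nat.lt_succ_of_lt hi)
    obtain ⟨b, b1, b2⟩ := hs N (f N) (Nat.lt_succ_self N) (f1 N le_rfl)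
    refine ⟨fun i => if i ≤ N then f i else b, by simp [f0], fun i hi => ?_, fun i hi => ?_⟩
    · by_cases h : i ≤ N
      · simp only [if_pos h]
        exact f1 i h
      · simp only [if_neg h]
        rwa [show i = N + 1 by omega]
    · by_cases h : i < N
      · simp only [if_pos h.le, if_pos (Nat.succ_le_of_lt h)]
        exact f2 i h
      · obtain rfl : i = N := by omega
        simp only [le_refl, if_true, if_neg (Nat.not_succ_le_self i)]
        exact b2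

namespace Pre

variable {P : Pre A H} [hG : P.Good]

theorem build (𝒰 : Ultrafilter ℕ) (Ωs : ℕ → H) (hs : ∀ s, P.R.Sep (Ωs s)) (hn : ∀ s, ‖Ωs s‖ ≤ 2)
    (j : ℕ) {θ M : ℝ} (hθ : 0 < θ) (hM : 0 ≤ M)
    (Φ : ℕ → ℕ → ((ℕ → H) →ₗ[ℂ] H) → (ℕ → H) → (ℕ → H) → Prop)
    (offer : ∀ n, (P.h n).w = j → ∀ G ∈ 𝒰, ∃ s ∈ G, ∃ q η bl x z,
      P.ValidB n q η (P.cand n q η bl) ∧ P.Low x (n + 1) ∧ P.Upto x (q + 1) ∧
      P.Low z (n + 1) ∧ P.Upto z (q + 1) ∧ P.Bd z M ∧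
      θ ≤ (⟪Ωs s, P.cand n q η bl z⟫_ℂ).re ∧ Φ n η (P.cand n q η bl) x z)
    (N₀ : ℕ) (G₀ : Set ℕ) (hG₀ : G₀ ∈ 𝒰) :
    ∃ (ξ : ℕ → ℕ) (x z : ℕ → ℕ → H) (s : ℕ), s ∈ G₀ ∧ N₀ ≤ ξ 0 ∧ (P.h (ξ 0)).w = j ∧
      P.Chain (nn j) ξ ∧ P.Blocks (nn j) ξ x ∧ P.Blocks (nn j) ξ z ∧
      (∀ i, i < nn j → Φ (ξ i) (P.h (ξ (i + 1))).η (P.h (ξ (i + 1))).b (x i) (z i)) ∧
      nn j * θ / (2 * mm j) ≤ (⟪Ωs s, P.fE (ξ (nn j)) (∑ k ∈ Finset.range (nn j), z k)⟫_ℂ).re := by
  have hden : (0 : ℝ) < nn j * M + 1 := by positivity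
  obtain ⟨κ, hκ0, hκ⟩ : ∃ κ : ℝ, 0 < κ ∧ κ * (nn j * M) ≤ θ / 2 := by
    refine ⟨θ / (2 * (nn j * M + 1)), by positivity, ?_⟩
    rw [div_mul_eq_mul_div, div_le_div_iff₀ (by positivity) (by norm_num)]
    nlinarith
  obtain ⟨G, hGs⟩ := P.R.exists_transport_sets 𝒰 Ωs hs hn hκ0
  obtain ⟨n₀, hn₀, hst, hw₀⟩ := hG.exists_start j N₀
  obtain ⟨s₀, hs₀⟩ := 𝒰.nonempty_of_mem (Filter.inter_mem (hGs (P.h n₀).l).1 hG₀)
  obtain ⟨f, f0, f1, f2⟩ := exists_seq_of_step (α := ℕ × ℕ × (ℕ → H) × (ℕ → H))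
    (fun i a => (P.h a.1).w = j ∧ (P.h a.1).age = i ∧ a.2.1 ∈ G (P.h a.1).l ∧ a.2.1 ∈ G₀)
    (fun a b => P.IsStep b.1 ∧ (P.h b.1).ξ = a.1 ∧
      P.Low b.2.2.1 (a.1 + 1) ∧ P.Upto b.2.2.1 ((P.h b.1).q + 1) ∧
      P.Low b.2.2.2 (a.1 + 1) ∧ P.Upto b.2.2.2 ((P.h b.1).q + 1) ∧ P.Bd b.2.2.2 M ∧
      θ ≤ (⟪Ωs b.2.1, (P.h b.1).b b.2.2.2⟫_ℂ).re ∧
      Φ a.1 (P.h b.1).η (P.h b.1).b b.2.2.1 b.2.2.2 ∧
      ∀ w, ‖⟪Ωs b.2.1, (P.h b.1).U w⟫_ℂ - ⟪Ωs a.2.1, w⟫_ℂ‖ ≤ κ * ‖w‖)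
    (nn j) (n₀, s₀, 0, 0) ⟨hw₀, hst.age, hs₀.1, hs₀.2⟩
    (by
      rintro i ⟨n, s, x₀, z₀⟩ hi ⟨a1, a2, a3, a4⟩
      simp only at a1 a2 a3 a4
      obtain ⟨s', ⟨⟨g1, g2⟩, g3⟩, q, η, bl, x, z, vb, lx, ux, lz, uz, bz, hθ', hΦ⟩ :=
        offer n a1 (G (P.h n).l ∩ G (n + 1) ∩ G₀)
          (Filter.inter_mem (Filter.inter_mem (hGs _).1 (hGs _).1) hG₀)
      obtain ⟨u, u1, u2, u3⟩ := (hGs (P.h n).l).2 s a3 s' g1
      obtain ⟨n', st, e1, e2, e3, e4, e5⟩ :=
        hG.exists_step n q u η bl (by rw [a1, a2]; exact hi) ⟨u1, u2⟩ vb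
      refine ⟨(n', s', x, z), ⟨?_, ?_, ?_, g3⟩, st, e1, lx, ?_, lz, ?_, bz, ?_, ?_, ?_⟩
      · simp only
        rw [st.w, e1, a1]
      · simp only
        rw [st.age, e1, a2]
      · simp only
        rw [st.l, e1]
        exact g2
      · simp only
        rwa [e2]
      · simp only
        rwa [e2]
      · simp only
        rwa [e5]
      · simp only
        rwa [e3, e5]
      · simp only
        rw [e4]
        exact u3)
  have hξ0 : (f 0).1 = n₀ := by rw [f0]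
  have hch : P.Chain (nn j) fun i => (f i).1 :=
    ⟨hξ0 ▸ hst, fun i hi => (f2 i hi).1, fun i hi => (f2 i hi).2.1⟩
  have hbz : P.Blocks (nn j) (fun i => (f i).1) fun i => (f (i + 1)).2.2.2 :=
    ⟨fun i hi => (f2 i hi).2.2.2.2.1, fun i hi => (f2 i hi).2.2.2.2.2.1⟩
  have hw : (P.h (f 0).1).w = j := (f1 0 (Nat.zero_le _)).1
  refine ⟨fun i => (f i).1, fun i => (f (i + 1)).2.2.1, fun i => (f (i + 1)).2.2.2,
    (f (nn j)).2.1, (f1 _ le_rfl).2.2.2, hn₀.trans hξ0.ge, hw, hch,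
    ⟨fun i hi => (f2 i hi).2.2.1, fun i hi => (f2 i hi).2.2.2.1⟩, hbz,
    fun i hi => (f2 i hi).2.2.2.2.2.2.2.2.1, ?_⟩
  have hm := mm_pos j
  have key : ∀ i, i ≤ nn j → i * θ / (2 * mm j) ≤ (⟪Ωs (f i).2.1,
      P.fE (f i).1 (∑ k ∈ Finset.range (nn j), (f (k + 1)).2.2.2)⟫_ℂ).re := by
    intro i
    induction i with
    | zero =>
      intro _
      rw [hch.fE_zero hbz]
      simp
    | succ i ih =>
      intro hi
      have h1 := ih (Nat.le_of_succ_le hi)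
      have h2 := hch.fE_succ hbz hi
      have h3 := hch.norm_fE_le hbz (μ := M)
        (fun k hk => (f2 k hk).1.vB.bd _ M ((f2 k hk).2.2.2.2.2.2.1.nb _)) (Nat.le_of_succ_le hi)
      rw [hw] at h2 h3
      obtain ⟨-, -, -, -, -, -, -, h4, -, h5⟩ := f2 i hi
      set F := P.fE (f i).1 (∑ k ∈ Finset.range (nn j), (f (k + 1)).2.2.2) with hF
      have h6 := h5 F
      have h7 := (Complex.abs_re_le_norm _).trans h6
      rw [Complex.sub_re, abs_le] at h7
      have h8 : κ * ‖F‖ ≤ θ / (2 * mm j) := by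
        have a1 : (i : ℝ) * M ≤ nn j * M :=
          mul_le_mul_of_nonneg_right (by exact_mod_cast Nat.le_of_succ_le hi) hM
        calc κ * ‖F‖ ≤ κ * (nn j * M / mm j) :=
              mul_le_mul_of_nonneg_left (h3.trans (div_le_div_of_nonneg_right a1 hm.le)) hκ0.le
          _ = κ * (nn j * M) / mm j := by ring
          _ ≤ θ / 2 / mm j := div_le_div_of_nonneg_right hκ hm.le
          _ = _ := by field_simp
      rw [h2, inner_add_right, inner_smul_right, Complex.add_re, ← Complex.ofReal_inv,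
        Complex.re_ofReal_mul]
      have h9 : (mm j)⁻¹ * θ ≤
          (mm j)⁻¹ * (⟪Ωs (f (i + 1)).2.1, (P.h (f (i + 1)).1).b (f (i + 1)).2.2.2⟫_ℂ).re :=
        mul_le_mul_of_nonneg_left h4 (inv_nonneg.mpr hm.le)
      have h10 : ((i + 1 : ℕ) : ℝ) * θ / (2 * mm j) =
          i * θ / (2 * mm j) - θ / (2 * mm j) + (mm j)⁻¹ * θ := by
        push_cast
        field_simp
        ring
      rw [h10]
      linarith [h7.1]
  exact key _ le_rfl

end Pre

end Pool.Agent.MP_1acf33_an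

end

-- part MP_1acf33_an.PropA
section

/-!
The key proposition: an operator moves far out, small-weight-small vectors close to their orbits.
-/

set_option linter.style.haveILetI false
set_option linter.unusedSectionVars false

namespace Pool.Agent.MP_1acf33_an

open scoped InnerProductSpace

variable {A : Type*} [CStarAlgebra A] {H : Type*} [NormedAddCommGroup H]
  [InnerProductSpace ℂ H] [CompleteSpace H]

namespace Pre

variable {P : Pre A H}

/-- `Rel x z e` abstracts the statement that a bounded operator sends `x` within `e` of `z`. -/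
structure IsRel (P : Pre A H) (Rel : (ℕ → H) → (ℕ → H) → ℝ → Prop) (M : ℝ) : Prop where
  nonneg : 0 ≤ M
  zero : Rel 0 0 0
  add : ∀ x z e x' z' e', Rel x z e → Rel x' z' e' → Rel (x + x') (z + z') (e + e')
  smul : ∀ (t : ℝ) x z e, 0 ≤ t → Rel x z e → Rel ((t : ℂ) • x) ((t : ℂ) • z) (t * e)
  mono : ∀ x z e e', Rel x z e → e ≤ e' → Rel x z e'
  bd : ∀ x z e B, Rel x z e → P.Bd x B → P.Bd z (M * B + e)

theorem IsRel.sum {Rel : (ℕ → H) → (ℕ → H) → ℝ → Prop} {M : ℝ} (h : P.IsRel Rel M)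
    {x z : ℕ → ℕ → H} {e : ℝ} (N : ℕ) (hx : ∀ i, i < N → Rel (x i) (z i) e) :
    Rel (∑ i ∈ Finset.range N, x i) (∑ i ∈ Finset.range N, z i) (N * e) := by
  induction N with
  | zero => simpa using h.zero
  | succ N ih =>
    rw [Finset.sum_range_succ, Finset.sum_range_succ, Nat.cast_succ, add_mul, one_mul]
    exact h.add _ _ _ _ _ _ (ih fun i hi => hx i (by omega)) (hx N (by omega))

/-- A sequence of counterexamples, together with separating maps. -/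
structure Bad (P : Pre A H) (Rel : (ℕ → H) → (ℕ → H) → ℝ → Prop) (C d : ℝ) (x z : ℕ → ℕ → H)
    (hi : ℕ → ℕ) (β : ℕ → (ℕ → H) →ₗ[ℂ] H) (Ωs : ℕ → H) : Prop where
  le : ∀ s, s ≤ hi s
  xu : ∀ s, P.Upto (x s) (hi s)
  zu : ∀ s, P.Upto (z s) (hi s)
  xl : ∀ s, P.Low (x s) (s + 2)
  zl : ∀ s, P.Low (z s) (s + 2)
  bd : ∀ s, P.Bd (x s) C
  small : ∀ s, P.Small s C (x s)
  rel : ∀ s : ℕ, Rel (x s) (z s) (1 / (s + 1))
  sep : ∀ s, P.SepOut s (hi s) C d (x s) (z s) (β s) (Ωs s)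

theorem exists_mem_ge {G : Set ℕ} (hG : G ∈ Filter.hyperfilter ℕ) (K : ℕ) : ∃ s ∈ G, K ≤ s := by
  have h1 : {s | K ≤ s} ∈ Filter.hyperfilter ℕ := by
    apply Filter.hyperfilter_le_cofinite
    rw [Nat.cofinite_eq_atTop]
    exact Filter.eventually_ge_atTop K
  obtain ⟨s, hs⟩ := Ultrafilter.nonempty_of_mem (Filter.inter_mem hG h1)
  exact ⟨s, hs.1, hs.2⟩

variable [hG : P.Good] {Rel : (ℕ → H) → (ℕ → H) → ℝ → Prop} {M C d : ℝ} {x z : ℕ → ℕ → H}
  {hi : ℕ → ℕ} {β : ℕ → (ℕ → H) →ₗ[ℂ] H} {Ωs : ℕ → H}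

/-- Exact pairs. -/
theorem Bad.exact_pair (h : P.IsRel Rel M) (hb : P.Bad Rel C d x z hi β Ωs) (hd : 0 < d)
    {j : ℕ} (hj : Even j) (N₀ : ℕ) {μ e : ℝ} (hμ : 0 < μ) (he : 0 < e) {G : Set ℕ}
    (hG' : G ∈ Filter.hyperfilter ℕ) :
    ∃ s ∈ G, ∃ η x' z', (P.h η).w = j ∧ N₀ ≤ (P.h η).st ∧ P.Low x' N₀ ∧ P.Upto x' η ∧
      P.Low z' N₀ ∧ P.Upto z' η ∧ P.Avg j C x' ∧ ‖P.fE η x'‖ ≤ μ ∧ Rel x' z' e ∧
      d / 6400 ≤ (⟪Ωs s, P.fE η z'⟫_ℂ).re := by
  have hC : 0 ≤ C := (hb.bd 0).nonneg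
  have hM := h.nonneg
  have hm := mm_pos j
  have hn : (0 : ℝ) < nn j := by exact_mod_cast nn_pos j
  have hz : ∀ s, P.Bd (z s) (M * C + 1) := fun s =>
    (h.bd _ _ _ _ (hb.rel s) (hb.bd s)).mono (by
      have : (1 : ℝ) / (s + 1) ≤ 1 := by
        rw [div_le_one (by positivity)]; linarith [Nat.cast_nonneg (α := ℝ) s]
      linarith)
  obtain ⟨K, hK⟩ := exists_nat_one_div_lt (K := ℝ) (div_pos he hm)
  obtain ⟨ξ, xx, zz, s, hs, h0, hw, hch, hbx, hbz, hΦ, hlow⟩ :=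
    build (P := P) (Filter.hyperfilter ℕ) Ωs (fun s => (hb.sep s).sep) (fun s => (hb.sep s).norm) j
      (θ := d / 3200) (M := M * C + 1) (by positivity) (by positivity)
      (fun n _ b x z => P.Bd x C ∧ P.Small n C x ∧ ‖b x‖ ≤ μ ∧ Rel x z (e / mm j))
      (by
        intro n hn G' hG''
        obtain ⟨s₀, hs₀⟩ := offer_even (P := P) n (hn ▸ hj) (M := M * C + 1) hC hd (by positivity) hμ
        obtain ⟨s, hs, hs'⟩ := exists_mem_ge hG'' (max s₀ (max n K))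
        have a1 : s₀ ≤ s := le_of_max_le_left hs'
        have a2 : n ≤ s := le_of_max_le_left (le_of_max_le_right hs')
        have a3 : K ≤ s := le_of_max_le_right (le_of_max_le_right hs')
        obtain ⟨bl, b1, b2, b3⟩ := hs₀ s a1 _ _ _ _ _ (hb.le s) (hb.sep s) (hb.bd s) (hz s)
        refine ⟨s, hs, hi s + 1, 0, bl, x s, z s, b1, (hb.xl s).mono (by omega),
          (hb.xu s).mono (by omega), (hb.zl s).mono (by omega), (hb.zu s).mono (by omega), hz s, b2,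
          hb.bd s, (hb.small s).mono a2 le_rfl, b3, h.mono _ _ _ _ (hb.rel s) ?_⟩
        refine le_trans ?_ hK.le
        have : (K : ℝ) ≤ s := by exact_mod_cast a3
        gcongr)
      N₀ G hG'
  have ht : 0 ≤ mm j / nn j := by positivity
  refine ⟨s, hs, ξ (nn j), ((mm j / nn j : ℝ) : ℂ) • ∑ k ∈ Finset.range (nn j), xx k,
    ((mm j / nn j : ℝ) : ℂ) • ∑ k ∈ Finset.range (nn j), zz k, by rw [hch.w_eq le_rfl, hw],
    by rw [hch.st_eq le_rfl]; exact h0, ((hbx.low_sum hch).mono (by omega)).smul _,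
    (hbx.upto_sum hch).smul _, ((hbz.low_sum hch).mono (by omega)).smul _,
    (hbz.upto_sum hch).smul _,
    (hch.ris hbx hC (fun i hi => (hΦ i hi).1) fun i hi => (hΦ i hi).2.1).avg, ?_, ?_, ?_⟩
  · have h1 := hch.norm_fE_le hbx (fun i hi => (hΦ i hi).2.2.1) le_rfl
    rw [hw] at h1
    rw [map_smul, norm_smul, Complex.norm_real, Real.norm_of_nonneg ht]
    calc _ ≤ mm j / nn j * (nn j * μ / mm j) := by gcongr
      _ = μ := by field_simp
  · have h1 := h.smul _ _ _ _ ht (h.sum (nn j) fun i hi => (hΦ i hi).2.2.2)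
    exact h.mono _ _ _ _ h1 (le_of_eq (by field_simp))
  · rw [map_smul, inner_smul_right, Complex.re_ofReal_mul]
    calc d / 6400 = mm j / nn j * (nn j * (d / 3200) / (2 * mm j)) := by field_simp; norm_num
      _ ≤ _ := by gcongr

theorem Bad.false (h : P.IsRel Rel M) (hb : P.Bad Rel C d x z hi β Ωs) (hd : 0 < d)
    (hC : 0 < C) : False := by
  have hM := h.nonneg
  obtain ⟨k, hk⟩ := exists_nat_gt (192 * M * C / (d / 6400))
  set j := 2 * k + 1 with hj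
  have hodd : Odd j := ⟨k, rfl⟩
  have hm := mm_pos j
  have hm8 := eight_le_mm j
  have hmk : 192 * M * C / (d / 6400) < mm j := by
    refine hk.trans_le (le_trans ?_ (le_mm j))
    exact_mod_cast (by omega : k ≤ j)
  have hn : (0 : ℝ) < nn j := by exact_mod_cast nn_pos j
  set θ := d / 6400 with hθ
  have hθ0 : 0 < θ := by positivity
  set e := min 1 (θ / (8 * mm j)) with he
  have he0 : 0 < e := lt_min one_pos (by positivity)
  obtain ⟨ξ, xx, zz, s, -, -, hw, hch, hbx, hbz, hΦ, hlow⟩ :=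
    build (P := P) (Filter.hyperfilter ℕ) Ωs (fun s => (hb.sep s).sep) (fun s => (hb.sep s).norm) j
      (θ := θ) (M := M * (4 * C) + 1) hθ0 (by positivity)
      (fun n η _ x z => P.Avg (2 * n + 2) C x ∧ ‖P.fE η x‖ ≤ 4 * C / (nn j : ℝ) ^ 2 ∧ Rel x z e)
      (by
        intro n hn G' hG''
        obtain ⟨s, hs, η, x', z', a1, a2, a3, a4, a5, a6, a7, a8, a9, a10⟩ :=
          hb.exact_pair h hd (j := 2 * n + 2) ⟨n + 1, by ring⟩ (n + 5)
            (μ := 4 * C / (nn j : ℝ) ^ 2) (by positivity) he0 hG''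
        have hc : P.cand n η η [] = P.fE η := by
          unfold cand; rw [if_pos (hn ▸ hodd)]
        refine ⟨s, hs, η, η, [], x', z', validB_odd (hn ▸ hodd) a1 a2, a3.mono (by omega),
          a4.mono (by omega), a5.mono (by omega), a6.mono (by omega),
          (h.bd _ _ _ _ a9 a7.bd).mono (by linarith [min_le_left 1 (θ / (8 * mm j))]),
          by rw [hc]; exact a10, a7, a8, a9⟩)
      0 Set.univ Filter.univ_mem
  have h1 := hch.bd_dependent hbx hw hodd hC.le (fun i hi => (hΦ i hi).1) fun i hi => (hΦ i hi).2.1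
  have h2 := h.bd _ _ _ _ (h.sum (nn j) fun i hi => (hΦ i hi).2.2) h1
  have h3 := (P.norm_fE_le (ξ (nn j)) _).trans (h2 _ _)
  have h4 : (⟪Ωs s, P.fE (ξ (nn j)) (∑ k ∈ Finset.range (nn j), zz k)⟫_ℂ).re ≤
      2 * (M * (24 * C * nn j / mm j ^ 2) + nn j * e) := by
    refine (Complex.re_le_norm _).trans ((norm_inner_le_norm _ _).trans ?_)
    exact mul_le_mul (hb.sep s).norm h3 (norm_nonneg _) (by norm_num)
  have h5 : (nn j : ℝ) * e ≤ nn j * (θ / (8 * mm j)) := by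
    gcongr; exact min_le_right _ _
  have h6 : nn j * θ / (2 * mm j) ≤
      2 * (M * (24 * C * nn j / mm j ^ 2) + nn j * (θ / (8 * mm j))) := by linarith
  have h7 : θ * mm j ≤ 192 * M * C := by
    have h8 : nn j * θ / (2 * mm j) - 2 * (M * (24 * C * nn j / mm j ^ 2) +
        nn j * (θ / (8 * mm j))) = nn j / (4 * mm j ^ 2) * (θ * mm j - 192 * M * C) := by
      field_simp; ring
    have h9 : 0 < nn j / (4 * mm j ^ 2) := by positivity
    by_contra hcon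
    have : 0 < nn j / (4 * mm j ^ 2) * (θ * mm j - 192 * M * C) := mul_pos h9 (by linarith)
    linarith
  rw [div_lt_iff₀ hθ0] at hmk
  linarith

theorem propA {Rel : (ℕ → H) → (ℕ → H) → ℝ → Prop} {M : ℝ} (h : P.IsRel Rel M) {C d : ℝ}
    (hd : 0 < d) : ∃ s : ℕ, ∀ x z q, P.Upto x q → P.Upto z q → P.Low x (s + 2) → P.Low z (s + 2) →
      P.Bd x C → P.Small s C x → Rel x z (1 / (s + 1)) →
      ∃ v ∈ P.R.V s, P.Bd (z - P.R.T v x) d := by
  by_contra hcon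
  push Not at hcon
  choose x z q a1 a2 a3 a4 a5 a6 a7 a8 using hcon
  have hC : 0 ≤ C := (a5 0).nonneg
  have b5 : ∀ s, P.Bd (x s) (C + 1) := fun s => (a5 s).mono (by linarith)
  choose β Ωs hs using fun s => exists_sepOut (le_max_right (q s) s) (a3 s)
    ((a1 s).mono (le_max_left _ _)) (a4 s) ((a2 s).mono (le_max_left _ _)) (b5 s) (a8 s)
  exact Bad.false h (hi := fun s => max (q s) s)
    ⟨fun s => le_max_right _ _, fun s => (a1 s).mono (le_max_left _ _),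
      fun s => (a2 s).mono (le_max_left _ _), a3, a4, b5,
      fun s => (a6 s).mono le_rfl (by linarith), a7, hs⟩ hd (by linarith)

end Pre

end Pool.Agent.MP_1acf33_an

end

-- part MP_1acf33_an.PropB
section

/-!
Every operator is approximated on tame sequences by an element of the algebra.
-/

set_option linter.style.haveILetI false
set_option linter.unusedSectionVars false

namespace Pool.Agent.MP_1acf33_an

open scoped InnerProductSpace

variable {A : Type*} [CStarAlgebra A] {H : Type*} [NormedAddCommGroup H]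
  [InnerProductSpace ℂ H] [CompleteSpace H]

open Filter Topology

namespace Pre

variable {P : Pre A H} [hG : P.Good]

/-- The relation attached to an operator. -/
def RelOf (P : Pre A H) [P.Good] (S : P.X →L[ℂ] P.X) (x z : ℕ → H) (e : ℝ) : Prop :=
  ∃ x' z' : P.X0, P.val x' = x ∧ P.val z' = z ∧ ‖S x' - z'‖ ≤ e

theorem isRel_relOf (S : P.X →L[ℂ] P.X) : P.IsRel (P.RelOf S) ‖S‖ where
  nonneg := norm_nonneg _
  zero := ⟨0, 0, map_zero _, map_zero _, by
    rw [UniformSpace.Completion.coe_zero, map_zero, sub_zero, norm_zero]⟩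
  add := by
    rintro _ _ e _ _ e' ⟨x, z, rfl, rfl, h⟩ ⟨x', z', rfl, rfl, h'⟩
    refine ⟨x + x', z + z', map_add _ _ _, map_add _ _ _, ?_⟩
    rw [UniformSpace.Completion.coe_add, UniformSpace.Completion.coe_add, map_add,
      add_sub_add_comm]
    exact (norm_add_le _ _).trans (add_le_add h h')
  smul := by
    rintro t _ _ e ht ⟨x, z, rfl, rfl, h⟩
    refine ⟨(t : ℂ) • x, (t : ℂ) • z, map_smul _ _ _, map_smul _ _ _, ?_⟩
    rw [UniformSpace.Completion.coe_smul, UniformSpace.Completion.coe_smul, map_smul, ← smul_sub,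
      norm_smul, Complex.norm_real, Real.norm_of_nonneg ht]
    gcongr
  mono := by
    rintro _ _ e e' ⟨x, z, rfl, rfl, h⟩ he
    exact ⟨x, z, rfl, rfl, h.trans he⟩
  bd := by
    rintro _ _ e B ⟨x, z, rfl, rfl, h⟩ hB
    rw [← norm_le_iff] at hB ⊢
    have h1 : ‖S x‖ ≤ ‖S‖ * B := by
      refine (S.le_opNorm _).trans ?_
      rw [UniformSpace.Completion.norm_coe]
      gcongr
    rw [← UniformSpace.Completion.norm_coe]
    have h2 := norm_sub_norm_le (z : P.X) (S x)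
    rw [norm_sub_rev] at h2
    linarith

theorem Tame.exists_approx {C : ℝ} {x : ℕ → P.X0} (h : P.Tame C x) (S : P.X →L[ℂ] P.X) (lo : ℕ)
    {e : ℝ} (he : 0 < e) : ∀ᶠ k in atTop, ∃ z : P.X0, P.Low (P.val z) lo ∧ ‖S (x k) - z‖ ≤ e := by
  have h1 := h.tendsto_compact (K := P.PP lo ∘L S) ((P.compact_PP lo).comp_clm S)
  have h2 := (Metric.tendsto_nhds.mp h1) (e / 4) (by positivity)
  filter_upwards [h2] with k hk
  rw [dist_zero_right, ContinuousLinearMap.comp_apply] at hk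
  obtain ⟨y, hy⟩ := (UniformSpace.Completion.denseRange_coe (α := P.X0)).exists_dist_lt (S (x k))
    (by positivity : 0 < e / 4)
  rw [dist_eq_norm] at hy
  refine ⟨y - P.Pq0 lo y, by rw [map_sub, val_Pq0]; exact low_sub_Pq _ _, ?_⟩
  have h3 : S (x k) - ((y - P.Pq0 lo y : P.X0) : P.X) =
      (S (x k) - y) - P.PP lo (S (x k) - y) + P.PP lo (S (x k)) := by
    rw [UniformSpace.Completion.coe_sub, map_sub, PP_coe]; abel
  have h4 : ‖P.PP lo (S (x k) - y)‖ ≤ 2 * (e / 4) :=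
    ((P.PP lo).le_opNorm _).trans
      (mul_le_mul (P.norm_PP_le lo) hy.le (norm_nonneg _) (by norm_num))
  rw [h3]
  refine (norm_add_le _ _).trans ?_
  have h5 := norm_sub_le (S (x k) - y) (P.PP lo (S (x k) - y))
  linarith

theorem propB (S : P.X →L[ℂ] P.X) {δ : ℝ} (hδ : 0 < δ) : ∃ a : P.R.Vinf, ∀ x : ℕ → P.X0,
    P.Tame 2 x → ∀ᶠ k in atTop, ‖S (x k) - P.TT a (x k)‖ ≤ δ := by
  set d := δ / 1000 with hd
  have hd0 : 0 < d := by positivity
  obtain ⟨s, hs⟩ := propA (isRel_relOf S) (C := 4) hd0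
  set e := min d (1 / (s + 1) / 2) with he
  have he0 : 0 < e := lt_min hd0 (by positivity)
  have he1 : e + e ≤ 1 / (s + 1) := by linarith [min_le_right d (1 / ((s : ℝ) + 1) / 2)]
  obtain ⟨u, hu, hf⟩ := exists_faithful (P := P)
  obtain ⟨k₀, ⟨⟨zu, z1, z2⟩, u1, u2⟩, hk₀⟩ := (((hu.exists_approx S (s + 2) he0).and
    (hu.ev (s + 2))).and (eventually_ge_atTop s)).exists
  obtain ⟨q₁, hq₁⟩ := P.exists_upto (u k₀)
  obtain ⟨q₂, hq₂⟩ := P.exists_upto zu
  set q := max s (max q₁ q₂) with hq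
  have hsq : s ≤ q := le_max_left _ _
  have u3 : P.Upto (P.val (u k₀)) q := hq₁.mono (le_max_of_le_right (le_max_left _ _))
  have z3 : P.Upto (P.val zu) q := hq₂.mono (le_max_of_le_right (le_max_right _ _))
  have u4 : P.Bd (P.val (u k₀)) 2 := norm_le_iff.mp (hu.bd k₀)
  obtain ⟨a, ha, ha'⟩ := hs _ _ q u3 z3 u1 z1 (u4.mono (by norm_num))
    (u2.mono (by omega) (by norm_num)) ⟨u k₀, zu, rfl, rfl, z2.trans (by linarith)⟩
  refine ⟨⟨a, s, ha⟩, fun x hx => ?_⟩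
  filter_upwards [hx.exists_approx S (q + 2) he0, hx.ev (q + 2)] with k ⟨zx, w1, w2⟩ ⟨x1, x2⟩
  obtain ⟨q₃, hq₃⟩ := P.exists_upto (u k₀ + x k)
  obtain ⟨q₄, hq₄⟩ := P.exists_upto (zu + zx)
  have x4 : P.Bd (P.val (x k)) 2 := norm_le_iff.mp (hx.bd k)
  rw [map_add] at hq₃ hq₄
  obtain ⟨v, hv, hv'⟩ := hs _ _ (max q₃ q₄) (hq₃.mono (le_max_left _ _))
    (hq₄.mono (le_max_right _ _)) (u1.add (x1.mono (by omega))) (z1.add (w1.mono (by omega)))
    ((u4.add x4).mono (by norm_num))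
    (((u2.mono (by omega) le_rfl).add (x2.mono (by omega) le_rfl)).mono le_rfl (by norm_num))
    ((isRel_relOf S).mono _ _ _ _ ((isRel_relOf S).add _ _ _ _ _ _ ⟨u k₀, zu, rfl, rfl, z2⟩
      ⟨x k, zx, rfl, rfl, w2⟩) he1)
  have e1 : P.val zu + P.val zx - P.R.T v (P.val (u k₀) + P.val (x k)) =
      (P.val zu - P.R.T v (P.val (u k₀))) + (P.val zx - P.R.T v (P.val (x k))) := by
    rw [map_add]; abel
  have e2 : P.Pq (q + 1) (P.val zu + P.val zx - P.R.T v (P.val (u k₀) + P.val (x k))) =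
      P.val zu - P.R.T v (P.val (u k₀)) := by
    rw [e1, map_add, ((z3.mono (Nat.le_succ q)).sub (u3.T hsq hv)).Pq_eq,
      ((w1.mono (Nat.le_succ _)).sub (x1.T (by omega) hv)).Pq_eq, add_zero]
  have b1 := (hv'.nb (q + 1)).Pq
  rw [e2] at b1
  have b2 := hv'.sub b1
  rw [e1, add_sub_cancel_left] at b2
  have b3 := ha'.sub b1
  rw [sub_sub_sub_cancel_left, ← Amb.T_sub] at b3
  have hva : v - a ∈ P.R.V s := Submodule.sub_mem _ hv ha
  have b4 := hf k₀ _ (P.R.V_mono hk₀ hva) _ b3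
  have b5 := x4.T_low (x1.mono (by omega : s + 2 ≤ q + 2)) hva
  have b6 := b2.add b5
  rw [Amb.T_sub, sub_add_sub_cancel] at b6
  have b7 : ‖zx - P.T0 ⟨a, s, ha⟩ (x k)‖ ≤ _ := norm_le_iff.mpr (by rw [map_sub, val_T0]; exact b6)
  rw [← UniformSpace.Completion.norm_coe, UniformSpace.Completion.coe_sub, ← TT_coe] at b7
  have b8 := norm_sub_le_norm_sub_add_norm_sub (S (x k)) zx (P.TT ⟨a, s, ha⟩ (x k))
  linarith [min_le_left d (1 / ((s : ℝ) + 1) / 2)]

end Pre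

end Pool.Agent.MP_1acf33_an

end
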