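import Mathlib
import Pool.Agent.MP_1acf33_an.Amb
import Pool.Agent.MP_1acf33_an.Mg.PropB
import Pool.Agent.MP_1acf33_an.Fix

-- part MP_1acf33_an.Calkin
section

/-!
An abstract criterion for a Banach algebra to be a Calkin algebra.
-/

set_option linter.style.haveILetI false
set_option linter.unusedSectionVars false

namespace Pool.Agent.MP_1acf33_an

open Filter Topology

theorem calkin_aux {A : Type*} [NormedRing A] [NormedAlgebra ℂ A] [CompleteSpace A]
    {X : Type*} [NormedAddCommGroup X] [NormedSpace ℂ X] [CompleteSpace X]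
    {Y : Type*} [NormedAddCommGroup Y] [NormedSpace ℂ Y] [CompleteSpace Y]
    (q : (X →L[ℂ] X) →L[ℂ] Y) (hq : Function.Surjective q)
    (hN : ∀ S T, q S = q T ↔ IsCompactOperator (S - T)) (hle : ∀ S, ‖q S‖ ≤ ‖S‖)
    (hlt : ∀ S, ∀ ε > 0, ∃ m, q m = q S ∧ ‖m‖ < ‖q S‖ + ε)
    (B : Subalgebra ℂ A) (hB : Dense (B : Set A)) (t : B →ₐ[ℂ] (X →L[ℂ] X))
    (F : Set (ℕ → X)) (c : ℝ)
    (h_up : ∀ b : B, ∃ K : X →L[ℂ] X, IsCompactOperator K ∧ ‖t b - K‖ ≤ c * ‖(b : A)‖)
    (h_bd : ∀ x ∈ F, ∀ k, ‖x k‖ ≤ 2)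
    (h_kill : ∀ K : X →L[ℂ] X, IsCompactOperator K → ∀ x ∈ F,
      Tendsto (fun k => K (x k)) atTop (𝓝 0))
    (h_comp : ∀ S : X →L[ℂ] X, (∀ x ∈ F, Tendsto (fun k => S (x k)) atTop (𝓝 0)) →
      IsCompactOperator S)
    (h_approx : ∀ (S : X →L[ℂ] X) (δ : ℝ), 0 < δ → ∃ b : B, ∀ x ∈ F,
      ∀ᶠ k in atTop, ‖S (x k) - t b (x k)‖ ≤ δ)
    (h_faith : ∃ u ∈ F, ∀ b : B, ∀ᶠ k in atTop, ‖(b : A)‖ ≤ 2 * ‖t b (u k)‖) :
    ∃ e : Y ≃L[ℂ] A, e (q 1) = 1 ∧ ∀ S T : X →L[ℂ] X, e (q (S * T)) = e (q S) * e (q T) := by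
  have hb : ∀ (S : X →L[ℂ] X) (δ : ℝ), 0 < δ → ∀ x ∈ F,
      ∀ᶠ k in atTop, ‖S (x k)‖ ≤ 2 * ‖q S‖ + δ := fun S δ hδ x hx => by
    obtain ⟨m, hm, hm'⟩ := hlt S (δ / 4) (by positivity)
    have h1 := (h_kill (S - m) ((hN S m).1 hm.symm) x hx).norm
    rw [norm_zero] at h1
    filter_upwards [h1.eventually_le_const (show 0 < δ / 2 by positivity)] with k hk
    have h2 : ‖m (x k)‖ ≤ ‖m‖ * 2 := (m.le_opNorm _).trans (by gcongr; exact h_bd x hx k)
    have h3 : S (x k) = (S - m) (x k) + m (x k) := by simp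
    rw [h3]
    linarith [norm_add_le ((S - m) (x k)) (m (x k))]
  have hd : DenseRange B.val.toLinearMap := by
    rw [DenseRange]
    refine hB.mono fun a ha => ⟨⟨a, ha⟩, rfl⟩
  have hup : ∀ b : B, ‖(q.toLinearMap ∘ₗ t.toLinearMap) b‖ ≤ c * ‖B.val.toLinearMap b‖ := fun b => by
    obtain ⟨K, hK, hK'⟩ := h_up b
    have h1 : q (t b) = q (t b - K) := (hN _ _).2 (by simpa using hK)
    exact (congrArg norm h1).le.trans ((hle _).trans hK')
  let θ : A →L[ℂ] Y := (q.toLinearMap ∘ₗ t.toLinearMap).extendOfNorm B.val.toLinearMap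
  have hθ : ∀ b : B, θ b = q (t b) := fun b => LinearMap.extendOfNorm_eq hd ⟨c, hup⟩ b
  obtain ⟨u, hu, hf⟩ := h_faith
  have hlow : ∀ a : A, ‖a‖ ≤ 4 * ‖θ a‖ := fun a => by
    refine hB.induction (P := fun a => ‖a‖ ≤ 4 * ‖θ a‖) (fun b hb' => ?_)
      (isClosed_le (by fun_prop) (by fun_prop)) a
    refine le_of_forall_pos_le_add fun δ hδ => ?_
    obtain ⟨k, h1, h2⟩ := ((hf ⟨b, hb'⟩).and (hb (t ⟨b, hb'⟩) (δ / 2) (by positivity) u hu)).exists
    rw [← hθ] at h2
    change ‖b‖ ≤ _ at h1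
    change _ ≤ 2 * ‖θ b‖ + _ at h2
    linarith
  have hinj : θ.ker = ⊥ := LinearMap.ker_eq_bot'.2 fun a ha => by
    have h1 := hlow a
    rw [show θ a = 0 from ha, norm_zero, mul_zero] at h1
    exact norm_le_zero_iff.1 h1
  have hsurj : θ.range = ⊤ := by
    refine LinearMap.range_eq_top.2 fun y => ?_
    obtain ⟨S, rfl⟩ := hq y
    choose b hb' using fun n : ℕ => h_approx S (1 / ((n : ℝ) + 1)) (by positivity)
    have hc : CauchySeq fun n => (b n : A) := by
      refine cauchySeq_of_le_tendsto_0 (fun n : ℕ => 4 * (1 / ((n : ℝ) + 1))) (fun n m M hn hm => ?_)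
        (by simpa using (tendsto_one_div_add_atTop_nhds_zero_nat (𝕜 := ℝ)).const_mul 4)
      obtain ⟨k, h1, h2, h3⟩ := ((hf (b n - b m)).and ((hb' n u hu).and (hb' m u hu))).exists
      have h4 : t (b n - b m) (u k) = (S (u k) - t (b m) (u k)) - (S (u k) - t (b n) (u k)) := by
        simp
      have h5 := norm_sub_le (S (u k) - t (b m) (u k)) (S (u k) - t (b n) (u k))
      have h6 : 1 / ((n : ℝ) + 1) ≤ 1 / ((M : ℝ) + 1) := by gcongr
      have h7 : 1 / ((m : ℝ) + 1) ≤ 1 / ((M : ℝ) + 1) := by gcongr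
      rw [h4] at h1
      rw [dist_eq_norm]
      change ‖(b n : A) - b m‖ ≤ _ at h1
      linarith
    obtain ⟨a, ha⟩ := cauchySeq_tendsto_of_complete hc
    obtain ⟨R, hR⟩ := hq (θ a)
    refine ⟨a, hR.symm.trans ((hN _ _).2 (h_comp _ fun x hx => ?_))⟩
    refine NormedAddGroup.tendsto_nhds_zero.2 fun ε hε => ?_
    have h1 : Tendsto (fun n => ‖θ a - θ (b n)‖) atTop (𝓝 0) := by
      simpa using (((θ.continuous.tendsto a).comp ha).const_sub (θ a)).norm
    obtain ⟨n, h2, h3⟩ := ((h1.eventually_lt_const (show 0 < ε / 8 by positivity)).and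
      ((tendsto_one_div_add_atTop_nhds_zero_nat (𝕜 := ℝ)).eventually_lt_const
        (show 0 < ε / 4 by positivity))).exists
    filter_upwards [hb' n x hx, hb (R - t (b n)) (ε / 4) (by positivity) x hx] with k h4 h5
    rw [map_sub, hR, ← hθ] at h5
    have h6 : (R - S) (x k) = (R - t (b n)) (x k) - (S (x k) - t (b n) (x k)) := by simp
    rw [h6]
    linarith [norm_sub_le ((R - t (b n)) (x k)) (S (x k) - t (b n) (x k))]
  let e := (ContinuousLinearEquiv.ofBijective θ hinj hsurj).symm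
  have he : ∀ b : B, e (q (t b)) = b := fun b => by
    rw [← hθ]
    exact (ContinuousLinearEquiv.ofBijective θ hinj hsurj).symm_apply_apply _
  refine ⟨e, by simpa using he 1, fun S T => ?_⟩
  have hD : Dense (q ⁻¹' (θ '' B)) :=
    ((LinearMap.range_eq_top.1 hsurj).denseRange.dense_image θ.continuous hB).preimage
      (q.isOpenMap hq)
  have hc : Continuous fun S => e (q S) := e.continuous.comp q.continuous
  refine congrFun (Continuous.ext_on (hD.prod hD)
    (f := fun p : (X →L[ℂ] X) × (X →L[ℂ] X) => e (q (p.1 * p.2)))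
    (g := fun p => e (q p.1) * e (q p.2)) (hc.comp continuous_mul)
    ((hc.comp continuous_fst).mul (hc.comp continuous_snd)) ?_) (S, T)
  rintro ⟨S, T⟩ ⟨⟨b, hb1, h1⟩, ⟨b', hb2, h2⟩⟩
  have h3 : q S = q (t ⟨b, hb1⟩) := h1.symm.trans (hθ ⟨b, hb1⟩)
  have h4 : q T = q (t ⟨b', hb2⟩) := h2.symm.trans (hθ ⟨b', hb2⟩)
  have h5 : q (S * T) = q (t (⟨b, hb1⟩ * ⟨b', hb2⟩)) := by
    have h6 : S * T - t (⟨b, hb1⟩ * ⟨b', hb2⟩) =
        (S - t ⟨b, hb1⟩) * T + t ⟨b, hb1⟩ * (T - t ⟨b', hb2⟩) := by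
      rw [map_mul]
      noncomm_ring
    rw [hN, h6]
    exact (((hN _ _).1 h3).comp_clm T).add (((hN _ _).1 h4).clm_comp (t ⟨b, hb1⟩))
  change e (q (S * T)) = e (q S) * e (q T)
  rw [h3, h4, h5, he, he, he]
  rfl

/-- The map `b ↦ mk (t b)` extends to an isomorphism of `A` onto the Calkin algebra of `X`. -/
theorem calkin_of_family {A : Type*} [NormedRing A] [NormedAlgebra ℂ A] [CompleteSpace A]
    {X : Type*} [NormedAddCommGroup X] [NormedSpace ℂ X] [CompleteSpace X]
    (B : Subalgebra ℂ A) (hB : Dense (B : Set A)) (t : B →ₐ[ℂ] (X →L[ℂ] X))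
    (F : Set (ℕ → X)) (c : ℝ)
    (h_up : ∀ b : B, ∃ K : X →L[ℂ] X, IsCompactOperator K ∧ ‖t b - K‖ ≤ c * ‖(b : A)‖)
    (h_bd : ∀ x ∈ F, ∀ k, ‖x k‖ ≤ 2)
    (h_kill : ∀ K : X →L[ℂ] X, IsCompactOperator K → ∀ x ∈ F,
      Tendsto (fun k => K (x k)) atTop (𝓝 0))
    (h_comp : ∀ S : X →L[ℂ] X, (∀ x ∈ F, Tendsto (fun k => S (x k)) atTop (𝓝 0)) →
      IsCompactOperator S)
    (h_approx : ∀ (S : X →L[ℂ] X) (δ : ℝ), 0 < δ → ∃ b : B, ∀ x ∈ F,
      ∀ᶠ k in atTop, ‖S (x k) - t b (x k)‖ ≤ δ)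
    (h_faith : ∃ u ∈ F, ∀ b : B, ∀ᶠ k in atTop, ‖(b : A)‖ ≤ 2 * ‖t b (u k)‖) :
    ∃ e : ((X →L[ℂ] X) ⧸ compactOperator (RingHom.id ℂ) X X) ≃L[ℂ] A,
      e (Submodule.Quotient.mk 1) = 1 ∧
      ∀ S T : X →L[ℂ] X, e (Submodule.Quotient.mk (S * T)) =
        e (Submodule.Quotient.mk S) * e (Submodule.Quotient.mk T) := by
  let N : Submodule ℂ (X →L[ℂ] X) := compactOperator (RingHom.id ℂ) X X
  haveI : IsClosed (N : Set (X →L[ℂ] X)) := isClosed_setOfPred_isCompactOperator
  have h1 : Function.Surjective N.mkQL := N.mkQ_surjective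
  have h2 : ∀ S T : X →L[ℂ] X, N.mkQL S = N.mkQL T ↔ IsCompactOperator (S - T) :=
    fun S T => Submodule.Quotient.eq N
  have h3 : ∀ S : X →L[ℂ] X, ‖N.mkQL S‖ ≤ ‖S‖ := Submodule.Quotient.norm_mk_le N
  have h4 : ∀ S : X →L[ℂ] X, ∀ ε > 0, ∃ m, N.mkQL m = N.mkQL S ∧ ‖m‖ < ‖N.mkQL S‖ + ε :=
    fun S ε hε => Submodule.Quotient.norm_mk_lt _ hε
  obtain ⟨e, he⟩ := calkin_aux (Y := (X →L[ℂ] X) ⧸ N) N.mkQL h1 h2 h3 h4 B hB t F c h_up h_bd
    h_kill h_comp h_approx h_faith
  exact ⟨e, he⟩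

end Pool.Agent.MP_1acf33_an

end

-- part MP_1acf33_an.Rep0
section

/-!
A separable unital C*-algebra has a representation on a separable Hilbert space with a separating
vector.
-/

set_option linter.style.haveILetI false
set_option linter.unusedSectionVars false

namespace Pool.Agent.MP_1acf33_an

open scoped InnerProductSpace ComplexOrder

universe u

section state

variable {A : Type*} [CStarAlgebra A]

theorem im_eq_zero_of_norm_one (g : A →L[ℂ] ℂ) (hg : ‖g‖ = 1) (h1 : g 1 = 1) [Nontrivial A]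
    (a : A) (ha : IsSelfAdjoint a) : (g a).im = 0 := by
  have key : ∀ t : ℝ, -2 * t * (g a).im ≤ t ^ 2 * ‖a‖ ^ 2 := by
    intro t
    set x : A := 1 + ((t : ℂ) * Complex.I) • a with hx
    have h2 : star x * x = 1 + ((t : ℂ) ^ 2) • (a * a) := by
      have h3 : star x = 1 - ((t : ℂ) * Complex.I) • a := by
        rw [hx, star_add, star_one, star_smul, ha.star_eq]
        simp [sub_eq_add_neg]
      rw [h3, hx]
      simp only [mul_add, sub_mul, one_mul, mul_one, smul_mul_smul_comm]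
      have : (t : ℂ) * Complex.I * ((t : ℂ) * Complex.I) = -(t : ℂ) ^ 2 := by
        ring_nf; simp
      rw [this]
      module
    have h4 : ‖x‖ * ‖x‖ ≤ 1 + t ^ 2 * ‖a‖ ^ 2 := by
      rw [← CStarRing.norm_star_mul_self, h2]
      refine (norm_add_le _ _).trans ?_
      rw [norm_one, norm_smul]
      have h5 : ‖a * a‖ ≤ ‖a‖ ^ 2 := by rw [sq]; exact norm_mul_le _ _
      have h6 : ‖(t : ℂ) ^ 2‖ = t ^ 2 := by simp
      rw [h6]
      gcongr
    have h7 : ‖g x‖ ≤ ‖x‖ := by simpa [hg] using g.le_opNorm x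
    have h9 : |1 - t * (g a).im| ≤ ‖g x‖ := by
      have : (g x).re = 1 - t * (g a).im := by
        rw [hx, map_add, h1, map_smul]
        simp [sub_eq_add_neg]
      rw [← this]
      exact Complex.abs_re_le_norm _
    have h10 : (1 - t * (g a).im) ^ 2 ≤ ‖x‖ * ‖x‖ := by
      rw [← sq_abs, sq]
      exact mul_self_le_mul_self (abs_nonneg _) (h9.trans h7)
    nlinarith [sq_nonneg (t * (g a).im)]
  by_contra hne
  set y := (g a).im
  have hy : 0 < y ^ 2 := by positivity
  have hpos : 0 < ‖a‖ ^ 2 + 1 := by positivity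
  have := key (-y / (‖a‖ ^ 2 + 1))
  have h2 : -2 * (-y / (‖a‖ ^ 2 + 1)) * y = 2 * y ^ 2 / (‖a‖ ^ 2 + 1) := by ring
  have h3 : (-y / (‖a‖ ^ 2 + 1)) ^ 2 * ‖a‖ ^ 2 = y ^ 2 * ‖a‖ ^ 2 / (‖a‖ ^ 2 + 1) ^ 2 := by
    field_simp
  rw [h2, h3, div_le_div_iff₀ hpos (by positivity)] at this
  nlinarith [mul_pos hy hpos, mul_pos (mul_pos hy hpos) hpos, sq_nonneg ‖a‖]

variable [PartialOrder A] [StarOrderedRing A]

theorem state_nonneg [Nontrivial A] (g : A →L[ℂ] ℂ) (hg : ‖g‖ = 1) (h1 : g 1 = 1) (a : A)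
    (ha : 0 ≤ a) : 0 ≤ g a := by
  have him := im_eq_zero_of_norm_one g hg h1 a ha.isSelfAdjoint
  rw [Complex.nonneg_iff]
  refine ⟨?_, him.symm⟩
  have h2 : ‖algebraMap ℝ A ‖a‖ - a‖ ≤ ‖a‖ := by
    have h3 : 0 ≤ algebraMap ℝ A ‖a‖ - a :=
      sub_nonneg.mpr (IsSelfAdjoint.le_algebraMap_norm_self ha.isSelfAdjoint)
    rw [CStarAlgebra.norm_le_iff_le_algebraMap _ (norm_nonneg a) h3]
    simpa using ha
  have h4 : ‖g (algebraMap ℝ A ‖a‖ - a)‖ ≤ ‖a‖ := by
    have := g.le_opNorm (algebraMap ℝ A ‖a‖ - a)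
    rw [hg, one_mul] at this
    exact this.trans h2
  have h5 : g (algebraMap ℝ A ‖a‖) = ‖a‖ := by
    rw [Algebra.algebraMap_eq_smul_one, ← Complex.coe_smul, map_smul, h1]
    simp
  have h6 := (Complex.re_le_norm _).trans h4
  rw [map_sub, h5] at h6
  simpa using h6

theorem exists_state [Nontrivial A] (b : A) (hb : 0 ≤ b) :
    ∃ g : A →L[ℂ] ℂ, ‖g‖ = 1 ∧ g 1 = 1 ∧ ‖b‖ ≤ (g b).re := by
  have h1 : ‖b‖ + 1 ∈ spectrum ℝ (algebraMap ℝ A 1 + b) :=
    spectrum.add_mem_add_iff.2 (CStarAlgebra.norm_mem_spectrum_of_nonneg hb)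
  have h2 : ‖b‖ + 1 ≤ ‖1 + b‖ := by
    have := spectrum.norm_le_norm_of_mem h1
    rw [map_one] at this
    exact (le_abs_self _).trans this
  obtain ⟨g, hg, hx⟩ := exists_dual_vector ℂ (1 + b) (by
    have := norm_nonneg b
    intro h
    linarith)
  have hle : ∀ x, ‖g x‖ ≤ ‖x‖ := fun x => by simpa [hg] using g.le_opNorm x
  have h3 : (g 1).re + (g b).re = ‖1 + b‖ := by
    have := congrArg Complex.re hx
    simpa using this
  have h4 : (g 1).re ≤ 1 := (Complex.re_le_norm _).trans (by simpa using hle 1)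
  have h5 : (g b).re ≤ ‖b‖ := (Complex.re_le_norm _).trans (hle b)
  refine ⟨g, hg, ?_, by linarith⟩
  have h6 : (g 1).re = 1 := by linarith
  have h7 : ‖g 1‖ ≤ 1 := by simpa using hle 1
  have h8 : (g 1).re * (g 1).re + (g 1).im * (g 1).im ≤ 1 := by
    rw [← Complex.normSq_apply, Complex.normSq_eq_norm_sq]
    nlinarith [norm_nonneg (g 1)]
  apply Complex.ext
  · simpa using h6
  · rw [h6] at h8
    have : (g 1).im * (g 1).im = 0 := le_antisymm (by linarith) (mul_self_nonneg _)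
    simpa using this

theorem exists_faithful [TopologicalSpace.SeparableSpace A] :
    ∃ f : A →L[ℂ] ℂ, ‖f‖ ≤ 1 ∧ (∀ a, 0 ≤ a → 0 ≤ f a) ∧ ∀ b, f (star b * b) = 0 → b = 0 := by
  rcases subsingleton_or_nontrivial A with hA | hA
  · exact ⟨0, by simp, fun a _ => by simp, fun b _ => Subsingleton.elim _ _⟩
  set a : ℕ → A := TopologicalSpace.denseSeq A with ha
  have had : DenseRange a := TopologicalSpace.denseRange_denseSeq A
  choose g hg hg1 hgb using fun n => exists_state (star (a n) * a n) (star_mul_self_nonneg (a n))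
  set w : ℕ → ℝ := fun n => 1 / 2 / 2 ^ n with hw
  have hwpos : ∀ n, 0 < w n := fun n => by positivity
  have hws : HasSum w 1 := hasSum_geometric_two' 1
  have hn : ∀ n, ‖((w n : ℝ) : ℂ) • g n‖ = w n := fun n => by
    rw [norm_smul, hg, mul_one, Complex.norm_real, Real.norm_of_nonneg (hwpos n).le]
  have hsn : Summable fun n => ‖((w n : ℝ) : ℂ) • g n‖ := by
    simpa only [hn] using hws.summable
  have hs : Summable fun n => ((w n : ℝ) : ℂ) • g n := hsn.of_norm
  set f : A →L[ℂ] ℂ := ∑' n, ((w n : ℝ) : ℂ) • g n with hf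
  have hfx : ∀ x, HasSum (fun n => ((w n : ℝ) : ℂ) * g n x) (f x) := fun x => by
    simpa using hs.hasSum.mapL (ContinuousLinearMap.apply ℂ ℂ x)
  refine ⟨f, ?_, fun x hx => ?_, fun b hb => ?_⟩
  · refine (norm_tsum_le_tsum_norm hsn).trans ?_
    simp only [hn]
    exact hws.tsum_eq.le
  · refine (hfx x).nonneg fun n => mul_nonneg ?_ (state_nonneg (g n) (hg n) (hg1 n) x hx)
    exact Complex.zero_le_real.2 (hwpos n).le
  · have h1 : HasSum (fun n => w n * (g n (star b * b)).re) 0 := by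
      have := Complex.hasSum_re (hfx (star b * b))
      simpa [hb] using this
    have h2 : ∀ n, 0 ≤ (g n (star b * b)).re := fun n =>
      (Complex.nonneg_iff.1 (state_nonneg (g n) (hg n) (hg1 n) _ (star_mul_self_nonneg b))).1
    have h3 : ∀ n, (g n (star b * b)).re = 0 := fun n => by
      have := le_hasSum h1 n fun m _ => mul_nonneg (hwpos m).le (h2 m)
      exact le_antisymm (nonpos_of_mul_nonpos_right this (hwpos n) ) (h2 n)
    have h4 : ∀ x : A, ‖star x * x‖ ≤ ‖star x * x - star b * b‖ := by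
      intro x
      refine had.induction_on (p := fun x => ‖star x * x‖ ≤ ‖star x * x - star b * b‖) x ?_ ?_
      · apply isClosed_le <;> fun_prop
      · intro n
        refine (hgb n).trans ?_
        have h5 : (g n (star (a n) * a n)).re = (g n (star (a n) * a n - star b * b)).re := by
          rw [map_sub, Complex.sub_re, h3, sub_zero]
        rw [h5]
        refine (Complex.re_le_norm _).trans ?_
        simpa [hg] using (g n).le_opNorm (star (a n) * a n - star b * b)
    have h5 := h4 b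
    rw [sub_self, norm_zero, CStarRing.norm_star_mul_self] at h5
    have : ‖b‖ * ‖b‖ = 0 := le_antisymm h5 (mul_self_nonneg _)
    simpa using this

end state

theorem exists_sep_rep (A : Type u) [CStarAlgebra A] [TopologicalSpace.SeparableSpace A] :
    ∃ (K : Type u) (_ : NormedAddCommGroup K) (_ : InnerProductSpace ℂ K) (_ : CompleteSpace K)
      (_ : TopologicalSpace.SeparableSpace K) (π : A →⋆ₐ[ℂ] (K →L[ℂ] K)) (Ω : K),
      ‖Ω‖ ≤ 1 ∧ ∀ a, π a Ω = 0 → a = 0 := by
  letI : PartialOrder A := CStarAlgebra.spectralOrder A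
  haveI : StarOrderedRing A := CStarAlgebra.spectralOrderedRing A
  obtain ⟨g, hg, hpos, hfaith⟩ := exists_faithful (A := A)
  let f : A →ₚ[ℂ] ℂ := PositiveLinearMap.mk₀ g.toLinearMap hpos
  have hf : ∀ a, f a = g a := fun a => rfl
  set Ω : f.GNS := ((f.toPreGNS 1 : f.PreGNS) : f.GNS) with hΩ
  have hπ : ∀ a : A, f.gnsStarAlgHom a Ω = ((f.toPreGNS a : f.PreGNS) : f.GNS) := by
    intro a
    rw [hΩ]
    change f.gnsNonUnitalStarAlgHom a _ = _
    rw [PositiveLinearMap.gnsNonUnitalStarAlgHom_apply_coe]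
    simp
  have hnorm : ∀ a : A, ((‖((f.toPreGNS a : f.PreGNS) : f.GNS)‖ : ℝ) : ℂ) ^ 2 = g (star a * a) := by
    intro a
    rw [UniformSpace.Completion.norm_coe, f.preGNS_norm_sq]
    simp [hf]
  have hsep : TopologicalSpace.SeparableSpace f.GNS := by
    refine DenseRange.separableSpace (f := fun a : A => f.gnsStarAlgHom a Ω) ?_ ?_
    · simp only [hπ]
      exact UniformSpace.Completion.denseRange_coe.comp f.toPreGNS.surjective.denseRange
        (UniformSpace.Completion.continuous_coe _)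
    · exact (map_continuous f.gnsStarAlgHom).clm_apply continuous_const
  refine ⟨f.GNS, inferInstance, inferInstance, inferInstance, hsep, f.gnsStarAlgHom, Ω, ?_, ?_⟩
  · have h1 := congrArg norm (hnorm 1)
    rw [norm_pow, Complex.norm_real, norm_norm, star_one, mul_one] at h1
    have h2 : ‖g 1‖ ≤ 1 := by
      refine (g.le_opNorm 1).trans ?_
      have : ‖(1 : A)‖ ≤ 1 := by
        rcases subsingleton_or_nontrivial A with hA | hA
        · rw [Subsingleton.elim (1 : A) 0, norm_zero]; exact zero_le_one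
        · exact norm_one.le
      exact mul_le_one₀ hg (norm_nonneg _) this
    rw [← h1] at h2
    exact (sq_le_one_iff₀ (norm_nonneg _)).1 h2
  · intro a ha
    rw [hπ] at ha
    apply hfaith
    rw [← hnorm, ha]
    simp

end Pool.Agent.MP_1acf33_an

end

-- part MP_1acf33_an.Rep
section

/-!
Existence of the ambient data.
-/

set_option linter.style.haveILetI false
set_option linter.unusedSectionVars false

namespace Pool.Agent.MP_1acf33_an

open scoped InnerProductSpace

universe u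

section amp

variable {K : Type*} [NormedAddCommGroup K] [InnerProductSpace ℂ K] [CompleteSpace K]

/-- The Hilbert space of square summable sequences in `K`. -/
abbrev Ampl (K : Type*) [NormedAddCommGroup K] := lp (fun _ : ℕ => K) 2

/-- Diagonal operator. -/
noncomputable def diagOp (T : K →L[ℂ] K) : Ampl K →L[ℂ] Ampl K :=
  lp.mapCLM 2 (fun _ : ℕ => T) (norm_nonneg T) fun _ => le_rfl

theorem diagOp_apply (T : K →L[ℂ] K) (x : Ampl K) (n : ℕ) : diagOp T x n = T (x n) := rfl

/-- The diagonal amplification as a star homomorphism. -/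
noncomputable def diagHom : (K →L[ℂ] K) →⋆ₐ[ℂ] (Ampl K →L[ℂ] Ampl K) where
  toFun := diagOp
  map_one' := by ext x n; rfl
  map_mul' S T := by ext x n; rfl
  map_zero' := by ext x n; rfl
  map_add' S T := by ext x n; rfl
  commutes' c := by
    ext x n
    simp [diagOp_apply, Algebra.algebraMap_eq_smul_one]
  map_star' T := by
    rw [ContinuousLinearMap.star_eq_adjoint (diagOp T), ContinuousLinearMap.eq_adjoint_iff]
    intro x y
    rw [lp.inner_eq_tsum, lp.inner_eq_tsum]
    refine tsum_congr fun n => ?_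
    rw [diagOp_apply, diagOp_apply, ContinuousLinearMap.star_eq_adjoint,
      ContinuousLinearMap.adjoint_inner_left]

/-- Coordinates of the `i`-th isometry. -/
def shiftFun (i : ℕ) (x : ℕ → K) (m : ℕ) : K :=
  if (Nat.unpair m).1 = i then x (Nat.unpair m).2 else 0

theorem shiftFun_pair (i : ℕ) (x : ℕ → K) (k : ℕ) : shiftFun i x (Nat.pair i k) = x k := by
  simp [shiftFun]

theorem shiftFun_of_notMem (i : ℕ) (x : ℕ → K) (m : ℕ) (hm : m ∉ Set.range (Nat.pair i)) :
    shiftFun i x m = 0 := by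
  rw [shiftFun, if_neg]
  intro h
  exact hm ⟨(Nat.unpair m).2, by rw [← h, Nat.pair_unpair]⟩

theorem pair_inj (i : ℕ) : Function.Injective (Nat.pair i) := fun _ _ h =>
  (Nat.pair_eq_pair.1 h).2

theorem shiftFun_mem (i : ℕ) (x : Ampl K) : Memℓp (shiftFun i x) 2 := by
  apply memℓp_gen
  rw [← (pair_inj i).summable_iff]
  · have := (lp.memℓp x).summable (by norm_num)
    refine this.congr fun k => ?_
    simp [shiftFun_pair]
  · intro m hm
    simp [shiftFun_of_notMem i x m hm]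

/-- The `i`-th isometry as a linear map. -/
noncomputable def shiftLin (i : ℕ) : Ampl K →ₗ[ℂ] Ampl K where
  toFun x := ⟨shiftFun i x, shiftFun_mem i x⟩
  map_add' x y := by
    ext m
    change shiftFun i (x + y : Ampl K) m = shiftFun i x m + shiftFun i y m
    simp only [shiftFun]
    split_ifs <;> simp
  map_smul' c x := by
    ext m
    change shiftFun i (c • x : Ampl K) m = c • shiftFun i x m
    simp only [shiftFun]
    split_ifs <;> simp

theorem shiftLin_apply (i : ℕ) (x : Ampl K) (m : ℕ) : shiftLin i x m = shiftFun i x m := rfl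

theorem shiftLin_inner (i j : ℕ) (x y : Ampl K) :
    ⟪shiftLin i x, shiftLin j y⟫_ℂ = if i = j then ⟪x, y⟫_ℂ else 0 := by
  rw [lp.inner_eq_tsum]
  simp only [shiftLin_apply]
  split_ifs with h
  · subst h
    rw [lp.inner_eq_tsum, ← (pair_inj i).tsum_eq]
    · simp only [shiftFun_pair]
    · intro m hm
      by_contra hm'
      exact hm (by simp [shiftFun_of_notMem i x m hm'])
  · have : ∀ m, ⟪shiftFun i x m, shiftFun j y m⟫_ℂ = 0 := by
      intro m
      simp only [shiftFun]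
      split_ifs with h1 h2
      · exact absurd (h1.symm.trans h2) h
      all_goals simp
    simp [this]

/-- The `i`-th isometry. -/
noncomputable def shiftOp (i : ℕ) : Ampl K →L[ℂ] Ampl K :=
  (shiftLin i).mkContinuous 1 fun x => by
    have h := shiftLin_inner i i x x
    rw [if_pos rfl] at h
    rw [one_mul, norm_eq_sqrt_re_inner (𝕜 := ℂ), norm_eq_sqrt_re_inner (𝕜 := ℂ), h]

theorem shiftOp_apply (i : ℕ) (x : Ampl K) : shiftOp i x = shiftLin i x := rfl

theorem separable_ampl [TopologicalSpace.SeparableSpace K] :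
    TopologicalSpace.SeparableSpace (Ampl K) := by
  rw [← TopologicalSpace.isSeparable_univ_iff]
  have h1 : TopologicalSpace.IsSeparable
      (⋃ i : ℕ, Set.range fun x : K => (lp.single 2 i x : Ampl K)) :=
    .iUnion fun i => TopologicalSpace.isSeparable_range
      (lp.isometry_single (E := fun _ : ℕ => K) (p := 2) i).continuous
  refine (h1.span (R := ℂ)).closure.mono fun x _ => ?_
  refine mem_closure_of_tendsto (lp.hasSum_single (by norm_num) x) ?_
  refine Filter.Eventually.of_forall fun s => Submodule.sum_mem _ fun i _ => ?_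
  exact Submodule.subset_span (Set.mem_iUnion.2 ⟨i, x i, rfl⟩)

end amp

section finrank

variable {H : Type*} [NormedAddCommGroup H] [InnerProductSpace ℂ H] [CompleteSpace H]

theorem exists_dense_finite_rank [TopologicalSpace.SeparableSpace H] :
    ∃ O : ℕ → H →L[ℂ] H, ∀ B : H →L[ℂ] H,
      FiniteDimensional ℂ (LinearMap.range (B : H →ₗ[ℂ] H)) →
        ∀ ε : ℝ, 0 < ε → ∃ i, ‖B - O i‖ < ε := by
  have hc : Continuous fun p : H × H => InnerProductSpace.rankOne ℂ p.1 p.2 := by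
    have h1 : Continuous fun p : H × H => innerSL ℂ p.2 := (innerSL ℂ).continuous.comp continuous_snd
    exact ((ContinuousLinearMap.smulRightL ℂ H H).continuous.comp h1).clm_apply continuous_fst
  obtain ⟨c, hc1, hc2⟩ := (TopologicalSpace.isSeparable_range hc).span (R := ℂ)
  obtain ⟨O, hO⟩ := (hc1.insert 0).exists_eq_range (Set.insert_nonempty _ _)
  refine ⟨O, fun B hB ε hε => ?_⟩
  have hmem : B ∈ Submodule.span ℂ
      (Set.range fun p : H × H => InnerProductSpace.rankOne ℂ p.1 p.2) := by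
    set U := LinearMap.range (B : H →ₗ[ℂ] H) with hU
    set b := stdOrthonormalBasis ℂ U with hb
    have : B = ∑ k, InnerProductSpace.rankOne ℂ (b k : H)
        (ContinuousLinearMap.adjoint B (b k : H)) := by
      ext x
      have h1 := congrArg (fun u : U => (u : H)) (b.sum_repr' ⟨B x, x, rfl⟩)
      simp only [AddSubmonoidClass.coe_finsetSum, SetLike.val_smul, Submodule.coe_inner] at h1
      rw [← h1]
      simp only [sum_apply, InnerProductSpace.rankOne_apply,
        ContinuousLinearMap.adjoint_inner_left]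
    rw [this]
    exact Submodule.sum_mem _ fun k _ => Submodule.subset_span ⟨(_, _), rfl⟩
  obtain ⟨T, hT, hd⟩ := Metric.mem_closure_iff.1 (hc2 hmem) ε hε
  have : T ∈ Set.range O := hO ▸ Set.mem_insert_of_mem _ hT
  obtain ⟨i, rfl⟩ := this
  exact ⟨i, by rwa [← dist_eq_norm]⟩

end finrank

section exh

variable {A : Type*} [CStarAlgebra A]

/-- The exhausting sequence of finite-dimensional subspaces. -/
noncomputable def exh (a : ℕ → A) : ℕ → Submodule ℂ A
  | 0 => Submodule.span ℂ {1}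
  | n + 1 => exh a n * exh a n ⊔ Submodule.span ℂ {a n, star (a n)}

theorem exh_fg (a : ℕ → A) (n : ℕ) : (exh a n).FG := by
  induction n with
  | zero => exact Submodule.fg_span (Set.finite_singleton _)
  | succ n ih => exact (ih.mul ih).sup (Submodule.fg_span (Set.toFinite _))

theorem exh_mul (a : ℕ → A) (n : ℕ) (x y : A) (hx : x ∈ exh a n) (hy : y ∈ exh a n) :
    x * y ∈ exh a (n + 1) :=
  Submodule.mem_sup_left (Submodule.mul_mem_mul hx hy)

theorem exh_one (a : ℕ → A) (n : ℕ) : (1 : A) ∈ exh a n := by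
  induction n with
  | zero => exact Submodule.subset_span rfl
  | succ n ih => simpa using exh_mul a n 1 1 ih ih

theorem star_mem_span {s : Set A} (hs : ∀ x ∈ s, star x ∈ s) (x : A)
    (hx : x ∈ Submodule.span ℂ s) : star x ∈ Submodule.span ℂ s := by
  induction hx using Submodule.span_induction with
  | mem x hx => exact Submodule.subset_span (hs x hx)
  | zero => simp
  | add x y _ _ hx hy => rw [star_add]; exact add_mem hx hy
  | smul c x _ hx => rw [star_smul]; exact Submodule.smul_mem _ _ hx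

theorem exh_star (a : ℕ → A) (n : ℕ) (x : A) (hx : x ∈ exh a n) : star x ∈ exh a n := by
  induction n generalizing x with
  | zero => exact star_mem_span (by simp) x hx
  | succ n ih =>
    obtain ⟨y, hy, z, hz, rfl⟩ := Submodule.mem_sup.1 hx
    rw [star_add]
    refine add_mem ?_ (Submodule.mem_sup_right (star_mem_span (by simp) z hz))
    refine Submodule.mul_induction_on hy (fun u hu v hv => ?_) fun u v hu hv => ?_
    · rw [star_mul]
      exact exh_mul a n _ _ (ih v hv) (ih u hu)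
    · rw [star_add]
      exact add_mem hu hv

theorem exh_mem (a : ℕ → A) (n : ℕ) : a n ∈ exh a (n + 1) :=
  Submodule.mem_sup_right (Submodule.subset_span (Set.mem_insert _ _))

end exh

theorem exists_amb (A : Type u) [CStarAlgebra A] [TopologicalSpace.SeparableSpace A] :
    ∃ (H : Type u) (_ : NormedAddCommGroup H) (_ : InnerProductSpace ℂ H) (_ : CompleteSpace H),
      Nonempty (Amb A H) := by
  obtain ⟨K, _, _, _, _, π, Ω, hΩ, hsep⟩ := exists_sep_rep A
  haveI := separable_ampl (K := K)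
  obtain ⟨O, hO⟩ := exists_dense_finite_rank (H := Ampl K)
  refine ⟨Ampl K, inferInstance, inferInstance, inferInstance, ⟨{
    π := diagHom.comp π
    W := shiftOp
    W_inner := fun i j x y => shiftLin_inner i j x y
    W_comm := fun i a x => ?_
    Ω := lp.single 2 0 Ω
    Ω_norm := ?_
    Ω_sep := fun a ha => ?_
    V := exh (TopologicalSpace.denseSeq A)
    V_fd := fun n => Module.Finite.iff_fg.2 (exh_fg _ n)
    V_one := exh_one _
    V_star := exh_star _
    V_mul := exh_mul _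
    V_dense := fun a ε hε => ?_
    D := TopologicalSpace.denseSeq (Ampl K)
    D_dense := TopologicalSpace.denseRange_denseSeq _
    O := O
    O_dense := hO }⟩⟩
  · ext m
    change π a (shiftFun i x m) = shiftFun i (fun k => π a (x k)) m
    simp only [shiftFun]
    split_ifs <;> simp
  · rw [lp.norm_single (by norm_num)]
    exact hΩ
  · apply hsep
    have := congrArg (fun y : Ampl K => y 0) ha
    change π a ((lp.single 2 0 Ω : Ampl K) 0) = 0 at this
    rwa [lp.single_apply_self] at this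
  · obtain ⟨n, hn⟩ := (TopologicalSpace.denseRange_denseSeq A).exists_dist_lt a hε
    exact ⟨n + 1, _, exh_mem _ n, by rwa [← dist_eq_norm]⟩

end Pool.Agent.MP_1acf33_an

end

-- part MP_1acf33_an.Main
section

/-!
The Calkin algebra of the constructed space is the given algebra (quotient form).
-/

namespace Pool.Agent.MP_1acf33_an

universe u

theorem exists_calkin_equiv (A : Type u) [CStarAlgebra A] [TopologicalSpace.SeparableSpace A] :
    ∃ (X : Type u) (_ : NormedAddCommGroup X) (_ : NormedSpace ℂ X) (_ : CompleteSpace X)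
      (e : ((X →L[ℂ] X) ⧸ compactOperator (RingHom.id ℂ) X X) ≃L[ℂ] A),
      e (Submodule.Quotient.mk 1) = 1 ∧
      ∀ S T : X →L[ℂ] X, e (Submodule.Quotient.mk (S * T)) =
        e (Submodule.Quotient.mk S) * e (Submodule.Quotient.mk T) := by
  obtain ⟨H, _, _, _, ⟨R⟩⟩ := exists_amb A
  obtain ⟨P, hG⟩ := exists_good R
  refine ⟨P.X, inferInstance, inferInstance, inferInstance,
    calkin_of_family P.R.Vinf P.R.dense_Vinf P.TT
      {x | ∃ y : ℕ → P.X0, P.Tame 2 y ∧ x = fun k => (y k : P.X)} 210 P.exists_compact_TT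
      ?_ ?_ ?_ ?_ ?_⟩
  · rintro _ ⟨y, hy, rfl⟩ k
    rw [UniformSpace.Completion.norm_coe]
    exact hy.bd k
  · rintro K hK _ ⟨y, hy, rfl⟩
    exact hy.tendsto_compact hK
  · exact fun S hS => Pre.compact_of_tame fun y hy => hS _ ⟨y, hy, rfl⟩
  · intro S δ hδ
    obtain ⟨a, ha⟩ := Pre.propB S hδ
    exact ⟨a, by rintro _ ⟨y, hy, rfl⟩; exact ha y hy⟩
  · obtain ⟨u, hu, h⟩ := Pre.exists_faithful (P := P)
    refine ⟨_, ⟨u, hu, rfl⟩, fun b => ?_⟩
    obtain ⟨s, hs⟩ := b.2
    filter_upwards [Filter.eventually_ge_atTop s] with k hk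
    rw [Pre.TT_coe, UniformSpace.Completion.norm_coe]
    exact h k b (P.R.V_mono hk hs) _ (Pre.bd_norm (P.T0 b (u k)))

end Pool.Agent.MP_1acf33_an

end
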